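import Pool.Agent.Lib.P28f.Defs

set_option autoImplicit false

/-!
# Formal properties of `nrm`, `core`, `rep`

PROOF SKETCH. `norm_w0`: sup norm. `core_congr`: where `cut` is not `0` we have `‖v‖ < 3/4`; `f = g` near `w0`, so the derivatives at `w0` agree
(`Filter.EventuallyEq.fderiv_eq`). `core_affine`: `fderiv (b + L f) w0 = L * fderiv f w0`, `(L A)⁻¹ L = A⁻¹`, so `nrm` does not change.
`rep_comp`: both sides are `core` of the same function (`module`/`smul_smul`). `rep_congr`: `‖(2 R) • v‖ < 2 R` for `‖v‖ < 1`; use `core_congr`.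
`rep_affine`: `core_affine` for `v ↦ f (a + (2 R) • v)` whose derivative at `w0` is `(2 R) • fderiv f (a + (2 R) w0)`.
`flat_comp`: derivative of `v ↦ f (a + s v)` is `s • fderiv f (a + s v)`, the factor cancels. `flat_affine`: the factor `L` cancels.
-/

open MeasureTheory Set Metric
open scoped ContDiff Topology

namespace Pool.Agent.Lib.P28f

variable {m : ℕ}

theorem norm_w0 (hm : 1 ≤ m) : ‖w0 m‖ = 3 / 4 := by
  apply le_antisymm
  · rw [pi_norm_le_iff_of_nonneg (by norm_num)]
    intro i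
    unfold w0
    split_ifs
    · rw [Real.norm_eq_abs, abs_of_nonneg (by norm_num)]
    · rw [norm_zero]; norm_num
  · have h := norm_le_pi_norm (w0 m) ⟨0, hm⟩
    have e : w0 m ⟨0, hm⟩ = 3 / 4 := by simp [w0]
    rw [e, Real.norm_eq_abs, abs_of_nonneg (by norm_num)] at h
    exact h

theorem clx_norm_w0_le : ‖w0 m‖ ≤ 3 / 4 := by
  rw [pi_norm_le_iff_of_nonneg (by norm_num)]
  intro i
  unfold w0
  split_ifs
  · rw [Real.norm_eq_abs, abs_of_nonneg (by norm_num)]
  · rw [norm_zero]; norm_num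

theorem clx_cut_outer {v : V m} (h : 3 / 4 ≤ ‖v‖) : cut m v = 0 := by
  apply ContDiffBump.zero_of_le_dist
  rw [dist_zero_right]
  exact h

theorem clx_cut_inner {v : V m} (h : ‖v‖ ≤ 1 / 2) : cut m v = 1 := by
  apply ContDiffBump.one_of_mem_closedBall
  rw [mem_closedBall, dist_zero_right]
  exact h

theorem core_congr {f g : V m → V m} (h : ∀ v, ‖v‖ < 1 → f v = g v) : core f = core g := by
  have hw : ‖w0 m‖ < 1 := lt_of_le_of_lt clx_norm_w0_le (by norm_num)
  have hd : fderiv ℝ f (w0 m) = fderiv ℝ g (w0 m) := by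
    apply Filter.EventuallyEq.fderiv_eq
    have : ∀ᶠ v in 𝓝 (w0 m), ‖v‖ < 1 := (continuous_norm.continuousAt).eventually_lt_const hw
    exact this.mono fun v hv => h v hv
  funext v
  unfold core
  by_cases hv : ‖v‖ < 3 / 4
  · have e : nrm f v = nrm g v := by
      unfold nrm
      rw [hd, h v (by linarith), h _ hw]
    rw [e]
  · rw [clx_cut_outer (not_lt.1 hv), zero_smul, zero_smul]

theorem clx_inv_mul_unit {L A : EV m} (hL : IsUnit L) (hA : IsUnit A) :
    Ring.inverse (L * A) * L = Ring.inverse A := by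
  obtain ⟨u, rfl⟩ := hL
  obtain ⟨w, rfl⟩ := hA
  rw [← Units.val_mul, Ring.inverse_unit, Ring.inverse_unit, mul_inv_rev, Units.val_mul, mul_assoc,
    Units.inv_mul, mul_one]

theorem clx_fderiv_affine {f : V m → V m} {w : V m} (hf : DifferentiableAt ℝ f w) (L : EV m)
    (b : V m) : fderiv ℝ (fun v => b + L (f v)) w = L * fderiv ℝ f w := by
  have h1 : HasFDerivAt (fun v => b + L (f v)) (L.comp (fderiv ℝ f w)) w :=
    (L.hasFDerivAt.comp w hf.hasFDerivAt).const_add b
  exact h1.fderiv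

theorem core_affine {f : V m → V m} (hf : DifferentiableAt ℝ f (w0 m))
    (hu : IsUnit (fderiv ℝ f (w0 m) : EV m)) {L : EV m} (hL : IsUnit L) (b : V m) :
    core (fun v => b + L (f v)) = core f := by
  funext v
  unfold core
  have e : nrm (fun v => b + L (f v)) v = nrm f v := by
    unfold nrm
    rw [clx_fderiv_affine hf]
    have h1 : b + L (f v) - (b + L (f (w0 m))) = L (f v - f (w0 m)) := by
      rw [map_sub]; abel
    rw [h1]
    have h2 := clx_inv_mul_unit hL hu
    have h3 : Ring.inverse (L * fderiv ℝ f (w0 m) : EV m) (L (f v - f (w0 m))) =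
        (Ring.inverse (L * fderiv ℝ f (w0 m) : EV m) * L) (f v - f (w0 m)) := rfl
    rw [h3, h2]
  rw [e]

theorem core_inner (f : V m → V m) {v : V m} (h : ‖v‖ ≤ 1 / 2) : core f v = nrm f v := by
  unfold core
  rw [clx_cut_inner h, one_smul]
  abel

theorem core_outer (f : V m → V m) {v : V m} (h : 3 / 4 ≤ ‖v‖) : core f v = v := by
  unfold core
  rw [clx_cut_outer h, zero_smul, add_zero]

theorem rep_comp (f : V m → V m) (a : V m) (s : ℝ) (b : V m) (R : ℝ) :
    rep (fun v => f (a + s • v)) b R = rep f (a + s • b) (s * R) := by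
  unfold rep
  congr 1
  funext v
  have h : a + s • (b + (2 * R) • v) = a + s • b + (2 * (s * R)) • v := by module
  show f (a + s • (b + (2 * R) • v)) = f (a + s • b + (2 * (s * R)) • v)
  rw [h]

theorem rep_congr {f g : V m → V m} {a : V m} {R : ℝ} (hR : 0 < R)
    (h : ∀ x, ‖x - a‖ < 2 * R → f x = g x) : rep f a R = rep g a R := by
  unfold rep
  apply core_congr
  intro v hv
  apply h
  rw [add_sub_cancel_left, norm_smul, Real.norm_eq_abs, abs_of_pos (by positivity)]
  nlinarith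

theorem clx_hasFDerivAt_comp {f : V m → V m} {a : V m} {s : ℝ} {v : V m}
    (hf : DifferentiableAt ℝ f (a + s • v)) :
    HasFDerivAt (fun v => f (a + s • v)) (s • fderiv ℝ f (a + s • v) : EV m) v := by
  have h1 : HasFDerivAt (fun v : V m => a + s • v) (s • (ContinuousLinearMap.id ℝ (V m))) v :=
    ((hasFDerivAt_id v).const_smul s).const_add a
  have h2 := HasFDerivAt.comp v hf.hasFDerivAt h1
  have h3 : (fderiv ℝ f (a + s • v)).comp (s • (ContinuousLinearMap.id ℝ (V m))) =
      s • fderiv ℝ f (a + s • v) := by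
    ext w
    simp
  rw [h3] at h2
  exact h2

theorem clx_isUnit_smul_ne {A : EV m} (hA : IsUnit A) {r : ℝ} (hr : r ≠ 0) : IsUnit (r • A) := by
  have h1 : r • A = algebraMap ℝ (EV m) r * A := Algebra.smul_def r A
  rw [h1]
  exact ((IsUnit.mk0 r hr).map (algebraMap ℝ (EV m))).mul hA

theorem rep_affine {f : V m → V m} {a : V m} {R : ℝ} (hR : 0 < R)
    (hf : DifferentiableAt ℝ f (a + (2 * R) • w0 m))
    (hu : IsUnit (fderiv ℝ f (a + (2 * R) • w0 m) : EV m)) {L : EV m} (hL : IsUnit L) (b : V m) :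
    rep (fun x => b + L (f x)) a R = rep f a R := by
  unfold rep
  have h1 := clx_hasFDerivAt_comp hf
  apply core_affine h1.differentiableAt _ hL b
  rw [h1.fderiv]
  exact clx_isUnit_smul_ne hu (by positivity)

/-- `rep` only sees `f` on the ball, up to an affine map. -/
theorem rep_affine_congr {f g : V m → V m} {a : V m} {R : ℝ} (hm : 1 ≤ m) (hR : 0 < R)
    (hf : DifferentiableAt ℝ f (a + (2 * R) • w0 m))
    (hu : IsUnit (fderiv ℝ f (a + (2 * R) • w0 m) : EV m)) {L : EV m} (hL : IsUnit L) (b : V m)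
    (h : ∀ x, ‖x - a‖ < 2 * R → g x = b + L (f x)) : rep g a R = rep f a R := by
  rw [rep_congr hR h, rep_affine hR hf hu hL b]

theorem Flat.mono {δ δ' : ℝ} {S S' : Set (V m)} {f : V m → V m} (h : Flat δ S f) (hδ : δ ≤ δ')
    (hS : S' ⊆ S) : Flat δ' S' f := fun x hx y hy => (h x (hS hx) y (hS hy)).trans hδ

theorem flat_comp {δ : ℝ} {S : Set (V m)} {f : V m → V m} {a : V m} {s : ℝ} (hs : s ≠ 0)
    (hf : ∀ v ∈ S, DifferentiableAt ℝ f (a + s • v) ∧ IsUnit (fderiv ℝ f (a + s • v) : EV m))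
    (h : Flat δ ((fun v => a + s • v) '' S) f) : Flat δ S (fun v => f (a + s • v)) := by
  intro x hx y hy
  have h1 := h _ ⟨x, hx, rfl⟩ _ ⟨y, hy, rfl⟩
  rw [(clx_hasFDerivAt_comp (hf x hx).1).fderiv, (clx_hasFDerivAt_comp (hf y hy).1).fderiv]
  obtain ⟨u, hu⟩ := (hf x hx).2
  have h2 : Ring.inverse (s • fderiv ℝ f (a + s • x) : EV m) * (s • fderiv ℝ f (a + s • y)) =
      Ring.inverse (fderiv ℝ f (a + s • x) : EV m) * fderiv ℝ f (a + s • y) := by
    have hu2 : IsUnit (s • (1 : EV m)) := clx_isUnit_smul_ne isUnit_one hs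
    have e1 : ∀ A : EV m, s • A = (s • (1 : EV m)) * A := fun A => by
      rw [smul_mul_assoc, one_mul]
    rw [e1 (fderiv ℝ f (a + s • x)), e1 (fderiv ℝ f (a + s • y)), ← mul_assoc,
      clx_inv_mul_unit hu2 (hf x hx).2]
  rw [h2]
  exact h1

theorem flat_affine {δ : ℝ} {S : Set (V m)} {f : V m → V m}
    (hf : ∀ v ∈ S, DifferentiableAt ℝ f v ∧ IsUnit (fderiv ℝ f v : EV m)) {L : EV m}
    (hL : IsUnit L) (b : V m) (h : Flat δ S f) : Flat δ S (fun v => b + L (f v)) := by
  intro x hx y hy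
  rw [clx_fderiv_affine (hf x hx).1, clx_fderiv_affine (hf y hy).1, ← mul_assoc,
    clx_inv_mul_unit hL (hf x hx).2]
  exact h x hx y hy

end Pool.Agent.Lib.P28f
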