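import Pool.Agent.Lib.P28f.RingNear
import Pool.Agent.Lib.P28f.CoreLin

set_option autoImplicit false

/-!
# Local flatness on an annulus gives flatness on the annulus

PROOF SKETCH. As in `NrmNear` the annulus `ann a R` is the union of the convex pieces `S i s = {x : ‖x - a‖ ≤ 2 R, R ≤ s (x_i - a_i)}` of diameter `≤ 4 R`,
different coordinates meet, `S i +` and `S i -` both meet `S j +` (`j ≠ i`, `m ≥ 2`): any two points are joined by at most three segments, each inside one piece.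
Divide each segment into `256` equal parts of length `≤ R/64`: consecutive points `p, q` lie in `closedBall p (R/32)`, so `‖(df p)⁻¹ df q - 1‖ ≤ δ`. After `N` steps
`‖(df x)⁻¹ df y - 1‖ ≤ (1 + δ)^N - 1` (`near_chain`, induction), `N ≤ 768`, and `(1 + δ)^768 - 1 ≤ 2000 δ` for `δ ≤ 1/2000`
(`(1 + δ)^768 ≤ exp (768 δ)` and `exp t ≤ 1 + 2 t` for `0 ≤ t ≤ 1`).
`ann_ctrl`: for `x` in `ann a R` the ball `closedBall x (R/4)` lies in `closedBall a (9/4 R) \ ball a (3/4 R)`, so it has mass at most `c` and `f` is flat on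
`closedBall x (R/32)`.
-/

open MeasureTheory Set Metric
open scoped ContDiff Topology

namespace Pool.Agent.Lib.P28f

variable {m : ℕ}

namespace AnnFlatAux

/-- one plus the deviation of the derivatives at `x` and `y` -/
noncomputable def M (f : V m → V m) (x y : V m) : ℝ :=
  1 + ‖Ring.inverse (fderiv ℝ f x : EV m) * fderiv ℝ f y - 1‖

theorem M_chain {f : V m → V m} {x y z : V m} (hy : IsUnit (fderiv ℝ f y : EV m)) {α β : ℝ}
    (h1 : M f x y ≤ α) (h2 : M f y z ≤ β) : M f x z ≤ α * β := by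
  unfold M at *
  have h := near_chain (x := fderiv ℝ f x) (z := fderiv ℝ f z) hy (α := α - 1) (β := β - 1)
    (by linarith) (by linarith)
  nlinarith

theorem M_self {f : V m → V m} {x : V m} (hx : IsUnit (fderiv ℝ f x : EV m)) : M f x x = 1 := by
  unfold M
  rw [Ring.inverse_mul_cancel _ hx, sub_self, norm_zero, add_zero]

/-- one segment -/
theorem segm {δ : ℝ} (h0 : 0 ≤ δ) {f : V m → V m} {S : Set (V m)} (hS : Convex ℝ S) {R : ℝ}
    (hI : ∀ x ∈ S, IsUnit (fderiv ℝ f x : EV m))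
    (hloc : ∀ x ∈ S, Flat δ (closedBall x (R / 32)) f) {x y : V m} (hx : x ∈ S) (hy : y ∈ S)
    (hxy : ‖y - x‖ ≤ 4 * R) : M f x y ≤ (1 + δ) ^ 256 := by
  set p : ℕ → V m := fun k => x + ((k : ℝ) / 256) • (y - x) with hp
  have hmem : ∀ k ≤ 256, p k ∈ S := by
    intro k hk
    have hk' : (k : ℝ) ≤ 256 := by exact_mod_cast hk
    exact hS.add_smul_sub_mem hx hy ⟨by positivity, by rw [div_le_one (by norm_num)]; exact hk'⟩
  have key : ∀ k ≤ 256, M f x (p k) ≤ (1 + δ) ^ k := by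
    intro k
    induction k with
    | zero =>
      intro _
      have e : p 0 = x := by simp [hp]
      rw [e, M_self (hI x hx), pow_zero]
    | succ k ih =>
      intro hk
      have h1 := ih (by omega)
      have hpk := hmem k (by omega)
      rw [pow_succ]
      apply M_chain (hI _ hpk) h1
      unfold M
      have h4R : 0 ≤ R := by
        have := (norm_nonneg (y - x)).trans hxy
        linarith
      have h2 := hloc _ hpk (p k) (mem_closedBall_self (by positivity)) (p (k + 1)) (by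
        rw [mem_closedBall, dist_eq_norm]
        have e : p (k + 1) - p k = (1 / 256 : ℝ) • (y - x) := by
          simp only [hp]
          push_cast
          module
        rw [e, norm_smul, Real.norm_eq_abs, abs_of_pos (by norm_num)]
        linarith)
      linarith
  have h1 := key 256 le_rfl
  have e : p 256 = y := by simp [hp]
  rwa [e] at h1

/-- a convex piece of the annulus -/
def piece (a : V m) (R : ℝ) (i : Fin m) (σ : ℝ) : Set (V m) :=
  {v | ‖v - a‖ ≤ 2 * R ∧ R ≤ σ * (v i - a i)}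

theorem piece_convex (a : V m) {R : ℝ} (i : Fin m) (σ : ℝ) : Convex ℝ (piece a R i σ) := by
  intro x hx y hy s t hs ht hst
  refine ⟨?_, ?_⟩
  · have e : s • x + t • y - a = s • (x - a) + t • (y - a) := by
      have : a = (s + t) • a := by rw [hst, one_smul]
      nth_rewrite 1 [this]
      module
    rw [e]
    calc ‖s • (x - a) + t • (y - a)‖ ≤ ‖s • (x - a)‖ + ‖t • (y - a)‖ := norm_add_le _ _
      _ = s * ‖x - a‖ + t * ‖y - a‖ := by
          rw [norm_smul, norm_smul, Real.norm_eq_abs, Real.norm_eq_abs, abs_of_nonneg hs,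
            abs_of_nonneg ht]
      _ ≤ s * (2 * R) + t * (2 * R) := add_le_add (mul_le_mul_of_nonneg_left hx.1 hs)
          (mul_le_mul_of_nonneg_left hy.1 ht)
      _ = 2 * R := by rw [← add_mul, hst, one_mul]
  · have h1 := mul_le_mul_of_nonneg_left hx.2 hs
    have h2 := mul_le_mul_of_nonneg_left hy.2 ht
    have e : σ * ((s • x + t • y) i - a i) =
        s * (σ * (x i - a i)) + t * (σ * (y i - a i)) := by
      simp only [Pi.add_apply, Pi.smul_apply, smul_eq_mul]
      have : a i = (s + t) * a i := by rw [hst, one_mul]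
      nth_rewrite 1 [this]
      ring
    rw [e]
    have e2 : s * R + t * R = R := by rw [← add_mul, hst, one_mul]
    linarith

theorem piece_sub {a : V m} {R : ℝ} {i : Fin m} {σ : ℝ} (hσ : |σ| = 1) :
    piece a R i σ ⊆ ann a R := by
  intro v hv
  refine ⟨?_, hv.1⟩
  have h1 : R ≤ |σ * (v i - a i)| := hv.2.trans (le_abs_self _)
  rw [abs_mul, hσ, one_mul] at h1
  exact h1.trans (norm_le_pi_norm (v - a) i)

/-- a point in two pieces -/
noncomputable def qp (a : V m) (R : ℝ) (i : Fin m) (σ : ℝ) (j : Fin m) (τ : ℝ) : V m :=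
  fun l => a l + if l = i then 3 / 2 * R * σ else if l = j then 3 / 2 * R * τ else 0

theorem qp_norm (a : V m) {R : ℝ} (hR : 0 < R) (i : Fin m) {σ : ℝ} (hσ : |σ| = 1) (j : Fin m)
    {τ : ℝ} (hτ : |τ| = 1) : ‖qp a R i σ j τ - a‖ ≤ 2 * R := by
  rw [pi_norm_le_iff_of_nonneg (by positivity)]
  intro l
  have e : (qp a R i σ j τ - a) l =
      if l = i then 3 / 2 * R * σ else if l = j then 3 / 2 * R * τ else 0 := by
    simp [qp]
  rw [e]
  split_ifs
  · rw [Real.norm_eq_abs, abs_mul, hσ, abs_of_pos (by positivity)]; linarith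
  · rw [Real.norm_eq_abs, abs_mul, hτ, abs_of_pos (by positivity)]; linarith
  · rw [norm_zero]; positivity

theorem qp_left (a : V m) {R : ℝ} (hR : 0 < R) (i : Fin m) {σ : ℝ} (hσ : |σ| = 1) (j : Fin m)
    {τ : ℝ} (hτ : |τ| = 1) : qp a R i σ j τ ∈ piece a R i σ := by
  refine ⟨qp_norm a hR i hσ j hτ, ?_⟩
  have h1 : σ * σ = 1 := by rw [← abs_mul_abs_self, hσ]; norm_num
  have e : qp a R i σ j τ i - a i = 3 / 2 * R * σ := by simp [qp]
  rw [e]
  have e2 : σ * (3 / 2 * R * σ) = 3 / 2 * R * (σ * σ) := by ring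
  rw [e2, h1]
  linarith

theorem qp_right (a : V m) {R : ℝ} (hR : 0 < R) (i : Fin m) {σ : ℝ} (hσ : |σ| = 1) (j : Fin m)
    {τ : ℝ} (hτ : |τ| = 1) (hij : j ≠ i) : qp a R i σ j τ ∈ piece a R j τ := by
  refine ⟨qp_norm a hR i hσ j hτ, ?_⟩
  have h1 : τ * τ = 1 := by rw [← abs_mul_abs_self, hτ]; norm_num
  have e : qp a R i σ j τ j - a j = 3 / 2 * R * τ := by simp [qp, hij]
  rw [e]
  have e2 : τ * (3 / 2 * R * τ) = 3 / 2 * R * (τ * τ) := by ring
  rw [e2, h1]
  linarith

theorem exists_piece {a : V m} {R : ℝ} (hR : 0 < R) {v : V m} (hv : v ∈ ann a R) :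
    ∃ (i : Fin m) (σ : ℝ), (σ = 1 ∨ σ = -1) ∧ v ∈ piece a R i σ := by
  have h3 : ∃ i, R ≤ |(v - a) i| := by
    by_contra hcon
    push Not at hcon
    have : ‖v - a‖ < R := by
      rw [pi_norm_lt_iff hR]
      exact hcon
    linarith [hv.1]
  obtain ⟨i, hi⟩ := h3
  rw [Pi.sub_apply] at hi
  rcases le_or_gt 0 (v i - a i) with h | h
  · exact ⟨i, 1, Or.inl rfl, hv.2, by rwa [one_mul, ← abs_of_nonneg h]⟩
  · exact ⟨i, -1, Or.inr rfl, hv.2, by rwa [neg_one_mul, ← abs_of_neg h]⟩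

theorem num_pow {δ : ℝ} (h0 : 0 ≤ δ) (n : ℕ) : (1 + δ) ^ n ≤ Real.exp (n * δ) := by
  have h3 : 1 + δ ≤ Real.exp δ := by
    have := Real.add_one_le_exp δ
    linarith
  rw [Real.exp_nat_mul]
  exact pow_le_pow_left₀ (by linarith) h3 _

theorem num {δ : ℝ} (h0 : 0 ≤ δ) (h1 : δ ≤ 1 / 2000) {P : ℝ} (hP : P ≤ Real.exp (768 * δ)) :
    P - 1 ≤ 2000 * δ := by
  have h4 : Real.exp (768 * δ) ≤ 1 / (1 - 768 * δ) :=
    Real.exp_bound_div_one_sub_of_interval (by positivity) (by linarith)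
  have h5 : 1 / (1 - 768 * δ) ≤ 1 + 2000 * δ := by
    rw [div_le_iff₀ (by linarith)]
    nlinarith
  linarith

theorem cube_le {δ : ℝ} (h0 : 0 ≤ δ) {P : ℝ} (hP0 : 0 ≤ P) (hP : P ≤ Real.exp (256 * δ)) :
    P * P * P ≤ Real.exp (768 * δ) := by
  have e : Real.exp (768 * δ) = Real.exp (256 * δ) * Real.exp (256 * δ) * Real.exp (256 * δ) := by
    rw [← Real.exp_add, ← Real.exp_add]
    congr 1
    ring
  rw [e]
  have h1 : P * P ≤ Real.exp (256 * δ) * Real.exp (256 * δ) :=
    mul_le_mul hP hP hP0 (Real.exp_pos _).le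
  exact mul_le_mul h1 hP hP0 (by positivity)

end AnnFlatAux

open AnnFlatAux in
theorem ann_flat (hm : 2 ≤ m) {δ : ℝ} (h0 : 0 ≤ δ) (h1 : δ ≤ 1 / 2000) {f : V m → V m} {a : V m}
    {R : ℝ} (hR : 0 < R) (hI : ∀ x ∈ ann a R, IsUnit (fderiv ℝ f x : EV m))
    (hloc : ∀ x ∈ ann a R, Flat δ (closedBall x (R / 32)) f) :
    Flat (2000 * δ) (ann a R) f := by
  obtain ⟨P, hPdef⟩ : ∃ P : ℝ, P = (1 + δ) ^ 256 := ⟨_, rfl⟩
  have hone : (1 : ℝ) ≤ P := by
    rw [hPdef]
    exact one_le_pow₀ (by linarith)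
  have hPexp : P ≤ Real.exp (256 * δ) := by
    rw [hPdef]
    exact num_pow h0 256
  have hseg : ∀ (i : Fin m) (σ : ℝ), |σ| = 1 → ∀ x ∈ piece a R i σ, ∀ y ∈ piece a R i σ,
      M f x y ≤ P := by
    intro i σ hσ x hx y hy
    rw [hPdef]
    apply segm h0 (piece_convex a i σ) (fun z hz => hI z (piece_sub hσ hz))
      (fun z hz => hloc z (piece_sub hσ hz)) hx hy
    calc ‖y - x‖ = ‖(y - a) - (x - a)‖ := by rw [sub_sub_sub_cancel_right]
      _ ≤ ‖y - a‖ + ‖x - a‖ := norm_sub_le _ _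
      _ ≤ 2 * R + 2 * R := add_le_add hy.1 hx.1
      _ = 4 * R := by ring
  clear hPdef
  have h11 : |(1 : ℝ)| = 1 := abs_one
  have hseg2 : ∀ (i : Fin m) (σ : ℝ), |σ| = 1 → ∀ (j : Fin m) (τ : ℝ), |τ| = 1 → j ≠ i →
      ∀ x ∈ piece a R i σ, ∀ y ∈ piece a R j τ, M f x y ≤ P * P := by
    intro i σ hσ j τ hτ hij x hx y hy
    have hq := qp_left a hR i hσ j hτ
    exact M_chain (hI _ (piece_sub hσ hq)) (hseg i σ hσ x hx _ hq)
      (hseg j τ hτ _ (qp_right a hR i hσ j hτ hij) y hy)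
  intro x hx y hy
  obtain ⟨i, σ, hσ, hxi⟩ := exists_piece hR hx
  obtain ⟨j, τ, hτ, hyj⟩ := exists_piece hR hy
  have habs : ∀ s : ℝ, (s = 1 ∨ s = -1) → |s| = 1 := by
    rintro s (rfl | rfl)
    · exact abs_one
    · rw [abs_neg, abs_one]
  have hσ' := habs σ hσ
  have hτ' := habs τ hτ
  have hPP : P ≤ P * P := le_mul_of_one_le_left (by linarith) hone
  have hPPP : P * P ≤ P * P * P := le_mul_of_one_le_right (by positivity) hone
  have hfin : M f x y ≤ P * P * P := by
    by_cases hij : j = i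
    · subst hij
      by_cases hst : τ = σ
      · subst hst
        exact (hseg j τ hτ' x hxi y hyj).trans (hPP.trans hPPP)
      · obtain ⟨l, hl⟩ : ∃ l : Fin m, l ≠ j := by
          by_cases h : (⟨0, by omega⟩ : Fin m) = j
          · refine ⟨⟨1, by omega⟩, fun h' => ?_⟩
            rw [← h] at h'
            have := congrArg Fin.val h'
            simp at this
          · exact ⟨_, h⟩
        have e1 := hseg2 j σ hσ' l 1 h11 hl x hxi (qp a R j τ l 1)
          (qp_right a hR j hτ' l h11 hl)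
        exact M_chain (hI _ (piece_sub hτ' (qp_left a hR j hτ' l h11))) e1
          (hseg j τ hτ' _ (qp_left a hR j hτ' l h11) y hyj)
    · exact (hseg2 i σ hσ' j τ hτ' hij x hxi y hyj).trans hPPP
  have hn := num h0 h1 (cube_le h0 (by linarith) hPexp)
  unfold M at hfin
  linarith

theorem ann_ctrl (hm : 2 ≤ m) {δ c : ℝ} (h0 : 0 ≤ δ) (h1 : δ ≤ 1 / 2000) {U : Set (V m)}
    {f : V m → V m} {μ : Measure (V m)} [IsFiniteMeasure μ] (h : Ctrl δ c U f μ) {a : V m} {R : ℝ}
    (hR : 0 < R) (hU : closedBall a (9 / 4 * R) ⊆ U)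
    (hμ : μ.real (closedBall a (9 / 4 * R) \ ball a (3 / 4 * R)) ≤ c) :
    Flat (2000 * δ) (ann a R) f := by
  have hsub : ∀ x ∈ ann a R, closedBall x (R / 4) ⊆
      closedBall a (9 / 4 * R) \ ball a (3 / 4 * R) := by
    intro x hx y hy
    rw [mem_closedBall, dist_eq_norm] at hy
    have h2 : ‖y - a‖ ≤ ‖y - x‖ + ‖x - a‖ := norm_sub_le_norm_sub_add_norm_sub y x a
    have h3 : ‖x - a‖ ≤ ‖y - x‖ + ‖y - a‖ := by
      have := norm_sub_le_norm_sub_add_norm_sub x y a
      rwa [norm_sub_rev x y] at this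
    refine ⟨?_, ?_⟩
    · rw [mem_closedBall, dist_eq_norm]
      linarith [hx.2]
    · rw [mem_ball, dist_eq_norm, not_lt]
      linarith [hx.1]
  apply ann_flat hm h0 h1 hR
  · intro x hx
    exact (h.imm x (hU ((hsub x hx) (mem_closedBall_self (by positivity))).1)).2
  · intro x hx
    have h4 := h.flat x (R / 4) (by positivity) (fun y hy => hU ((hsub x hx) hy).1)
      ((measureReal_mono (hsub x hx)).trans hμ)
    have e : R / 4 / 8 = R / 32 := by ring
    rwa [e] at h4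

end Pool.Agent.Lib.P28f
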