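import Pool.Agent.Lib.P28f.RepId
import Pool.Agent.Lib.P28f.AnnFlat

set_option autoImplicit false

/-!
# Small mass: the class is trivial

PROOF SKETCH. `δ₀ = min (1/2000) (δ₁ / 2000)`, `δ₁` from `rep_id`. All subsets of `ball 0 1` have mass `≤ E ≤ c`, so by `ann_ctrl` (`0 < R' ≤ 1/4`, `9/4 R' < 1`) `f` is `2000 δ`-flat on
`ann 0 R'`; `rep_id` with `a = 0`, `R = 1/4`.
-/

open MeasureTheory Set Metric
open scoped ContDiff Topology

namespace Pool.Agent.Lib.P28f

variable {m : ℕ}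

theorem base_cls (m : ℕ) (hm : 2 ≤ m) : ∃ δ₀ : ℝ, 0 < δ₀ ∧ ∀ (δ c E : ℝ) (f : V m → V m)
    (μ : Measure (V m)), 0 ≤ δ → δ ≤ δ₀ → E ≤ c → Loc δ c E f μ → Iso (cls f) id := by
  obtain ⟨δ₁, hδ₁, hri⟩ := rep_id m hm
  refine ⟨min (1 / 2000) (δ₁ / 2000), by positivity, fun δ c E f μ h0 hδ hE h => ?_⟩
  have h1 : δ ≤ 1 / 2000 := hδ.trans (min_le_left _ _)
  have h2 : 2000 * δ ≤ δ₁ := by
    have := hδ.trans (min_le_right _ _)
    linarith
  have := h.fin
  unfold cls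
  refine hri f 0 (1 / 4) (by norm_num) ?_ ?_
  · intro x hx
    refine h.ctrl.imm x ?_
    rw [mem_closedBall] at hx
    rw [mem_ball]
    linarith
  · intro R' hR' hR4
    have hsub : closedBall (0 : V m) (9 / 4 * R') ⊆ ball 0 1 := by
      intro x hx
      rw [mem_closedBall] at hx
      rw [mem_ball]
      linarith
    refine (ann_ctrl hm h0 h1 h.ctrl hR' hsub ?_).mono h2 (subset_refl _)
    refine le_trans (measureReal_mono ?_) (h.mass.trans hE)
    exact sdiff_subset.trans hsub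

end Pool.Agent.Lib.P28f
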