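import Pool.Agent.Lib.P28f.RingNear

set_option autoImplicit false

/-!
# Uniform bounds on compact sets from local flatness and connectedness

PROOF SKETCH. Let `A` be the set of `x ∈ Ω` for which there is a `C` with `∀ᶠ j in ult, ‖(G j x₀)⁻¹ G j x‖ ≤ C ∧ ‖(G j x)⁻¹ G j x₀‖ ≤ C`. For `x ∈ Ω` with `ρ` from `hloc` and `y ∈ closedBall x ρ`:
`(G x₀)⁻¹ G y = ((G x₀)⁻¹ G x) ((G x)⁻¹ G y)`, and `‖(G x)⁻¹ G y‖ ≤ 3/2`, `‖(G y)⁻¹ G x‖ ≤ 2` (`near_swap`), so the bounds pass from `x` to `y` and back with a factor `2`, uniformly for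
`y ∈ closedBall x ρ`. Hence `A` and `Ω \ A` are open, `x₀ ∈ A` (`C = 1`), so `A = Ω` (`IsPreconnected.subset_of_...`, e.g. `IsPreconnected.subset_left_of_subset_union`). Cover `K` by finitely many balls
`ball x ρ_x` and take the maximum of the constants `2 C_x`.
`net_close`: let `P` be a finite set of points of `K` such that the balls `closedBall p r` cover `K`. For each `p ∈ P` the bounded sequence `N j p` converges along `ult` in the finite-dimensional space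
`EV m` (`IsCompact.ultrafilter_le_nhds` for the compact `closedBall 0 C` and the mapped ultrafilter), so `∀ᶠ j, ‖N j p - N∞ p‖ ≤ τ`, `τ = 1 / (100 (|C| + 1))`. For `i, j` in the set of all good indices
`‖(N i p)⁻¹ N j p - 1‖ ≤ ‖(N i p)⁻¹‖ ‖N j p - N i p‖ ≤ 2 C τ ≤ 1/50`; for `x ∈ K`, `x ∈ closedBall p r`:
`(N i x)⁻¹ N j x = ((N i x)⁻¹ N i p) ((N i p)⁻¹ N j p) ((N j p)⁻¹ N j x)`, product of three factors near `1`.
-/

open MeasureTheory Set Metric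
open scoped ContDiff Topology

namespace Pool.Agent.Lib.P28f

variable {m : ℕ}

theorem BddAux_step {a b c : EV m} (hb : IsUnit b) (hc : IsUnit c) {C : ℝ}
    (h : ‖Ring.inverse b * c - 1‖ ≤ 1 / 2) (h1 : ‖Ring.inverse a * b‖ ≤ C)
    (h2 : ‖Ring.inverse b * a‖ ≤ C) :
    ‖Ring.inverse a * c‖ ≤ 2 * C ∧ ‖Ring.inverse c * a‖ ≤ 2 * C := by
  have hC : 0 ≤ C := (norm_nonneg _).trans h1
  have h3 : ‖Ring.inverse b * c‖ ≤ 2 := by
    calc ‖Ring.inverse b * c‖ = ‖(Ring.inverse b * c - 1) + 1‖ := by rw [sub_add_cancel]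
      _ ≤ ‖Ring.inverse b * c - 1‖ + ‖(1 : EV m)‖ := norm_add_le _ _
      _ ≤ 1 / 2 + 1 := add_le_add h norm_one_le'
      _ ≤ 2 := by norm_num
  have h4 : ‖Ring.inverse c * b - 1‖ ≤ 1 := by
    have := near_swap hb hc h (by norm_num)
    norm_num at this
    exact this
  have h5 : ‖Ring.inverse c * b‖ ≤ 2 := by
    calc ‖Ring.inverse c * b‖ = ‖(Ring.inverse c * b - 1) + 1‖ := by rw [sub_add_cancel]
      _ ≤ ‖Ring.inverse c * b - 1‖ + ‖(1 : EV m)‖ := norm_add_le _ _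
      _ ≤ 1 + 1 := add_le_add h4 norm_one_le'
      _ = 2 := by norm_num
  constructor
  · rw [inv_mul_chain hb]
    calc _ ≤ ‖Ring.inverse a * b‖ * ‖Ring.inverse b * c‖ := norm_mul_le _ _
      _ ≤ C * 2 := mul_le_mul h1 h3 (norm_nonneg _) hC
      _ = 2 * C := mul_comm _ _
  · rw [inv_mul_chain hb]
    exact (norm_mul_le _ _).trans (mul_le_mul h5 h2 (norm_nonneg _) (by norm_num))

theorem BddAux_step' {a b c : EV m} (hb : IsUnit b) (hc : IsUnit c) {C : ℝ}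
    (h : ‖Ring.inverse b * c - 1‖ ≤ 1 / 2) (h1 : ‖Ring.inverse a * c‖ ≤ C)
    (h2 : ‖Ring.inverse c * a‖ ≤ C) :
    ‖Ring.inverse a * b‖ ≤ 2 * C ∧ ‖Ring.inverse b * a‖ ≤ 2 * C := by
  have hC : 0 ≤ C := (norm_nonneg _).trans h1
  have h3 : ‖Ring.inverse b * c‖ ≤ 2 := by
    calc ‖Ring.inverse b * c‖ = ‖(Ring.inverse b * c - 1) + 1‖ := by rw [sub_add_cancel]
      _ ≤ ‖Ring.inverse b * c - 1‖ + ‖(1 : EV m)‖ := norm_add_le _ _
      _ ≤ 1 / 2 + 1 := add_le_add h norm_one_le'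
      _ ≤ 2 := by norm_num
  have h4 : ‖Ring.inverse c * b - 1‖ ≤ 1 := by
    have := near_swap hb hc h (by norm_num)
    norm_num at this
    exact this
  have h5 : ‖Ring.inverse c * b‖ ≤ 2 := by
    calc ‖Ring.inverse c * b‖ = ‖(Ring.inverse c * b - 1) + 1‖ := by rw [sub_add_cancel]
      _ ≤ ‖Ring.inverse c * b - 1‖ + ‖(1 : EV m)‖ := norm_add_le _ _
      _ ≤ 1 + 1 := add_le_add h4 norm_one_le'
      _ = 2 := by norm_num
  constructor
  · rw [inv_mul_chain hc]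
    calc _ ≤ ‖Ring.inverse a * c‖ * ‖Ring.inverse c * b‖ := norm_mul_le _ _
      _ ≤ C * 2 := mul_le_mul h1 h5 (norm_nonneg _) hC
      _ = 2 * C := mul_comm _ _
  · rw [inv_mul_chain hc]
    exact (norm_mul_le _ _).trans (mul_le_mul h3 h2 (norm_nonneg _) (by norm_num))

theorem bdd {Ω : Set (V m)} (hΩ : IsOpen Ω) (hc : IsPreconnected Ω) {x₀ : V m} (hx₀ : x₀ ∈ Ω)
    (G : ℕ → V m → EV m) (hu : ∀ᶠ j in (ult : Filter ℕ), ∀ x ∈ Ω, IsUnit (G j x))
    (hloc : ∀ x ∈ Ω, ∃ ρ : ℝ, 0 < ρ ∧ closedBall x ρ ⊆ Ω ∧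
      ∀ᶠ j in (ult : Filter ℕ), ∀ y ∈ closedBall x ρ, ‖Ring.inverse (G j x) * G j y - 1‖ ≤ 1 / 2)
    {K : Set (V m)} (hK : IsCompact K) (hKΩ : K ⊆ Ω) :
    ∃ C : ℝ, 0 < C ∧ ∀ᶠ j in (ult : Filter ℕ), ∀ x ∈ K,
      ‖Ring.inverse (G j x₀) * G j x‖ ≤ C ∧ ‖Ring.inverse (G j x) * G j x₀‖ ≤ C := by
  let P : V m → Prop := fun x => ∃ C : ℝ, 0 < C ∧ ∀ᶠ j in (ult : Filter ℕ),
    ‖Ring.inverse (G j x₀) * G j x‖ ≤ C ∧ ‖Ring.inverse (G j x) * G j x₀‖ ≤ C
  have hA : IsOpen {x | x ∈ Ω ∧ P x} := by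
    rw [Metric.isOpen_iff]
    rintro x ⟨hx, C, hC, hCx⟩
    obtain ⟨ρ, hρ, hρΩ, hev⟩ := hloc x hx
    refine ⟨ρ, hρ, fun y hy => ?_⟩
    have hy' := ball_subset_closedBall hy
    refine ⟨hρΩ hy', 2 * C, by positivity, ?_⟩
    filter_upwards [hu, hCx, hev] with j h1 h2 h3
    exact BddAux_step (h1 x hx) (h1 y (hρΩ hy')) (h3 y hy') h2.1 h2.2
  have hB : IsOpen {x | x ∈ Ω ∧ ¬ P x} := by
    rw [Metric.isOpen_iff]
    rintro x ⟨hx, hPx⟩
    obtain ⟨ρ, hρ, hρΩ, hev⟩ := hloc x hx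
    refine ⟨ρ, hρ, fun y hy => ?_⟩
    have hy' := ball_subset_closedBall hy
    refine ⟨hρΩ hy', fun hPy => hPx ?_⟩
    obtain ⟨C, hC, hCy⟩ := hPy
    refine ⟨2 * C, by positivity, ?_⟩
    filter_upwards [hu, hCy, hev] with j h1 h2 h3
    exact BddAux_step' (h1 x hx) (h1 y (hρΩ hy')) (h3 y hy') h2.1 h2.2
  have hall : ∀ x ∈ Ω, P x := by
    have h1 : Ω ⊆ {x | x ∈ Ω ∧ P x} := by
      refine hc.subset_left_of_subset_union hA hB ?_ ?_ ?_
      · rw [Set.disjoint_left]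
        rintro x ⟨_, h⟩ ⟨_, h'⟩
        exact h' h
      · intro x hx
        by_cases h : P x
        · exact Or.inl ⟨hx, h⟩
        · exact Or.inr ⟨hx, h⟩
      · refine ⟨x₀, hx₀, hx₀, 1, one_pos, ?_⟩
        filter_upwards [hu] with j h1
        rw [Ring.inverse_mul_cancel _ (h1 x₀ hx₀)]
        exact ⟨norm_one_le', norm_one_le'⟩
    exact fun x hx => (h1 hx).2
  choose! c hcpos hcev using hall
  choose! ρ hρ hρΩ hρev using hloc
  obtain ⟨t, htK, htc⟩ := hK.elim_nhds_subcover (fun x => closedBall x (ρ x))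
    (fun x hx => closedBall_mem_nhds x (hρ x (hKΩ hx)))
  refine ⟨1 + ∑ x ∈ t, 2 * c x, ?_, ?_⟩
  · have : 0 ≤ ∑ x ∈ t, 2 * c x :=
      Finset.sum_nonneg fun x hx => by have := hcpos x (hKΩ (htK x hx)); positivity
    linarith
  · have h1 : ∀ᶠ j in (ult : Filter ℕ), ∀ x ∈ t,
        (‖Ring.inverse (G j x₀) * G j x‖ ≤ c x ∧ ‖Ring.inverse (G j x) * G j x₀‖ ≤ c x) ∧
        ∀ y ∈ closedBall x (ρ x), ‖Ring.inverse (G j x) * G j y - 1‖ ≤ 1 / 2 := by
      rw [Filter.eventually_all_finset]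
      intro x hx
      exact (hcev x (hKΩ (htK x hx))).and (hρev x (hKΩ (htK x hx)))
    filter_upwards [hu, h1] with j h2 h3
    intro y hy
    obtain ⟨x, hx, hyx⟩ : ∃ x ∈ t, y ∈ closedBall x (ρ x) := by
      have := htc hy
      simp only [mem_iUnion, exists_prop] at this
      exact this
    have hxΩ := hKΩ (htK x hx)
    obtain ⟨h4, h5⟩ := h3 x hx
    have h6 := BddAux_step (h2 x hxΩ) (h2 y (hρΩ x hxΩ hyx)) (h5 y hyx) h4.1 h4.2
    have h7 : 2 * c x ≤ 1 + ∑ x ∈ t, 2 * c x := by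
      have h8 : 2 * c x ≤ ∑ x ∈ t, 2 * c x :=
        Finset.single_le_sum (f := fun x => 2 * c x)
          (fun z hz => by have := hcpos z (hKΩ (htK z hz)); positivity) hx
      linarith
    exact ⟨h6.1.trans h7, h6.2.trans h7⟩

theorem net_close (N : ℕ → V m → EV m) {K : Set (V m)} (hK : IsCompact K) {C r : ℝ} (hr : 0 < r)
    (h : ∀ᶠ j in (ult : Filter ℕ), ∀ x ∈ K, IsUnit (N j x) ∧ ‖N j x‖ ≤ C ∧
      ‖Ring.inverse (N j x)‖ ≤ C ∧
      ∀ y ∈ K, ‖y - x‖ ≤ r → ‖Ring.inverse (N j x) * N j y - 1‖ ≤ 1 / 100) :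
    ∃ S : Set ℕ, (∀ᶠ j in (ult : Filter ℕ), j ∈ S) ∧
      ∀ i ∈ S, ∀ j ∈ S, ∀ x ∈ K, ‖Ring.inverse (N i x) * N j x - 1‖ ≤ 1 / 8 := by
  obtain ⟨t, htK, htc⟩ := hK.elim_nhds_subcover (fun x => closedBall x r)
    (fun x _ => closedBall_mem_nhds x hr)
  have hlim : ∀ p ∈ t, ∃ L : EV m, Filter.Tendsto (fun j => N j p) (ult : Filter ℕ) (𝓝 L) := by
    intro p hp
    have h1 : ((ult.map (fun j => N j p) : Ultrafilter (EV m)) : Filter (EV m)) ≤
        Filter.principal (closedBall 0 C) := by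
      rw [Ultrafilter.coe_map, Filter.le_principal_iff, Filter.mem_map]
      filter_upwards [h] with j hj
      rw [mem_preimage, mem_closedBall, dist_zero_right]
      exact (hj p (htK p hp)).2.1
    obtain ⟨L, _, hL⟩ := (isCompact_closedBall (0 : EV m) C).ultrafilter_le_nhds _ h1
    exact ⟨L, hL⟩
  choose! L hL using hlim
  have hτ : (0 : ℝ) < 1 / (100 * (|C| + 1)) := by positivity
  refine ⟨{j | (∀ x ∈ K, IsUnit (N j x) ∧ ‖N j x‖ ≤ C ∧
      ‖Ring.inverse (N j x)‖ ≤ C ∧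
      ∀ y ∈ K, ‖y - x‖ ≤ r → ‖Ring.inverse (N j x) * N j y - 1‖ ≤ 1 / 100) ∧
      ∀ p ∈ t, dist (N j p) (L p) < 1 / (100 * (|C| + 1))}, ?_, ?_⟩
  · refine h.and ?_
    rw [Filter.eventually_all_finset]
    intro p hp
    exact (Metric.tendsto_nhds.1 (hL p hp)) _ hτ
  · rintro i ⟨hi, hi'⟩ j ⟨hj, hj'⟩ x hx
    obtain ⟨p, hp, hxp⟩ : ∃ p ∈ t, x ∈ closedBall p r := by
      have := htc hx
      simp only [mem_iUnion, exists_prop] at this
      exact this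
    have hpK := htK p hp
    rw [mem_closedBall, dist_eq_norm] at hxp
    have h1 : ‖Ring.inverse (N i x) * N i p - 1‖ ≤ 1 / 100 :=
      (hi x hx).2.2.2 p hpK (by rw [norm_sub_rev]; exact hxp)
    have h2 : ‖Ring.inverse (N j p) * N j x - 1‖ ≤ 1 / 100 := (hj p hpK).2.2.2 x hx hxp
    have h3 : ‖Ring.inverse (N i p) * N j p - 1‖ ≤ 1 / 50 := by
      have e : Ring.inverse (N i p) * N j p - 1 = Ring.inverse (N i p) * (N j p - N i p) := by
        rw [mul_sub, Ring.inverse_mul_cancel _ (hi p hpK).1]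
      have h4 : ‖N j p - N i p‖ ≤ 2 * (1 / (100 * (|C| + 1))) := by
        rw [← dist_eq_norm]
        calc dist (N j p) (N i p) ≤ dist (N j p) (L p) + dist (N i p) (L p) :=
              dist_triangle_right _ _ _
          _ ≤ _ := by linarith [hi' p hp, hj' p hp]
      have h5 : ‖Ring.inverse (N i p)‖ ≤ |C| + 1 := by
        have := (hi p hpK).2.2.1
        have := le_abs_self C
        linarith
      rw [e]
      calc _ ≤ ‖Ring.inverse (N i p)‖ * ‖N j p - N i p‖ := norm_mul_le _ _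
        _ ≤ (|C| + 1) * (2 * (1 / (100 * (|C| + 1)))) :=
            mul_le_mul h5 h4 (norm_nonneg _) (by positivity)
        _ = 1 / 50 := by field_simp; norm_num
    have h6 := near_chain (hi p hpK).1 h1 h3
    have h7 := near_chain (hj p hpK).1 h6 h2
    refine h7.trans ?_
    norm_num

end Pool.Agent.Lib.P28f
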