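import Pool.Agent.Lib.P28f.CoreDif
import Pool.Agent.Lib.P28f.AnnFlat

set_option autoImplicit false

/-!
# The class of a controlled map of the unit ball: facts about `cls f`

PROOF SKETCH. `cls f = rep f 0 (1/4) = core g`, `g v = f (0 + (2 * (1/4)) • v) = f ((1/2) • v)`, `fderiv g v = (1/2) • fderiv f ((1/2) • v)`. `cls_inner`: `core g = nrm g` for `‖v‖ ≤ 1/2`
(`core_inner`), a constant plus a linear map of `f ((1/2) • v)`. `fderiv_cls`: near `v`, `‖v‖ < 1/2`, `cls f = nrm g`, the factors `1/2` cancel (`inv_mul_smul`).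
`cls_dif`: `ann_ctrl` at `a = 0`, `R = 1/4` (`closedBall 0 (9/16) \ ball 0 (3/16)` lies in `ball 0 1 \ closedBall 0 (1/16)`, mass `≤ c/4 ≤ c`) gives `2000 δ`-flatness of `f` on
`ann 0 (1/4)`, hence of `g` on `ann 0 (1/2)` (`flat_comp`); then `core_dif`.
`rep_cls`: `rep_affine_congr` for `cls f = b + L (g ·)` on `‖x - 2 a‖ < 2 R` (there `‖x‖ < 1/2`), then `rep_comp`.
`flat_cls`: for `v` in `ann (2 a) (2 R)` one has `‖v‖ < 1/2` and `fderiv_cls`; `inv_mul_left`.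
-/

open MeasureTheory Set Metric
open scoped ContDiff Topology

namespace Pool.Agent.Lib.P28f

variable {m : ℕ}

namespace ClsFactsAux

theorem fderiv_core_inner {g : V m → V m} {v : V m} (h : ‖v‖ < 1 / 2)
    (hd : DifferentiableAt ℝ g v) :
    (fderiv ℝ (core g) v : EV m) = Ring.inverse (fderiv ℝ g (w0 m) : EV m) * fderiv ℝ g v := by
  have h1 : core g =ᶠ[𝓝 v] fun x =>
      (w0 m - Ring.inverse (fderiv ℝ g (w0 m) : EV m) (g (w0 m))) +
        Ring.inverse (fderiv ℝ g (w0 m) : EV m) (g x) := by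
    have h2 : ∀ᶠ x in 𝓝 v, ‖x‖ < 1 / 2 := (continuous_norm.continuousAt).eventually_lt_const h
    filter_upwards [h2] with x hx
    rw [core_inner g hx.le]
    unfold nrm
    rw [map_sub]
    abel
  rw [h1.fderiv_eq]
  exact clx_fderiv_affine hd _ _

theorem fderiv_rep_inner {f : V m → V m} {a : V m} {R : ℝ} (hR : 0 < R) {v : V m}
    (hv : ‖v‖ < 1 / 2) (hd : DifferentiableAt ℝ f (a + (2 * R) • v))
    (hd0 : DifferentiableAt ℝ f (a + (2 * R) • w0 m))
    (hu : IsUnit (fderiv ℝ f (a + (2 * R) • w0 m) : EV m)) :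
    (fderiv ℝ (rep f a R) v : EV m) =
      Ring.inverse (fderiv ℝ f (a + (2 * R) • w0 m) : EV m) * fderiv ℝ f (a + (2 * R) • v) := by
  unfold rep
  rw [fderiv_core_inner hv (clx_hasFDerivAt_comp hd).differentiableAt,
    (clx_hasFDerivAt_comp hd).fderiv, (clx_hasFDerivAt_comp hd0).fderiv]
  exact inv_mul_smul (by positivity) hu

theorem add_smul_mem {a v : V m} {s : ℝ} (hs : 0 < s) (hv : v ∈ closedBall (0 : V m) 1) :
    a + s • v ∈ closedBall a s := by
  rw [mem_closedBall, dist_zero_right] at hv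
  rw [mem_closedBall, dist_eq_norm, add_sub_cancel_left, norm_smul, Real.norm_eq_abs,
    abs_of_pos hs]
  nlinarith

theorem imm_comp {f : V m → V m} {a : V m} {s : ℝ} (hs : 0 < s) (h : Imm (closedBall a s) f) :
    Imm (closedBall 0 1) (fun v => f (a + s • v)) := by
  intro v hv
  obtain ⟨h1, h2⟩ := h _ (add_smul_mem hs hv)
  refine ⟨?_, ?_⟩
  · have h3 : ContDiffAt ℝ ∞ (fun v : V m => a + s • v) v := by fun_prop
    exact ContDiffAt.comp v (f := fun v : V m => a + s • v) (g := f) h1 h3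
  · rw [(clx_hasFDerivAt_comp (h1.differentiableAt (by simp))).fderiv]
    exact clx_isUnit_smul_ne h2 hs.ne'

theorem flat_ann_comp {δ : ℝ} {f : V m → V m} {a : V m} {R : ℝ} (hR : 0 < R)
    (hI : Imm (closedBall a (2 * R)) f) (h : Flat δ (ann a R) f) :
    Flat δ (ann 0 (1 / 2)) (fun v => f (a + (2 * R) • v)) := by
  have hR2 : (2 * R) ≠ 0 := by positivity
  refine flat_comp hR2 ?_ ?_
  · intro v hv
    have hv1 : v ∈ closedBall (0 : V m) 1 := by
      have := hv.2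
      rw [sub_zero] at this
      rw [mem_closedBall, dist_zero_right]; linarith
    obtain ⟨h1, h2⟩ := hI _ (add_smul_mem (by positivity) hv1)
    exact ⟨h1.differentiableAt (by simp), h2⟩
  · refine Flat.mono h le_rfl ?_
    rintro _ ⟨v, hv, rfl⟩
    obtain ⟨hv1, hv2⟩ := hv
    rw [sub_zero] at hv1 hv2
    have e : ‖(a + (2 * R) • v) - a‖ = (2 * R) * ‖v‖ := by
      rw [add_sub_cancel_left, norm_smul, Real.norm_eq_abs, abs_of_pos (by linarith)]
    constructor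
    · change R ≤ ‖(a + (2 * R) • v) - a‖
      rw [e]; nlinarith
    · change ‖(a + (2 * R) • v) - a‖ ≤ 2 * R
      rw [e]; nlinarith

theorem fderiv_half (f : V m → V m) (v : V m) :
    (fderiv ℝ (fun x => f ((0 : V m) + (2 * (1 / 4 : ℝ)) • x)) v : EV m) =
      (1 / 2 : ℝ) • (fderiv ℝ f ((1 / 2 : ℝ) • v) : EV m) := by
  have hh : (fun x => f ((0 : V m) + (2 * (1 / 4 : ℝ)) • x)) = fun x => f ((1 / 2 : ℝ) • x) := by
    funext x
    rw [zero_add]
    norm_num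
  rw [hh]
  by_cases hd : DifferentiableAt ℝ f ((1 / 2 : ℝ) • v)
  · have h1 := clx_hasFDerivAt_comp (f := f) (a := 0) (s := 1 / 2) (v := v) (by rwa [zero_add])
    simp only [zero_add] at h1
    exact h1.fderiv
  · have hd' : ¬ DifferentiableAt ℝ (fun x => f ((1 / 2 : ℝ) • x)) v := by
      intro h
      apply hd
      have h2 : DifferentiableAt ℝ (fun x : V m => (2 : ℝ) • x) ((1 / 2 : ℝ) • v) := by
        fun_prop
      have h3 : DifferentiableAt ℝ (fun x => f ((1 / 2 : ℝ) • x)) ((2 : ℝ) • (1 / 2 : ℝ) • v) := by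
        have e0 : (2 : ℝ) • (1 / 2 : ℝ) • v = v := by
          rw [smul_smul]
          norm_num
        rw [e0]
        exact h
      have h4 := DifferentiableAt.comp ((1 / 2 : ℝ) • v) h3 h2
      have e : (fun x => f ((1 / 2 : ℝ) • x)) ∘ (fun x : V m => (2 : ℝ) • x) = f := by
        funext x
        show f ((1 / 2 : ℝ) • (2 : ℝ) • x) = f x
        rw [smul_smul]
        norm_num
      rwa [e] at h4
    rw [fderiv_zero_of_not_differentiableAt hd, fderiv_zero_of_not_differentiableAt hd', smul_zero]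

theorem inverse_half (A : EV m) : Ring.inverse ((1 / 2 : ℝ) • A) = (2 : ℝ) • Ring.inverse A := by
  by_cases hA : IsUnit A
  · have h1 : IsUnit ((1 / 2 : ℝ) • A) := clx_isUnit_smul_ne hA (by norm_num)
    have h2 : ((2 : ℝ) • Ring.inverse A) * ((1 / 2 : ℝ) • A) = 1 := by
      rw [smul_mul_assoc, mul_smul_comm, smul_smul, Ring.inverse_mul_cancel A hA]
      norm_num
    calc Ring.inverse ((1 / 2 : ℝ) • A) = 1 * Ring.inverse ((1 / 2 : ℝ) • A) := (one_mul _).symm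
      _ = ((2 : ℝ) • Ring.inverse A) * ((1 / 2 : ℝ) • A) * Ring.inverse ((1 / 2 : ℝ) • A) := by
        rw [h2]
      _ = (2 : ℝ) • Ring.inverse A := by
        rw [mul_assoc, Ring.mul_inverse_cancel _ h1, mul_one]
  · have h1 : ¬ IsUnit ((1 / 2 : ℝ) • A) := by
      intro h
      apply hA
      have h2 := clx_isUnit_smul_ne h (r := 2) (by norm_num)
      rw [smul_smul] at h2
      norm_num at h2
      exact h2
    rw [Ring.inverse_non_unit _ hA, Ring.inverse_non_unit _ h1, smul_zero]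

theorem half_mem {v : V m} {r : ℝ} (h : ‖v‖ < r) : ‖(1 / 2 : ℝ) • v‖ < r / 2 := by
  rw [norm_smul, Real.norm_eq_abs, abs_of_pos (by norm_num : (0 : ℝ) < 1 / 2)]
  linarith

theorem imm_half {f : V m → V m} (hf : Imm (ball 0 1) f) {v : V m} (hv : ‖v‖ < 2) :
    DifferentiableAt ℝ f ((1 / 2 : ℝ) • v) ∧ IsUnit (fderiv ℝ f ((1 / 2 : ℝ) • v) : EV m) := by
  have h1 : (1 / 2 : ℝ) • v ∈ ball (0 : V m) 1 := by
    rw [mem_ball, dist_zero_right]
    have := half_mem hv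
    linarith
  obtain ⟨h2, h3⟩ := hf _ h1
  exact ⟨h2.differentiableAt (by simp), h3⟩

theorem norm_w0_lt : ‖w0 m‖ < 2 := lt_of_le_of_lt clx_norm_w0_le (by norm_num)

end ClsFactsAux

open ClsFactsAux

theorem cls_inner {f : V m → V m} {v : V m} (h : ‖v‖ ≤ 1 / 2) :
    cls f v = (w0 m - (2 : ℝ) • Ring.inverse (fderiv ℝ f ((1 / 2 : ℝ) • w0 m) : EV m)
      (f ((1 / 2 : ℝ) • w0 m))) +
      (2 : ℝ) • Ring.inverse (fderiv ℝ f ((1 / 2 : ℝ) • w0 m) : EV m) (f ((1 / 2 : ℝ) • v)) := by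
  unfold cls rep
  rw [core_inner _ h]
  unfold nrm
  rw [fderiv_half, inverse_half]
  have e : ∀ x : V m, (0 : V m) + (2 * (1 / 4 : ℝ)) • x = (1 / 2 : ℝ) • x := by
    intro x
    rw [zero_add]
    norm_num
  simp only [e]
  rw [map_sub]
  simp only [FunLike.coe_smul, Pi.smul_apply]
  abel

theorem fderiv_cls {f : V m → V m} (hm : 1 ≤ m) (hf : Imm (ball 0 1) f) {v : V m}
    (h : ‖v‖ < 1 / 2) : (fderiv ℝ (cls f) v : EV m) =
      Ring.inverse (fderiv ℝ f ((1 / 2 : ℝ) • w0 m) : EV m) * fderiv ℝ f ((1 / 2 : ℝ) • v) := by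
  have e : ∀ x : V m, (0 : V m) + (2 * (1 / 4 : ℝ)) • x = (1 / 2 : ℝ) • x := by
    intro x
    rw [zero_add]
    norm_num
  obtain ⟨h1, h2⟩ := imm_half hf (v := v) (by linarith)
  obtain ⟨h3, h4⟩ := imm_half hf (v := w0 m) norm_w0_lt
  have h5 := fderiv_rep_inner (f := f) (a := 0) (R := 1 / 4) (by norm_num) h
    (by rw [e]; exact h1) (by rw [e]; exact h3) (by rw [e]; exact h4)
  rw [e, e] at h5
  exact h5

theorem cls_dif (m : ℕ) (hm : 2 ≤ m) : ∃ δ₀ : ℝ, 0 < δ₀ ∧ ∀ (δ c E : ℝ) (f : V m → V m)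
    (μ : Measure (V m)), 0 ≤ δ → δ ≤ δ₀ → 0 < c → Loc δ c E f μ →
    Dif (cls f) ∧ ∀ v, 1 / 2 ≤ ‖v‖ → ‖(fderiv ℝ (cls f) v : EV m) - 1‖ ≤ 1 / 16 := by
  obtain ⟨δ₁, C, hδ₁, hC, hcd⟩ := core_dif m hm
  refine ⟨min (min (1 / 2000) (δ₁ / 2000)) (1 / (32000 * C)), by positivity,
    fun δ c E f μ h0 hδ hc h => ?_⟩
  have h1 : δ ≤ 1 / 2000 := hδ.trans ((min_le_left _ _).trans (min_le_left _ _))
  have h2 : 2000 * δ ≤ δ₁ := by
    have := hδ.trans ((min_le_left _ _).trans (min_le_right _ _))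
    linarith
  have h3 : C * (2000 * δ) ≤ 1 / 16 := by
    have h4 := hδ.trans (min_le_right _ _)
    rw [le_div_iff₀ (by positivity)] at h4
    linarith
  have := h.fin
  have hI : Imm (closedBall (0 : V m) (2 * (1 / 4 : ℝ))) f := by
    intro x hx
    refine h.ctrl.imm x ?_
    rw [mem_closedBall] at hx
    rw [mem_ball]
    linarith
  have hsub : closedBall (0 : V m) (9 / 4 * (1 / 4)) ⊆ ball 0 1 := by
    intro x hx
    rw [mem_closedBall] at hx
    rw [mem_ball]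
    linarith
  have hfl : Flat (2000 * δ) (ann (0 : V m) (1 / 4)) f := by
    refine ann_ctrl hm h0 h1 h.ctrl (by norm_num) hsub ?_
    refine le_trans (measureReal_mono ?_) (h.collar.trans (by linarith))
    intro x hx
    refine ⟨hsub hx.1, fun hx' => hx.2 ?_⟩
    rw [mem_closedBall] at hx'
    rw [mem_ball]
    linarith
  obtain ⟨h5, h6⟩ := hcd (fun v => f (0 + (2 * (1 / 4 : ℝ)) • v)) (2000 * δ) (by positivity) h2
    (imm_comp (by norm_num) hI) (flat_ann_comp (by norm_num) hI hfl)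
  exact ⟨h5, fun v hv => (h6 v hv).trans h3⟩

theorem rep_cls {f : V m → V m} (hm : 1 ≤ m) (hf : Imm (ball 0 1) f) {a : V m} {R : ℝ}
    (hR : 0 < R) (ha : 2 * ‖a‖ + 4 * R < 1 / 2) : rep (cls f) ((2 : ℝ) • a) (2 * R) = rep f a R := by
  obtain ⟨_, hu0⟩ := imm_half hf (v := w0 m) norm_w0_lt
  have hL : IsUnit ((2 : ℝ) • Ring.inverse (fderiv ℝ f ((1 / 2 : ℝ) • w0 m) : EV m)) :=
    clx_isUnit_smul_ne (isUnit_ringInverse.2 hu0) (by norm_num)
  have hn2 : ‖(2 : ℝ) • a‖ = 2 * ‖a‖ := by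
    rw [norm_smul, Real.norm_eq_abs, abs_of_pos (by norm_num)]
  have hp : ‖(2 : ℝ) • a + (2 * (2 * R)) • w0 m‖ < 2 := by
    have h1 : ‖(2 * (2 * R)) • w0 m‖ ≤ 2 * (2 * R) * 1 := by
      rw [norm_smul, Real.norm_eq_abs, abs_of_pos (by positivity)]
      exact mul_le_mul_of_nonneg_left (clx_norm_w0_le.trans (by norm_num)) (by positivity)
    have h2 := norm_add_le ((2 : ℝ) • a) ((2 * (2 * R)) • w0 m)
    linarith
  obtain ⟨hd, hu⟩ := imm_half hf hp
  have hc := clx_hasFDerivAt_comp (f := f) (a := 0) (s := 1 / 2)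
    (v := (2 : ℝ) • a + (2 * (2 * R)) • w0 m) (by rw [zero_add]; exact hd)
  have h1 : rep (cls f) ((2 : ℝ) • a) (2 * R) =
      rep (fun x => f (0 + (1 / 2 : ℝ) • x)) ((2 : ℝ) • a) (2 * R) := by
    refine rep_affine_congr hm (by positivity) hc.differentiableAt ?_ hL
      (w0 m - (2 : ℝ) • Ring.inverse (fderiv ℝ f ((1 / 2 : ℝ) • w0 m) : EV m)
        (f ((1 / 2 : ℝ) • w0 m))) ?_
    · rw [hc.fderiv, zero_add]
      exact clx_isUnit_smul_ne hu (by norm_num)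
    · intro x hx
      have h2 : ‖x‖ ≤ 1 / 2 := by
        have h3 : ‖x‖ ≤ ‖x - (2 : ℝ) • a‖ + ‖(2 : ℝ) • a‖ := by
          have := norm_add_le (x - (2 : ℝ) • a) ((2 : ℝ) • a)
          rwa [sub_add_cancel] at this
        linarith
      rw [cls_inner h2, zero_add]
      rfl
  rw [h1, rep_comp, zero_add, smul_smul]
  norm_num
  congr 1
  ring

theorem flat_cls {δ : ℝ} {f : V m → V m} (hm : 1 ≤ m) (hf : Imm (ball 0 1) f) {a : V m} {R : ℝ}
    (hR : 0 < R) (ha : 2 * ‖a‖ + 4 * R < 1 / 2) (h : Flat δ (ann a R) f) :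
    Flat δ (ann ((2 : ℝ) • a) (2 * R)) (cls f) := by
  obtain ⟨_, hu0⟩ := imm_half hf (v := w0 m) norm_w0_lt
  have hn2 : ‖(2 : ℝ) • a‖ = 2 * ‖a‖ := by
    rw [norm_smul, Real.norm_eq_abs, abs_of_pos (by norm_num)]
  have hin : ∀ x ∈ ann ((2 : ℝ) • a) (2 * R), ‖x‖ < 1 / 2 := by
    intro x hx
    have h3 : ‖x‖ ≤ ‖x - (2 : ℝ) • a‖ + ‖(2 : ℝ) • a‖ := by
      have := norm_add_le (x - (2 : ℝ) • a) ((2 : ℝ) • a)
      rwa [sub_add_cancel] at this
    have := hx.2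
    linarith
  have hhalf : ∀ x ∈ ann ((2 : ℝ) • a) (2 * R), (1 / 2 : ℝ) • x ∈ ann a R := by
    intro x hx
    have e : (1 / 2 : ℝ) • x - a = (1 / 2 : ℝ) • (x - (2 : ℝ) • a) := by
      rw [smul_sub, smul_smul]
      norm_num
    have e2 : ‖(1 / 2 : ℝ) • x - a‖ = 1 / 2 * ‖x - (2 : ℝ) • a‖ := by
      rw [e, norm_smul, Real.norm_eq_abs, abs_of_pos (by norm_num)]
    obtain ⟨h1, h2⟩ := hx
    constructor
    · show R ≤ ‖(1 / 2 : ℝ) • x - a‖
      rw [e2]; linarith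
    · show ‖(1 / 2 : ℝ) • x - a‖ ≤ 2 * R
      rw [e2]; linarith
  intro x hx y hy
  rw [fderiv_cls hm hf (hin x hx), fderiv_cls hm hf (hin y hy),
    inv_mul_left (isUnit_ringInverse.2 hu0) (imm_half hf (by linarith [hin x hx])).2]
  exact h _ (hhalf x hx) _ (hhalf y hy)

end Pool.Agent.Lib.P28f
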