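import Pool.Agent.Lib.P28f.Defs

set_option autoImplicit false

/-!
# `Iso` is an equivalence relation on `Dif`; straight lines

PROOF SKETCH. `of_Icc`: `K' (t, x) = K (Real.smoothTransition t, x)`; `smoothTransition` is smooth, has values in `[0, 1]`, is `0` for
`t ≤ 0` and `1` for `1 ≤ t`. `symm`: `K (1 - t, x)`. `trans`: `K'' (t, x) = K (smoothTransition (3 t), x)` for `t < 1/2` and
`K' (smoothTransition (3 t - 2), x)` for `t ≥ 1/2`; for `1/3 < t < 2/3` both formulas give `K (1, x) = h' x = K' (0, x)`, so the union is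
smooth (near any point one of the two formulas holds for all `t` in a neighbourhood). `straight`: `of_Icc` with
`K (t, x) = (1 - t) • f x + t • g x`; its partial derivative in `x` is `(1 - t) • fderiv f x + t • fderiv g x`. For `‖x‖ ≥ 3/4` both maps are the identity.
-/

open MeasureTheory Set Metric
open scoped ContDiff Topology

namespace Pool.Agent.Lib.P28f

variable {m : ℕ}

private lemma reparam {K : ℝ × V m → V m} {σ : ℝ → ℝ} (hσ : ContDiff ℝ ∞ σ) {p : ℝ × V m}
    (hK : ContDiffAt ℝ ∞ K (σ p.1, p.2)) : ContDiffAt ℝ ∞ (fun q : ℝ × V m => K (σ q.1, q.2)) p := by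
  have h : ContDiff ℝ ∞ (fun q : ℝ × V m => (σ q.1, q.2)) :=
    (hσ.comp contDiff_fst).prodMk contDiff_snd
  exact ContDiffAt.comp p (g := K) hK h.contDiffAt

private lemma st_smooth : ContDiff ℝ ∞ Real.smoothTransition := Real.smoothTransition.contDiff

private lemma st_mem (t : ℝ) : Real.smoothTransition t ∈ Icc (0 : ℝ) 1 :=
  ⟨Real.smoothTransition.nonneg t, Real.smoothTransition.le_one t⟩

theorem Iso.of_Icc {K : ℝ × V m → V m}
    (hK : ∀ t ∈ Icc (0 : ℝ) 1, ∀ x, ContDiffAt ℝ ∞ K (t, x))
    (hD : ∀ t ∈ Icc (0 : ℝ) 1, Dif fun x => K (t, x)) :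
    Iso (fun x => K (0, x)) (fun x => K (1, x)) := by
  refine ⟨fun p => K (Real.smoothTransition p.1, p.2), ?_, ?_, ?_, ?_⟩
  · rw [contDiff_iff_contDiffAt]
    intro p
    exact reparam st_smooth (hK _ (st_mem _) _)
  · intro t
    exact hD _ (st_mem t)
  · intro x
    show K (Real.smoothTransition 0, x) = K (0, x)
    rw [Real.smoothTransition.zero]
  · intro x
    show K (Real.smoothTransition 1, x) = K (1, x)
    rw [Real.smoothTransition.one]

theorem Iso.refl {f : V m → V m} (h : Dif f) : Iso f f :=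
  ⟨fun p => f p.2, h.smooth.comp contDiff_snd, fun _ => h, fun _ => rfl, fun _ => rfl⟩

theorem Iso.symm {f g : V m → V m} (h : Iso f g) : Iso g f := by
  obtain ⟨K, h1, h2, h3, h4⟩ := h
  refine ⟨fun p => K (1 - p.1, p.2), ?_, fun t => h2 (1 - t), ?_, ?_⟩
  · exact h1.comp ((contDiff_const.sub contDiff_fst).prodMk contDiff_snd)
  · intro x
    show K (1 - 0, x) = g x
    rw [sub_zero, h4]
  · intro x
    show K (1 - 1, x) = f x
    rw [sub_self, h3]

theorem Iso.trans {f g k : V m → V m} (h : Iso f g) (h' : Iso g k) : Iso f k := by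
  classical
  obtain ⟨K, h1, h2, h3, h4⟩ := h
  obtain ⟨K', h1', h2', h3', h4'⟩ := h'
  let G1 : ℝ × V m → V m := fun p => K (Real.smoothTransition (3 * p.1), p.2)
  let G2 : ℝ × V m → V m := fun p => K' (Real.smoothTransition (3 * p.1 - 2), p.2)
  have hG1 : ContDiff ℝ ∞ G1 :=
    h1.comp ((st_smooth.comp (contDiff_const.mul contDiff_fst)).prodMk contDiff_snd)
  have hG2 : ContDiff ℝ ∞ G2 :=
    h1'.comp ((st_smooth.comp ((contDiff_const.mul contDiff_fst).sub contDiff_const)).prodMk
      contDiff_snd)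
  have hmid : ∀ p : ℝ × V m, 1 / 2 ≤ p.1 → p.1 < 2 / 3 → G2 p = G1 p := by
    intro p hp1 hp2
    show K' (Real.smoothTransition (3 * p.1 - 2), p.2) = K (Real.smoothTransition (3 * p.1), p.2)
    rw [Real.smoothTransition.zero_of_nonpos (by linarith),
      Real.smoothTransition.one_of_one_le (by linarith), h3', h4]
  let H : ℝ × V m → V m := fun p => if p.1 < 1 / 2 then G1 p else G2 p
  refine ⟨H, ?_, ?_, ?_, ?_⟩
  · rw [contDiff_iff_contDiffAt]
    intro p
    by_cases hp : p.1 < 2 / 3
    · refine hG1.contDiffAt.congr_of_eventuallyEq ?_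
      have hopen : IsOpen {q : ℝ × V m | q.1 < 2 / 3} := isOpen_lt continuous_fst continuous_const
      filter_upwards [hopen.mem_nhds hp] with q hq
      by_cases hq' : q.1 < 1 / 2
      · simp only [H, if_pos hq']
      · simp only [H, if_neg hq']
        exact hmid q (not_lt.mp hq') hq
    · refine hG2.contDiffAt.congr_of_eventuallyEq ?_
      have hopen : IsOpen {q : ℝ × V m | 1 / 2 < q.1} := isOpen_lt continuous_const continuous_fst
      have hp' : p ∈ {q : ℝ × V m | 1 / 2 < q.1} := by
        show 1 / 2 < p.1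
        linarith [not_lt.mp hp]
      filter_upwards [hopen.mem_nhds hp'] with q hq
      have hq' : ¬ q.1 < 1 / 2 := not_lt.mpr (le_of_lt hq)
      simp only [H, if_neg hq']
  · intro t
    by_cases ht : t < 1 / 2
    · have e : (fun x => H (t, x)) = fun x => K (Real.smoothTransition (3 * t), x) := by
        funext x
        simp only [H, G1, if_pos ht]
      rw [e]
      exact h2 _
    · have e : (fun x => H (t, x)) = fun x => K' (Real.smoothTransition (3 * t - 2), x) := by
        funext x
        simp only [H, G2, if_neg ht]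
      rw [e]
      exact h2' _
  · intro x
    have h0 : (0 : ℝ) < 1 / 2 := by norm_num
    simp only [H, G1, if_pos h0]
    rw [mul_zero, Real.smoothTransition.zero, h3]
  · intro x
    have h0 : ¬ (1 : ℝ) < 1 / 2 := by norm_num
    simp only [H, G2, if_neg h0]
    rw [Real.smoothTransition.one_of_one_le (by norm_num), h4']

theorem Iso.left {f g : V m → V m} (h : Iso f g) : Dif f := by
  obtain ⟨K, _, h2, h3, _⟩ := h
  have e : (fun x => K (0, x)) = f := funext h3
  rw [← e]
  exact h2 0

theorem Iso.right {f g : V m → V m} (h : Iso f g) : Dif g := by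
  obtain ⟨K, _, h2, _, h4⟩ := h
  have e : (fun x => K (1, x)) = g := funext h4
  rw [← e]
  exact h2 1

theorem Iso.straight {f g : V m → V m} (hf : Dif f) (hg : Dif g)
    (hu : ∀ t ∈ Icc (0 : ℝ) 1, ∀ x,
      IsUnit ((1 - t) • (fderiv ℝ f x : EV m) + t • fderiv ℝ g x)) : Iso f g := by
  have h := Iso.of_Icc (m := m) (K := fun p : ℝ × V m => (1 - p.1) • f p.2 + p.1 • g p.2) ?_ ?_
  · have e1 : (fun x : V m => (1 - (0 : ℝ)) • f x + (0 : ℝ) • g x) = f := by
      funext x
      simp
    have e2 : (fun x : V m => (1 - (1 : ℝ)) • f x + (1 : ℝ) • g x) = g := by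
      funext x
      simp
    have h' : Iso (fun x : V m => (1 - (0 : ℝ)) • f x + (0 : ℝ) • g x)
        (fun x : V m => (1 - (1 : ℝ)) • f x + (1 : ℝ) • g x) := h
    rw [e1, e2] at h'
    exact h'
  · intro t _ x
    have h1 : ContDiff ℝ ∞ (fun p : ℝ × V m => (1 - p.1) • f p.2 + p.1 • g p.2) :=
      ((contDiff_const.sub contDiff_fst).smul (hf.smooth.comp contDiff_snd)).add
        (contDiff_fst.smul (hg.smooth.comp contDiff_snd))
    exact h1.contDiffAt
  · intro t ht
    refine ⟨?_, ?_, ?_⟩
    · have s1 : ContDiff ℝ ∞ (fun x : V m => (1 - t) • f x) := hf.smooth.const_smul (1 - t)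
      have s2 : ContDiff ℝ ∞ (fun x : V m => t • g x) := hg.smooth.const_smul t
      exact s1.add s2
    · intro x
      have d1 : DifferentiableAt ℝ f x := hf.smooth.differentiable (by simp) x
      have d2 : DifferentiableAt ℝ g x := hg.smooth.differentiable (by simp) x
      have h3 : HasFDerivAt (fun x => (1 - t) • f x + t • g x)
          ((1 - t) • (fderiv ℝ f x : EV m) + t • fderiv ℝ g x) x :=
        (d1.hasFDerivAt.const_smul (1 - t)).add (d2.hasFDerivAt.const_smul t)
      show IsUnit (fderiv ℝ (fun x => (1 - t) • f x + t • g x) x : EV m)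
      rw [h3.fderiv]
      exact hu t ht x
    · intro x hx
      show (1 - t) • f x + t • g x = x
      rw [hf.supp x hx, hg.supp x hx, ← add_smul]
      simp

end Pool.Agent.Lib.P28f
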