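import Pool.Agent.Lib.P28f.Defs

set_option autoImplicit false

/-!
# Elementary estimates in the Banach algebra `EV m`: elements near `1`

PROOF SKETCH. `‖1‖ ≤ 1` (`ContinuousLinearMap.norm_id_le`). `isUnit_of_near`: `a = 1 - (1 - a)`, Neumann series
(`Units.oneSub`, or `isUnit_one_sub_of_norm_lt_one` style lemmas of Mathlib). `near_mul`: `a b - 1 = (a-1) + (b-1) + (a-1)(b-1)`.
`near_inv`: `a⁻¹ - 1 = a⁻¹ (1 - a)`, so `‖a⁻¹ - 1‖ ≤ (1 + ‖a⁻¹ - 1‖) α`. `isUnit_seg`: `(1-t) a + t b = a (1 + t (a⁻¹ b - 1))`.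
The others are algebra with `Ring.mul_inverse_cancel`, `Ring.inverse_mul_cancel`, `Ring.inverse_unit`.
-/

open MeasureTheory Set Metric
open scoped ContDiff Topology

namespace Pool.Agent.Lib.P28f

variable {m : ℕ}

theorem norm_one_le' : ‖(1 : EV m)‖ ≤ 1 := ContinuousLinearMap.norm_id_le

theorem isUnit_of_near {a : EV m} (h : ‖a - 1‖ < 1) : IsUnit a := by
  have h1 : ‖1 - a‖ < 1 := by rwa [norm_sub_rev]
  have h2 := isUnit_one_sub_of_norm_lt_one h1
  rwa [sub_sub_cancel] at h2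

theorem near_mul {a b : EV m} {α β : ℝ} (ha : ‖a - 1‖ ≤ α) (hb : ‖b - 1‖ ≤ β) :
    ‖a * b - 1‖ ≤ α + β + α * β := by
  have e : a * b - 1 = (a - 1) + (b - 1) + (a - 1) * (b - 1) := by
    rw [sub_mul, mul_sub, mul_sub, mul_one, one_mul, mul_one]; abel
  have hα : 0 ≤ α := (norm_nonneg _).trans ha
  rw [e]
  calc ‖(a - 1) + (b - 1) + (a - 1) * (b - 1)‖ ≤ ‖(a - 1) + (b - 1)‖ + ‖(a - 1) * (b - 1)‖ :=
        norm_add_le _ _
    _ ≤ (‖a - 1‖ + ‖b - 1‖) + ‖a - 1‖ * ‖b - 1‖ := add_le_add (norm_add_le _ _) (norm_mul_le _ _)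
    _ ≤ α + β + α * β := add_le_add (add_le_add ha hb) (mul_le_mul ha hb (norm_nonneg _) hα)

theorem near_inv {a : EV m} {α : ℝ} (ha : ‖a - 1‖ ≤ α) (h1 : α < 1) :
    ‖Ring.inverse a - 1‖ ≤ α / (1 - α) := by
  have hu : IsUnit a := isUnit_of_near (lt_of_le_of_lt ha h1)
  have hα : 0 ≤ α := (norm_nonneg _).trans ha
  have e : Ring.inverse a - 1 = Ring.inverse a * (1 - a) := by
    rw [mul_sub, mul_one, Ring.inverse_mul_cancel a hu]
  have h2 : ‖Ring.inverse a‖ ≤ ‖Ring.inverse a - 1‖ + 1 := by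
    calc ‖Ring.inverse a‖ = ‖(Ring.inverse a - 1) + 1‖ := by rw [sub_add_cancel]
      _ ≤ ‖Ring.inverse a - 1‖ + ‖(1 : EV m)‖ := norm_add_le _ _
      _ ≤ _ := add_le_add le_rfl norm_one_le'
  have h3 : ‖Ring.inverse a - 1‖ ≤ (‖Ring.inverse a - 1‖ + 1) * α := by
    calc ‖Ring.inverse a - 1‖ = ‖Ring.inverse a * (1 - a)‖ := by rw [← e]
      _ ≤ ‖Ring.inverse a‖ * ‖1 - a‖ := norm_mul_le _ _
      _ ≤ (‖Ring.inverse a - 1‖ + 1) * α := by
          apply mul_le_mul h2 _ (norm_nonneg _) (by positivity)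
          rw [norm_sub_rev]; exact ha
  rw [le_div_iff₀ (by linarith)]
  nlinarith

theorem inv_mul_chain {x y z : EV m} (hy : IsUnit y) :
    Ring.inverse x * z = (Ring.inverse x * y) * (Ring.inverse y * z) := by
  rw [mul_assoc, ← mul_assoc y, Ring.mul_inverse_cancel y hy, one_mul]

theorem inv_mul_swap {x y : EV m} (hx : IsUnit x) (hy : IsUnit y) :
    Ring.inverse (Ring.inverse x * y) = Ring.inverse y * x := by
  obtain ⟨u, rfl⟩ := hx
  obtain ⟨w, rfl⟩ := hy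
  rw [Ring.inverse_unit, Ring.inverse_unit, ← Units.val_mul, Ring.inverse_unit, mul_inv_rev,
    inv_inv, Units.val_mul]

theorem near_chain {x y z : EV m} {α β : ℝ} (hy : IsUnit y) (h1 : ‖Ring.inverse x * y - 1‖ ≤ α)
    (h2 : ‖Ring.inverse y * z - 1‖ ≤ β) : ‖Ring.inverse x * z - 1‖ ≤ α + β + α * β := by
  rw [inv_mul_chain hy]
  exact near_mul h1 h2

theorem near_swap {x y : EV m} {α : ℝ} (hx : IsUnit x) (hy : IsUnit y)
    (h : ‖Ring.inverse x * y - 1‖ ≤ α) (h1 : α < 1) :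
    ‖Ring.inverse y * x - 1‖ ≤ α / (1 - α) := by
  rw [← inv_mul_swap hx hy]
  exact near_inv h h1

theorem isUnit_of_near' {x y : EV m} (hx : IsUnit x) (h : ‖Ring.inverse x * y - 1‖ < 1) :
    IsUnit y := by
  have h1 := hx.mul (isUnit_of_near h)
  rwa [← mul_assoc, Ring.mul_inverse_cancel x hx, one_mul] at h1

theorem isUnit_seg {a b : EV m} (ha : IsUnit a) (h : ‖Ring.inverse a * b - 1‖ < 1) {t : ℝ}
    (ht : t ∈ Icc (0 : ℝ) 1) : IsUnit ((1 - t) • a + t • b) := by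
  apply isUnit_of_near' ha
  have e : Ring.inverse a * ((1 - t) • a + t • b) - 1 = t • (Ring.inverse a * b - 1) := by
    rw [mul_add, mul_smul_comm, mul_smul_comm, Ring.inverse_mul_cancel a ha]
    module
  rw [e, norm_smul, Real.norm_eq_abs, abs_of_nonneg ht.1]
  calc t * ‖Ring.inverse a * b - 1‖ ≤ 1 * ‖Ring.inverse a * b - 1‖ :=
        mul_le_mul_of_nonneg_right ht.2 (norm_nonneg _)
    _ < 1 := by rwa [one_mul]

/-- Invariance of `Ring.inverse x * y` under multiplication from the left. -/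
theorem inv_mul_left {L x y : EV m} (hL : IsUnit L) (hx : IsUnit x) :
    Ring.inverse (L * x) * (L * y) = Ring.inverse x * y := by
  obtain ⟨u, rfl⟩ := hL
  obtain ⟨w, rfl⟩ := hx
  rw [← Units.val_mul, Ring.inverse_unit, Ring.inverse_unit, mul_inv_rev, Units.val_mul, mul_assoc,
    ← mul_assoc ((u⁻¹ : (EV m)ˣ) : EV m), Units.inv_mul, one_mul]

theorem inv_mul_smul {x y : EV m} {r : ℝ} (hr : r ≠ 0) (hx : IsUnit x) :
    Ring.inverse (r • x) * (r • y) = Ring.inverse x * y := by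
  have h1 : IsUnit (algebraMap ℝ (EV m) r) := (IsUnit.mk0 r hr).map (algebraMap ℝ (EV m))
  rw [Algebra.smul_def r x, Algebra.smul_def r y]
  exact inv_mul_left h1 hx

end Pool.Agent.Lib.P28f
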