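import Pool.Agent.Lib.P28f.InsIso
import Pool.Agent.Lib.P28f.RingNear
import Pool.Agent.Lib.P28f.IsoRel
import Pool.Agent.Lib.P28f.CoreLin

set_option autoImplicit false

/-!
# The comparison theorem

PROOF SKETCH. `δ₀` = minimum of the constants of `ins_iso` and `core_dif`. Induction on `S` (`Finset.induction_on`), for all `H`, `G`. `S = ∅`: `Iso.straight`. `insert a S`: `k = rep G a (R a)`,
`H' = ins H a (R a) k` (`Iso (rep H) k` is given), `G' = ins G a (R a) k` (`Iso.refl`, `Dif k` from `Iso.right`). `ins_iso` gives `Iso H H'`, `Iso G G'`. Apply the induction hypothesis to `H'`, `G'`, `S`: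
for `b ∈ S` the maps are unchanged near `closedBall b (2 R b)` (since `2 R a + 2 R b < ‖a - b‖`), so `Flat`, `rep` (`rep_congr`), and the derivative at the base point are unchanged.
Derivative condition at `x` with `R b ≤ ‖x - b‖` for all `b ∈ S`: if `‖x - a‖ < 3/2 R a` it is `((1 - t) L_H + t L_G) * dk`, a unit by `isUnit_seg` (hypothesis `1/4`);
if `3/2 R ≤ ‖x - a‖ ≤ 2 R`, both derivatives are near `L_H`: `‖L_H⁻¹ dH' - 1‖ ≤ 1/8`, `‖L_H⁻¹ dG' - 1‖ ≤ 1/4 + 1/8 + 1/32` (`near_chain`), so `L_H⁻¹ ((1 - t) dH' + t dG')` is within `1/2` of `1`;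
if `‖x - a‖ > 2 R a` nothing changed near `x` and the hypothesis for `insert a S` applies.
-/

open MeasureTheory Set Metric
open scoped ContDiff Topology

namespace Pool.Agent.Lib.P28f

variable {m : ℕ}

namespace CompareAux

lemma ev_eq {H H' : V m → V m} {a : V m} {r : ℝ} (h : ∀ x, r ≤ ‖x - a‖ → H' x = H x) {x : V m}
    (hx : r < ‖x - a‖) : H' =ᶠ[𝓝 x] H := by
  have ho : IsOpen {y : V m | r < ‖y - a‖} :=
    isOpen_lt continuous_const (continuous_norm.comp (continuous_id.sub continuous_const))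
  filter_upwards [ho.mem_nhds hx] with y hy
  exact h y (le_of_lt hy)

lemma fd_eq {H H' : V m → V m} {a : V m} {r : ℝ} (h : ∀ x, r ≤ ‖x - a‖ → H' x = H x) {x : V m}
    (hx : r < ‖x - a‖) : fderiv ℝ H' x = fderiv ℝ H x := (ev_eq h hx).fderiv_eq

lemma flat_congr {H H' : V m → V m} {a : V m} {r δ : ℝ} (h : ∀ x, r ≤ ‖x - a‖ → H' x = H x)
    {S : Set (V m)} (hS : ∀ x ∈ S, r < ‖x - a‖) (hf : Flat δ S H) : Flat δ S H' := by
  intro x hx y hy
  rw [fd_eq h (hS x hx), fd_eq h (hS y hy)]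
  exact hf x hx y hy

lemma far {a b x : V m} {Ra Rb : ℝ} (hRa : 0 < Ra) (h : 2 * Ra + 2 * Rb < ‖a - b‖)
    (hx : ‖x - b‖ ≤ 2 * Rb) : 7 / 4 * Ra < ‖x - a‖ := by
  have h1 : ‖a - b‖ ≤ ‖x - a‖ + ‖x - b‖ := by
    have : a - b = -(x - a) + (x - b) := by abel
    rw [this]
    refine (norm_add_le _ _).trans ?_
    rw [norm_neg]
  linarith

/-- Convex combinations of elements near `L` are units. -/
lemma unit_mid {L A B : EV m} {α t : ℝ} (hL : IsUnit L) (hα : α < 1)
    (hA : ‖Ring.inverse L * A - 1‖ ≤ α) (hB : ‖Ring.inverse L * B - 1‖ ≤ α)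
    (ht : t ∈ Icc (0 : ℝ) 1) : IsUnit ((1 - t) • A + t • B) := by
  refine isUnit_of_near' hL (lt_of_le_of_lt ?_ hα)
  have h1 : Ring.inverse L * ((1 - t) • A + t • B) - 1 =
      (1 - t) • (Ring.inverse L * A - 1) + t • (Ring.inverse L * B - 1) := by
    rw [mul_add, mul_smul_comm, mul_smul_comm, smul_sub, smul_sub, sub_smul (1 : ℝ) t (1 : EV m),
      one_smul]
    abel
  rw [h1]
  refine (norm_add_le _ _).trans ?_
  rw [norm_smul, norm_smul, Real.norm_of_nonneg (by linarith [ht.2]), Real.norm_of_nonneg ht.1]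
  have h2 : (1 - t) * ‖Ring.inverse L * A - 1‖ ≤ (1 - t) * α :=
    mul_le_mul_of_nonneg_left hA (by linarith [ht.2])
  have h3 : t * ‖Ring.inverse L * B - 1‖ ≤ t * α := mul_le_mul_of_nonneg_left hB ht.1
  linarith

end CompareAux

open CompareAux

theorem compare (m : ℕ) (hm : 2 ≤ m) : ∃ δ₀ : ℝ, 0 < δ₀ ∧
    ∀ (S : Finset (V m)) (R : V m → ℝ) (H G : V m → V m), Dif H → Dif G →
    (∀ a ∈ S, 0 < R a ∧ ‖a‖ + 2 * R a ≤ 3 / 4) →
    (∀ a ∈ S, ∀ b ∈ S, a ≠ b → 2 * R a + 2 * R b < ‖a - b‖) →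
    (∀ a ∈ S, Flat δ₀ (ann a (R a)) H ∧ Flat δ₀ (ann a (R a)) G ∧
      Iso (rep H a (R a)) (rep G a (R a)) ∧
      ‖Ring.inverse (fderiv ℝ H (a + (2 * R a) • w0 m) : EV m) *
        fderiv ℝ G (a + (2 * R a) • w0 m) - 1‖ ≤ 1 / 4) →
    (∀ x, (∀ a ∈ S, R a ≤ ‖x - a‖) → ∀ t ∈ Icc (0 : ℝ) 1,
      IsUnit ((1 - t) • (fderiv ℝ H x : EV m) + t • fderiv ℝ G x)) →
    Iso H G := by
  classical
  obtain ⟨δ₀, hδ₀, hins⟩ := ins_iso m hm
  refine ⟨δ₀, hδ₀, ?_⟩
  intro S R
  induction S using Finset.induction_on with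
  | empty =>
    intro H G hH hG _ _ _ h4
    exact Iso.straight hH hG fun t ht x => h4 x (by simp) t ht
  | insert a S ha ih =>
    intro H G hH hG h1 h2 h3 h4
    have haS : a ∈ insert a S := Finset.mem_insert_self a S
    have hbS : ∀ b ∈ S, b ∈ insert a S := fun b hb => Finset.mem_insert_of_mem hb
    obtain ⟨hRa, hsm⟩ := h1 a haS
    obtain ⟨fH, fG, hk, hLL⟩ := h3 a haS
    have hdk : Dif (rep G a (R a)) := hk.right
    obtain ⟨iH, oH, eH, nH⟩ := hins H a (R a) (rep G a (R a)) hH hRa hsm fH hk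
    obtain ⟨iG, oG, eG, nG⟩ := hins G a (R a) (rep G a (R a)) hG hRa hsm fG (Iso.refl hdk)
    set k := rep G a (R a) with hkdef
    set H' := ins H a (R a) k with hH'
    set G' := ins G a (R a) k with hG'
    have hLH : IsUnit (fderiv ℝ H (a + (2 * R a) • w0 m) : EV m) := hH.unit _
    have hLG : IsUnit (fderiv ℝ G (a + (2 * R a) • w0 m) : EV m) := hG.unit _
    have hsep : ∀ b ∈ S, 2 * R a + 2 * R b < ‖a - b‖ := fun b hb =>
      h2 a haS b (hbS b hb) (fun h => ha (h ▸ hb))
    have hfar : ∀ b ∈ S, ∀ x, ‖x - b‖ ≤ 2 * R b → 7 / 4 * R a < ‖x - a‖ :=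
      fun b hb x hx => far hRa (hsep b hb) hx
    have key : Iso H' G' := by
      refine ih H' G' iH.right iG.right (fun b hb => h1 b (hbS b hb))
        (fun b hb c hc => h2 b (hbS b hb) c (hbS c hc)) ?_ ?_
      · intro b hb
        obtain ⟨fHb, fGb, hkb, hLLb⟩ := h3 b (hbS b hb)
        have hRb := (h1 b (hbS b hb)).1
        have e1 : rep H' b (R b) = rep H b (R b) :=
          rep_congr hRb fun x hx => oH x (hfar b hb x hx.le).le
        have e2 : rep G' b (R b) = rep G b (R b) :=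
          rep_congr hRb fun x hx => oG x (hfar b hb x hx.le).le
        have hbase : 7 / 4 * R a < ‖(b + (2 * R b) • w0 m) - a‖ := by
          apply hfar b hb
          rw [add_sub_cancel_left, norm_smul, norm_w0 (by omega),
            Real.norm_of_nonneg (by linarith)]
          linarith
        refine ⟨flat_congr oH (fun x hx => hfar b hb x hx.2) fHb,
          flat_congr oG (fun x hx => hfar b hb x hx.2) fGb, ?_, ?_⟩
        · rw [e1, e2]
          exact hkb
        · rw [fd_eq oH hbase, fd_eq oG hbase]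
          exact hLLb
      · intro x hx t ht
        rcases lt_or_ge ‖x - a‖ (3 / 2 * R a) with hc | hc
        · rw [eH x hc, eG x hc]
          have h5 : (1 - t) • ((fderiv ℝ H (a + (2 * R a) • w0 m) : EV m) *
              fderiv ℝ k ((2 * R a)⁻¹ • (x - a))) + t • ((fderiv ℝ G (a + (2 * R a) • w0 m) : EV m) *
              fderiv ℝ k ((2 * R a)⁻¹ • (x - a))) =
              ((1 - t) • (fderiv ℝ H (a + (2 * R a) • w0 m) : EV m) +
                t • fderiv ℝ G (a + (2 * R a) • w0 m)) * fderiv ℝ k ((2 * R a)⁻¹ • (x - a)) := by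
            rw [add_mul, smul_mul_assoc, smul_mul_assoc]
          rw [h5]
          exact (isUnit_seg hLH (lt_of_le_of_lt hLL (by norm_num)) ht).mul (hdk.unit _)
        · rcases le_or_gt ‖x - a‖ (2 * R a) with hc2 | hc2
          · have h6 := nH x hc hc2
            have h7 := near_chain hLG hLL (nG x hc hc2)
            exact unit_mid (α := 1 / 2) hLH (by norm_num) (h6.trans (by norm_num))
              (h7.trans (by norm_num)) ht
          · have h8 : 7 / 4 * R a < ‖x - a‖ := by linarith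
            rw [fd_eq oH h8, fd_eq oG h8]
            refine h4 x ?_ t ht
            intro b hb
            rcases Finset.mem_insert.1 hb with rfl | hb
            · linarith
            · exact hx b hb
    exact iH.trans (key.trans iG.symm)

end Pool.Agent.Lib.P28f
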