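import Pool.Agent.Lib.P28f.Defs

set_option autoImplicit false

/-!
# The unit ball minus a finite set is connected in dimension at least two

PROOF SKETCH. `Set.Countable.isPathConnected_compl_of_one_lt_rank` (in `Mathlib.Analysis.NormedSpace.Connected`) in `V m` (rank `m ≥ 2`) transported by the homeomorphism
`Homeomorph.unitBall : V m ≃ₜ ball 0 1`: `ball 0 1 \ F` is the image of the complement of a finite set under the continuous map `x ↦ (Homeomorph.unitBall x : V m)`.
-/

open MeasureTheory Set Metric
open scoped ContDiff Topology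

namespace Pool.Agent.Lib.P28f

variable {m : ℕ}

theorem isPreconnected_ball_diff (hm : 2 ≤ m) {F : Set (V m)} (hF : F.Finite) :
    IsPreconnected (ball (0 : V m) 1 \ F) := by
  have hφ : Continuous fun x : V m => ((Homeomorph.unitBall x : ball (0 : V m) 1) : V m) :=
    continuous_subtype_val.comp Homeomorph.unitBall.continuous
  have hinj : Function.Injective fun x : V m =>
      ((Homeomorph.unitBall x : ball (0 : V m) 1) : V m) :=
    Subtype.val_injective.comp Homeomorph.unitBall.injective
  have hrank : 1 < Module.rank ℝ (V m) := by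
    rw [rank_fin_fun]
    exact_mod_cast hm
  have h1 : ((fun x : V m => ((Homeomorph.unitBall x : ball (0 : V m) 1) : V m)) ⁻¹' F).Finite :=
    hF.preimage hinj.injOn
  have h2 := (h1.countable.isPathConnected_compl_of_one_lt_rank hrank).isConnected.isPreconnected
  have h3 : ball (0 : V m) 1 \ F =
      (fun x : V m => ((Homeomorph.unitBall x : ball (0 : V m) 1) : V m)) ''
        ((fun x : V m => ((Homeomorph.unitBall x : ball (0 : V m) 1) : V m)) ⁻¹' F)ᶜ := by
    ext y
    constructor
    · rintro ⟨hy, hyF⟩
      refine ⟨Homeomorph.unitBall.symm ⟨y, hy⟩, ?_, ?_⟩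
      · rw [mem_compl_iff, mem_preimage, Homeomorph.apply_symm_apply]
        exact hyF
      · show ((Homeomorph.unitBall (Homeomorph.unitBall.symm ⟨y, hy⟩) : ball (0 : V m) 1) : V m) = y
        rw [Homeomorph.apply_symm_apply]
    · rintro ⟨x, hx, rfl⟩
      exact ⟨(Homeomorph.unitBall x).2, hx⟩
  rw [h3]
  exact h2.image _ hφ.continuousOn

end Pool.Agent.Lib.P28f
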