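import Pool.Agent.Lib.P28f.CoreLin

set_option autoImplicit false

/-!
# Rescaling controlled maps

PROOF SKETCH. `x ↦ s⁻¹ • (x - a)` is a homeomorphism (measurable equivalence) with inverse `v ↦ a + s • v`; so `(pull a s μ) S = μ {x | s⁻¹ • (x - a) ∈ S}` for every set `S`.
The preimage of `closedBall z r` is `closedBall (a + s • z) (s * r)` etc. `ctrl_pull`: if `closedBall z r ⊆ ball 0 1` then `closedBall (a + s z) (s r) ⊆ ball a s ⊆ U`; flatness of
`f` on `closedBall (a + s z) (s r / 8)` gives flatness of `v ↦ f (a + s v)` on `closedBall z (r/8)` (`flat_comp`; the derivative is `s • fderiv f`). `loc_sub` collects everything.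
-/

open MeasureTheory Set Metric
open scoped ContDiff Topology

namespace Pool.Agent.Lib.P28f

variable {m : ℕ}

private lemma pull_apply' {a : V m} {s : ℝ} (hs : 0 < s) (μ : Measure (V m)) (S : Set (V m)) :
    pull a s μ S = μ {x | s⁻¹ • (x - a) ∈ S} := by
  let e : V m ≃ₜ V m := (Homeomorph.subRight a).trans (Homeomorph.smulOfNeZero s⁻¹ (inv_ne_zero hs.ne'))
  have h : pull a s μ = μ.map e.toMeasurableEquiv := rfl
  rw [h, MeasurableEquiv.map_apply]
  rfl

theorem pull_real {a : V m} {s : ℝ} (hs : 0 < s) (μ : Measure (V m)) (S : Set (V m)) :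
    (pull a s μ).real S = μ.real {x | s⁻¹ • (x - a) ∈ S} := by
  rw [measureReal_def, measureReal_def, pull_apply' hs]

private lemma norm_scale {a x z : V m} {s : ℝ} (hs : 0 < s) :
    ‖x - (a + s • z)‖ = s * ‖s⁻¹ • (x - a) - z‖ := by
  have h : x - (a + s • z) = s • (s⁻¹ • (x - a) - z) := by
    rw [smul_sub, smul_smul, mul_inv_cancel₀ hs.ne', one_smul]
    abel
  rw [h, norm_smul, Real.norm_of_nonneg hs.le]

private lemma pre_closedBall {a : V m} {s : ℝ} (hs : 0 < s) (z : V m) (r : ℝ) :
    {x | s⁻¹ • (x - a) ∈ closedBall z r} = closedBall (a + s • z) (s * r) := by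
  ext x
  rw [mem_setOf_eq, mem_closedBall, mem_closedBall, dist_eq_norm, dist_eq_norm, norm_scale hs]
  exact ⟨fun h => mul_le_mul_of_nonneg_left h hs.le, fun h => le_of_mul_le_mul_left h hs⟩

private lemma pre_ball {a : V m} {s : ℝ} (hs : 0 < s) (z : V m) (r : ℝ) :
    {x | s⁻¹ • (x - a) ∈ ball z r} = ball (a + s • z) (s * r) := by
  ext x
  rw [mem_setOf_eq, mem_ball, mem_ball, dist_eq_norm, dist_eq_norm, norm_scale hs]
  exact ⟨fun h => mul_lt_mul_of_pos_left h hs, fun h => lt_of_mul_lt_mul_left h hs.le⟩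

theorem pull_closedBall {a : V m} {s : ℝ} (hs : 0 < s) (μ : Measure (V m)) (z : V m) (r : ℝ) :
    (pull a s μ).real (closedBall z r) = μ.real (closedBall (a + s • z) (s * r)) := by
  rw [pull_real hs, pre_closedBall hs]

private lemma mem_scaled {a v : V m} {s : ℝ} (hs : 0 < s) (hv : v ∈ ball (0 : V m) 1) :
    a + s • v ∈ ball a s := by
  rw [mem_ball_zero_iff] at hv
  rw [mem_ball, dist_eq_norm, add_sub_cancel_left, norm_smul, Real.norm_of_nonneg hs.le]
  calc s * ‖v‖ < s * 1 := mul_lt_mul_of_pos_left hv hs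
    _ = s := mul_one s

private lemma hasFDerivAt_scaled {f : V m → V m} {a v : V m} {s : ℝ}
    (h : DifferentiableAt ℝ f (a + s • v)) :
    HasFDerivAt (fun v => f (a + s • v)) (s • (fderiv ℝ f (a + s • v) : EV m)) v := by
  have h1 : HasFDerivAt (fun v : V m => a + s • v) (s • (1 : EV m)) v :=
    ((hasFDerivAt_id v).const_smul s).const_add a
  have h2 := h.hasFDerivAt.comp v h1
  have h3 : (fderiv ℝ f (a + s • v) : EV m).comp (s • (1 : EV m)) =
      s • (fderiv ℝ f (a + s • v) : EV m) := by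
    ext w
    simp
  rw [h3] at h2
  exact h2

theorem ctrl_pull {δ c : ℝ} {U : Set (V m)} {f : V m → V m} {μ : Measure (V m)}
    [IsFiniteMeasure μ] (h : Ctrl δ c U f μ) {a : V m} {s : ℝ} (hs : 0 < s) (hb : ball a s ⊆ U) :
    Ctrl δ c (ball 0 1) (fun v => f (a + s • v)) (pull a s μ) := by
  have hdiff : ∀ v ∈ ball (0 : V m) 1,
      DifferentiableAt ℝ f (a + s • v) ∧ IsUnit (fderiv ℝ f (a + s • v) : EV m) := by
    intro v hv
    obtain ⟨h1, h2⟩ := h.imm _ (hb (mem_scaled hs hv))
    exact ⟨h1.differentiableAt (by simp), h2⟩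
  constructor
  · intro v hv
    obtain ⟨h1, h2⟩ := h.imm _ (hb (mem_scaled hs hv))
    refine ⟨?_, ?_⟩
    · have h3 : ContDiffAt ℝ ∞ (fun v : V m => a + s • v) v :=
        (contDiff_const.add (contDiff_id.const_smul s)).contDiffAt
      exact ContDiffAt.comp v h1 h3
    · rw [(hasFDerivAt_scaled (hdiff v hv).1).fderiv]
      exact (h2.smul (Units.mk0 s hs.ne'))
  · intro z r hr hsub hmass
    rw [pull_closedBall hs] at hmass
    have hsub' : closedBall (a + s • z) (s * r) ⊆ U := by
      rw [← pre_closedBall hs]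
      intro x hx
      have hx' := hsub hx
      have h2 := mem_scaled (a := a) hs hx'
      rw [smul_smul, mul_inv_cancel₀ hs.ne', one_smul, add_sub_cancel] at h2
      exact hb h2
    have hflat := h.flat _ _ (mul_pos hs hr) hsub' hmass
    have hzr : closedBall z (r / 8) ⊆ ball 0 1 :=
      (closedBall_subset_closedBall (by linarith)).trans hsub
    refine flat_comp hs.ne' (fun v hv => hdiff v (hzr hv)) (hflat.mono le_rfl ?_)
    rintro _ ⟨v, hv, rfl⟩
    rw [mem_closedBall, dist_eq_norm] at hv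
    rw [mem_closedBall, dist_eq_norm]
    have e : a + s • v - (a + s • z) = s • (v - z) := by
      rw [smul_sub]
      abel
    rw [e, norm_smul, Real.norm_of_nonneg hs.le]
    have := mul_le_mul_of_nonneg_left hv hs.le
    linarith

theorem loc_sub {δ c E : ℝ} {U : Set (V m)} {f : V m → V m} {μ : Measure (V m)}
    (hfin : IsFiniteMeasure μ) (hatom : ∀ x, μ {x} = 0) (h : Ctrl δ c U f μ) {a : V m} {s : ℝ}
    (hs : 0 < s) (hb : ball a s ⊆ U) (hmass : μ.real (ball a s) ≤ E)
    (hcol : μ.real (ball a s \ closedBall a (s / 16)) ≤ c / 4) :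
    Loc δ c E (fun v => f (a + s • v)) (pull a s μ) := by
  refine ⟨?_, ?_, ctrl_pull h hs hb, ?_, ?_⟩
  · unfold pull
    infer_instance
  · intro x
    rw [pull_apply' hs]
    have e : {y : V m | s⁻¹ • (y - a) ∈ ({x} : Set (V m))} = {a + s • x} := by
      ext y
      simp only [mem_setOf_eq, mem_singleton_iff]
      constructor
      · rintro rfl
        rw [smul_smul, mul_inv_cancel₀ hs.ne', one_smul, add_sub_cancel]
      · rintro rfl
        rw [add_sub_cancel_left, smul_smul, inv_mul_cancel₀ hs.ne', one_smul]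
    rw [e]
    exact hatom _
  · rw [pull_real hs, pre_ball hs]
    simpa using hmass
  · rw [pull_real hs]
    have e : {x : V m | s⁻¹ • (x - a) ∈ ball (0 : V m) 1 \ closedBall 0 (1 / 16)} =
        ball a s \ closedBall a (s / 16) := by
      have e1 := pre_ball (a := a) hs (0 : V m) 1
      have e2 := pre_closedBall (a := a) hs (0 : V m) (1 / 16)
      rw [smul_zero, add_zero, mul_one] at e1
      rw [smul_zero, add_zero, mul_one_div] at e2
      rw [← e1, ← e2]
      rfl
    rw [e]
    exact hcol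

end Pool.Agent.Lib.P28f
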