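import Pool.Agent.Lib.P28f.Ultra
import Pool.Agent.Lib.P28f.ConnBall
import Pool.Agent.Lib.P28f.Bdd
import Pool.Agent.Lib.P28f.Compare
import Pool.Agent.Lib.P28f.ClsFacts
import Pool.Agent.Lib.P28f.PullLoc

set_option autoImplicit false

/-!
# The induction step for light maps
-/

open MeasureTheory Set Metric
open scoped ContDiff Topology

namespace Pool.Agent.Lib.P28f

variable {m : ℕ}

/-- local flatness near the points of a compact set away from the concentration points -/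
theorem flat_near {δ c E : ℝ} {f : ℕ → V m → V m} {μ : ℕ → Measure (V m)}
    (hL : ∀ j, Loc δ c E (f j) (μ j)) {K : Set (V m)} (hK : IsCompact K) (hK1 : K ⊆ ball 0 1)
    (hKB : Disjoint K (Bad c μ)) :
    ∃ r : ℝ, 0 < r ∧ (∀ x ∈ K, closedBall x r ⊆ ball 0 1) ∧
      ∀ᶠ j in (ult : Filter ℕ), ∀ x ∈ K, Flat δ (closedBall x r) (f j) := by
  obtain ⟨r, hr, hsub, hev⟩ := good_cover (fun j => (hL j).fin) hK hK1 hKB
  refine ⟨r / 8, by positivity, fun x hx => (closedBall_subset_closedBall (by linarith)).trans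
    (hsub x hx), ?_⟩
  filter_upwards [hev] with j hj x hx
  exact (hL j).ctrl.flat x r hr (hsub x hx) (hj x hx)

/-- a positive separation constant for a finite set -/
theorem exists_sep {B : Set (V m)} (hB : B.Finite) : ∃ s : ℝ, 0 < s ∧ s ≤ 1 / 64 ∧
    ∀ a ∈ B, ∀ b ∈ B, a ≠ b → s < ‖a - b‖ := by
  classical
  by_cases hne : ((hB.toFinset ×ˢ hB.toFinset).filter fun p => p.1 ≠ p.2).Nonempty
  · obtain ⟨p, hp, hmin⟩ := Finset.exists_min_image _ (fun p : V m × V m => ‖p.1 - p.2‖) hne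
    have hp' := (Finset.mem_filter.1 hp).2
    have hpos : 0 < ‖p.1 - p.2‖ := norm_pos_iff.2 (sub_ne_zero.2 hp')
    refine ⟨min (1 / 64) (‖p.1 - p.2‖ / 2), by positivity, min_le_left _ _, ?_⟩
    intro a ha b hb hab
    have h1 : ‖p.1 - p.2‖ ≤ ‖a - b‖ := by
      apply hmin (a, b)
      rw [Finset.mem_filter, Finset.mem_product, hB.mem_toFinset, hB.mem_toFinset]
      exact ⟨⟨ha, hb⟩, hab⟩
    have h2 := min_le_right (1 / 64) (‖p.1 - p.2‖ / 2)
    linarith
  · refine ⟨1 / 64, by norm_num, le_rfl, ?_⟩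
    intro a ha b hb hab
    exfalso
    apply hne
    refine ⟨(a, b), ?_⟩
    rw [Finset.mem_filter, Finset.mem_product, hB.mem_toFinset, hB.mem_toFinset]
    exact ⟨⟨ha, hb⟩, hab⟩

theorem loc_flat_ann {δ c E : ℝ} (hm : 2 ≤ m) (h0 : 0 ≤ δ) (h1 : δ ≤ 1 / 2000) (hc : 0 < c)
    {f : V m → V m} {μ : Measure (V m)} (h : Loc δ c E f μ) {a : V m} {s : ℝ} (hs : 0 < s)
    (hb : closedBall a s ⊆ ball 0 1)
    (hcol : μ.real (ball a s \ closedBall a (s / 16)) ≤ c / 4) :
    Flat (2000 * δ) (ann a (s / 4)) f := by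
  haveI := h.fin
  apply ann_ctrl hm h0 h1 h.ctrl (by positivity : 0 < s / 4)
  · refine (closedBall_subset_closedBall ?_).trans hb
    linarith
  · refine (measureReal_mono (μ := μ) ?_ (by finiteness)).trans (hcol.trans (by linarith))
    intro x hx
    rw [mem_diff, mem_closedBall, mem_ball, not_lt] at hx
    rw [mem_diff, mem_ball, mem_closedBall, not_le]
    constructor <;> linarith [hx.1, hx.2]

theorem half_aux (a w a' : V m) (t : ℝ) :
    (1 / 2 : ℝ) • ((2 : ℝ) • a + (2 * (2 * (t / 4))) • w) - a' = (a - a') + (t / 2) • w := by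
  have e7 : (1 / 2 : ℝ) * (2 * (2 * (t / 4))) = t / 2 := by ring
  have e8 : (1 / 2 : ℝ) * 2 = 1 := by norm_num
  rw [smul_add, smul_smul, smul_smul, e7, e8, one_smul]
  abel

theorem case_A (m : ℕ) (hm : 2 ≤ m) : ∃ δ₀ : ℝ, 0 < δ₀ ∧ ∀ δ c E : ℝ, 0 ≤ δ → δ ≤ δ₀ → 0 < c →
    c ≤ E → FinCls m δ c (E - c / 8) → ∀ (f : ℕ → V m → V m) (μ : ℕ → Measure (V m)),
    (∀ j, Loc δ c E (f j) (μ j) ∧ Light c E (μ j)) →
    ∃ i j, i ≠ j ∧ Iso (cls (f i)) (cls (f j)) := by
  classical
  obtain ⟨δm, hδm, hcomp⟩ := compare m hm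
  obtain ⟨δc, hδc, hclsd⟩ := cls_dif m hm
  have hm1 : 1 ≤ m := by omega
  refine ⟨min (min (δm / 2000) δc) (1 / 2000), by positivity, ?_⟩
  intro δ c E h0 hδ hc hcE hIH f μ hLL
  have hδ1 : δ ≤ δm / 2000 := hδ.trans ((min_le_left _ _).trans (min_le_left _ _))
  have hδ2 : δ ≤ δc := hδ.trans ((min_le_left _ _).trans (min_le_right _ _))
  have hδ3 : δ ≤ 1 / 2000 := hδ.trans (min_le_right _ _)
  have hL : ∀ j, Loc δ c E (f j) (μ j) := fun j => (hLL j).1
  have hLi : ∀ j, Light c E (μ j) := fun j => (hLL j).2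
  have hfin : ∀ j, IsFiniteMeasure (μ j) := fun j => (hL j).fin
  set B : Set (V m) := Bad c μ with hBdef
  have hBfin : B.Finite := bad_finite hc hfin fun j => (hL j).mass
  have hBsub : B ⊆ closedBall 0 (1 / 16) := bad_subset hc hfin fun j => (hL j).collar
  have hBn : ∀ a ∈ B, ‖a‖ ≤ 1 / 16 := fun a ha => by simpa using hBsub ha
  obtain ⟨s₁, hs₁, hs₁', hsep⟩ := exists_sep hBfin
  have hin : ∀ a ∈ B, closedBall a s₁ ⊆ ball 0 1 := by
    intro a ha x hx
    have h1 := hBn a ha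
    have h2 : ‖x - a‖ ≤ s₁ := by simpa [dist_eq_norm] using hx
    have h3 : ‖x‖ ≤ ‖x - a‖ + ‖a‖ := by simpa using norm_add_le (x - a) a
    simp only [mem_ball, dist_zero_right]
    linarith
  have hsc : ∀ a ∈ B, ∃ s : ℝ, 0 < s ∧ s ≤ s₁ ∧
      ∀ᶠ j in (ult : Filter ℕ), (μ j).real (ball a s \ closedBall a (s / 16)) ≤ c / 4 :=
    fun a ha => good_scale hc hfin (fun j => (hL j).mass) hs₁ (hin a ha)
  choose! s hspos hsle hscol using hsc
  have hin' : ∀ a ∈ B, closedBall a (s a) ⊆ ball 0 1 := fun a ha =>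
    (closedBall_subset_closedBall (hsle a ha)).trans (hin a ha)
  -- local classes
  have hpick : ∀ a ∈ B, ∃ i, ∀ᶠ j in (ult : Filter ℕ),
      (μ j).real (ball a (s a) \ closedBall a (s a / 16)) ≤ c / 4 ∧
      Iso (rep (f i) a (s a / 4)) (rep (f j) a (s a / 4)) := by
    intro a ha
    obtain ⟨i, -, hi⟩ := pick (hscol a ha)
      (rel := fun i j => Iso (rep (f i) a (s a / 4)) (rep (f j) a (s a / 4)))
      (fun i j h => h.symm) (by
        intro q hq
        have hloc : ∀ k, Loc δ c (E - c / 8) (fun v => f (q k) (a + s a • v))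
            (pull a (s a) (μ (q k))) := by
          intro k
          haveI := hfin (q k)
          have hb : ball a (s a) ⊆ ball 0 1 := ball_subset_closedBall.trans (hin' a ha)
          refine loc_sub (hfin _) (hL _).atom (hL _).ctrl (hspos a ha) hb ?_ (hq k)
          have h1 := hLi (q k) a (s a) (hspos a ha) ((hsle a ha).trans hs₁') (hin' a ha)
          exact (measureReal_mono ball_subset_closedBall (by finiteness)).trans h1.le
        obtain ⟨k, l, hkl, hiso⟩ := hIH _ _ hloc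
        refine ⟨k, l, hkl, ?_⟩
        have e : ∀ k, cls (fun v => f (q k) (a + s a • v)) = rep (f (q k)) a (s a / 4) := by
          intro k
          rw [cls, rep_comp, smul_zero, add_zero]
          congr 1
          ring
        rw [← e k, ← e l]
        exact hiso)
    exact ⟨i, hi⟩
  choose! i₀ hi₀ using hpick
  have hall : ∀ᶠ j in (ult : Filter ℕ), ∀ a ∈ B,
      (μ j).real (ball a (s a) \ closedBall a (s a / 16)) ≤ c / 4 ∧
      Iso (rep (f (i₀ a)) a (s a / 4)) (rep (f j) a (s a / 4)) :=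
    (Filter.eventually_all_finite hBfin).2 fun a ha => hi₀ a ha
  -- the good region
  set Ω : Set (V m) := ball 0 1 \ B with hΩ
  have hΩo : IsOpen Ω := isOpen_ball.sdiff hBfin.isClosed
  set x₀ : V m := (1 / 2 : ℝ) • w0 m with hx₀
  have hx₀n : ‖x₀‖ = 3 / 8 := by
    rw [hx₀, norm_smul, norm_w0 hm1]; norm_num
  have hx₀Ω : x₀ ∈ Ω := by
    refine ⟨by simp only [mem_ball, dist_zero_right]; rw [hx₀n]; norm_num, fun h => ?_⟩
    have := hBn _ h
    rw [hx₀n] at this
    norm_num at this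
  set G : ℕ → V m → EV m := fun j x => fderiv ℝ (f j) x with hG
  have hGu : ∀ j, ∀ x ∈ ball (0 : V m) 1, IsUnit (G j x) := fun j x hx =>
    ((hL j).ctrl.imm x hx).2
  set K : Set (V m) := closedBall 0 (1 / 4) \ ⋃ a ∈ B, ball a (s a / 4) with hKdef
  have hKc : IsCompact K := by
    have hop : IsOpen (⋃ a ∈ B, ball a (s a / 4)) := isOpen_biUnion fun a _ => isOpen_ball
    exact (isCompact_closedBall _ _).diff hop
  have hK1 : K ⊆ ball 0 1 := by
    rintro x ⟨hx, -⟩
    exact closedBall_subset_ball (by norm_num) hx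
  have hKB : Disjoint K B := by
    rw [Set.disjoint_left]
    rintro x ⟨-, hx⟩ hxB
    apply hx
    rw [mem_iUnion₂]
    exact ⟨x, hxB, mem_ball_self (by have := hspos x hxB; positivity)⟩
  obtain ⟨C, hC, hbd⟩ := bdd hΩo (isPreconnected_ball_diff hm hBfin) hx₀Ω G
    (Filter.Eventually.of_forall fun j x hx => hGu j x hx.1) (by
      intro x hx
      obtain ⟨r, hr, -, hfl⟩ := flat_near hL (isCompact_singleton (x := x))
        (singleton_subset_iff.2 hx.1) (Set.disjoint_singleton_left.2 hx.2)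
      obtain ⟨ρ, hρ, hρΩ⟩ := nhds_basis_closedBall.mem_iff.1 (hΩo.mem_nhds hx)
      refine ⟨min r ρ, lt_min hr hρ, (closedBall_subset_closedBall (min_le_right _ _)).trans hρΩ,
        ?_⟩
      filter_upwards [hfl] with j hj y hy
      have h1 := hj x rfl x (mem_closedBall_self hr.le) y
        (closedBall_subset_closedBall (min_le_left _ _) hy)
      exact h1.trans (by linarith)) hKc (fun x hx => ⟨hK1 hx, fun hB => hKB.le_bot ⟨hx, hB⟩⟩)
  obtain ⟨r, hr, -, hfl⟩ := flat_near hL hKc hK1 hKB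
  set N : ℕ → V m → EV m := fun j x => Ring.inverse (G j x₀) * G j x with hN
  have hGx₀ : ∀ j, IsUnit (G j x₀) := fun j => hGu j x₀ hx₀Ω.1
  have hinvu : ∀ j, IsUnit (Ring.inverse (G j x₀)) := fun j => (hGx₀ j).ringInverse
  obtain ⟨S, hS, hclose⟩ := net_close N hKc hr (C := C) (by
    filter_upwards [hbd, hfl] with j h1 h2 x hx
    have hux : IsUnit (G j x) := hGu j x (hK1 hx)
    refine ⟨(hinvu j).mul hux, (h1 x hx).1, ?_, ?_⟩
    · simp only [hN]
      rw [inv_mul_swap (hGx₀ j) hux]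
      exact (h1 x hx).2
    · intro y hy hyx
      simp only [hN]
      rw [inv_mul_left (hinvu j) hux]
      refine (h2 x hx x (mem_closedBall_self hr.le) y ?_).trans (by linarith)
      rw [mem_closedBall, dist_eq_norm]
      exact hyx)
  -- two good indices
  obtain ⟨i, j, hij, ⟨hi1, hi2⟩, hj1, hj2⟩ := exists_ne_of_eventually (hS.and hall)
  refine ⟨i, j, hij, ?_⟩
  have hIm : ∀ j, Imm (ball 0 1) (f j) := fun j => (hL j).ctrl.imm
  have hD : ∀ j, Dif (cls (f j)) := fun j => (hclsd δ c E _ _ h0 hδ2 hc (hL j)).1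
  have hD' : ∀ j v, 1 / 2 ≤ ‖v‖ → ‖(fderiv ℝ (cls (f j)) v : EV m) - 1‖ ≤ 1 / 16 := fun j =>
    (hclsd δ c E _ _ h0 hδ2 hc (hL j)).2
  have hder : ∀ j (v : V m), ‖v‖ < 1 / 2 → (fderiv ℝ (cls (f j)) v : EV m) =
      N j ((1 / 2 : ℝ) • v) := fun j v hv => fderiv_cls hm1 (hIm j) hv
  have hnear : ∀ v : V m, ‖v‖ < 1 / 2 → (∀ a ∈ B, s a / 4 ≤ ‖(1 / 2 : ℝ) • v - a‖) →
      ‖Ring.inverse (fderiv ℝ (cls (f i)) v : EV m) * fderiv ℝ (cls (f j)) v - 1‖ ≤ 1 / 8 := by
    intro v hv hva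
    rw [hder i v hv, hder j v hv]
    apply hclose i hi1 j hj1
    refine ⟨?_, ?_⟩
    · rw [mem_closedBall, dist_zero_right, norm_smul]
      norm_num
      linarith
    · rw [mem_iUnion₂]
      rintro ⟨a, ha, hxa⟩
      have := hva a ha
      rw [mem_ball, dist_eq_norm] at hxa
      linarith
  set T : Finset (V m) := hBfin.toFinset.image fun a => (2 : ℝ) • a with hT
  have hTm : ∀ b ∈ T, (1 / 2 : ℝ) • b ∈ B ∧ b = (2 : ℝ) • ((1 / 2 : ℝ) • b) := by
    intro b hb
    rw [hT, Finset.mem_image] at hb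
    obtain ⟨a, ha, rfl⟩ := hb
    rw [smul_smul, smul_smul]
    norm_num
    exact hBfin.mem_toFinset.1 ha
  apply hcomp T (fun b => s ((1 / 2 : ℝ) • b) / 2) (cls (f i)) (cls (f j)) (hD i) (hD j)
  · intro b hb
    obtain ⟨hbB, hb2⟩ := hTm b hb
    set a := (1 / 2 : ℝ) • b
    have h1 := hBn a hbB
    have h2 := hsle a hbB
    have h3 := hspos a hbB
    refine ⟨by linarith, ?_⟩
    have h4 : ‖b‖ = 2 * ‖a‖ := by rw [hb2, norm_smul]; norm_num
    rw [h4]
    linarith
  · intro b hb b' hb' hne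
    obtain ⟨hbB, hb2⟩ := hTm b hb
    obtain ⟨hbB', hb2'⟩ := hTm b' hb'
    set a := (1 / 2 : ℝ) • b
    set a' := (1 / 2 : ℝ) • b'
    have hne' : a ≠ a' := fun h => hne (by rw [hb2, hb2', h])
    have h1 := hsep a hbB a' hbB' hne'
    have h2 := hsle a hbB
    have h2' := hsle a' hbB'
    have h4 : ‖b - b'‖ = 2 * ‖a - a'‖ := by
      rw [hb2, hb2', ← smul_sub, norm_smul]; norm_num
    rw [h4]
    linarith
  · intro b hb
    obtain ⟨hbB, hb2⟩ := hTm b hb
    set a := (1 / 2 : ℝ) • b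
    have h1 := hBn a hbB
    have h2 := hsle a hbB
    have h3 := hspos a hbB
    have hR : 0 < s a / 4 := by linarith
    have ha4 : 2 * ‖a‖ + 4 * (s a / 4) < 1 / 2 := by linarith
    have hfi := loc_flat_ann hm h0 hδ3 hc (hL i) h3 (hin' a hbB) (hi2 a hbB).1
    have hfj := loc_flat_ann hm h0 hδ3 hc (hL j) h3 (hin' a hbB) (hj2 a hbB).1
    have e1 : s a / 2 = 2 * (s a / 4) := by ring
    have hδm' : 2000 * δ ≤ δm := by linarith
    rw [hb2, e1]
    refine ⟨(flat_cls hm1 (hIm i) hR ha4 hfi).mono hδm' subset_rfl,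
      (flat_cls hm1 (hIm j) hR ha4 hfj).mono hδm' subset_rfl, ?_, ?_⟩
    · rw [rep_cls hm1 (hIm i) hR ha4, rep_cls hm1 (hIm j) hR ha4]
      exact ((hi2 a hbB).2.symm).trans (hj2 a hbB).2
    · refine (hnear _ ?_ ?_).trans (by norm_num)
      · have e5 : ‖(2 : ℝ) • a‖ = 2 * ‖a‖ := by rw [norm_smul 2 a]; norm_num
        have e6 : ‖(2 * (2 * (s a / 4))) • w0 m‖ = 3 / 4 * s a := by
          rw [norm_smul, norm_w0 hm1, Real.norm_eq_abs, abs_of_pos (by positivity)]
          ring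
        refine (norm_add_le _ _).trans_lt ?_
        rw [e5, e6]
        linarith
      · intro a' ha'
        have e2 : (1 / 2 : ℝ) • ((2 : ℝ) • a + (2 * (2 * (s a / 4))) • w0 m) - a' =
            (a - a') + (s a / 2) • w0 m := by
          exact half_aux a (w0 m) a' (s a)
        rw [e2]
        have hw : ‖(s a / 2) • w0 m‖ = 3 / 8 * s a := by
          rw [norm_smul, norm_w0 hm1, Real.norm_eq_abs, abs_of_pos (by positivity)]
          ring
        by_cases haa : a = a'
        · subst haa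
          rw [sub_self, zero_add, hw]
          linarith
        · have h5 := hsep a hbB a' ha' haa
          have h6 := hsle a' ha'
          have h7 : ‖a - a'‖ ≤ ‖(a - a') + (s a / 2) • w0 m‖ + ‖(s a / 2) • w0 m‖ := by
            have := norm_sub_le ((a - a') + (s a / 2) • w0 m) ((s a / 2) • w0 m)
            simpa using this
          rw [hw] at h7
          linarith
  · intro v hv t ht
    by_cases hvn : ‖v‖ < 1 / 2
    · have hu : IsUnit (fderiv ℝ (cls (f i)) v : EV m) := (hD i).unit v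
      apply isUnit_seg hu _ ht
      refine (hnear v hvn ?_).trans_lt (by norm_num)
      intro a ha
      have haT : (2 : ℝ) • a ∈ T := by
        rw [hT, Finset.mem_image]
        exact ⟨a, hBfin.mem_toFinset.2 ha, rfl⟩
      have h1 := hv _ haT
      have e3 : (1 / 2 : ℝ) • ((2 : ℝ) • a) = a := by rw [smul_smul]; norm_num
      simp only [e3] at h1
      have e4 : (1 / 2 : ℝ) • v - a = (1 / 2 : ℝ) • (v - (2 : ℝ) • a) := by
        rw [smul_sub, e3]
      rw [e4, norm_smul]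
      norm_num
      linarith
    · rw [not_lt] at hvn
      apply isUnit_of_near
      have h1 := hD' i v hvn
      have h2 := hD' j v hvn
      have e : (1 - t) • (fderiv ℝ (cls (f i)) v : EV m) + t • fderiv ℝ (cls (f j)) v - 1 =
          (1 - t) • ((fderiv ℝ (cls (f i)) v : EV m) - 1) +
            t • ((fderiv ℝ (cls (f j)) v : EV m) - 1) := by
        rw [smul_sub, smul_sub, sub_smul 1 t (1 : EV m), one_smul]
        abel
      rw [e]
      refine (norm_add_le _ _).trans_lt ?_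
      rw [norm_smul, norm_smul, Real.norm_eq_abs, Real.norm_eq_abs, abs_of_nonneg (by linarith [ht.2]),
        abs_of_nonneg ht.1]
      nlinarith [ht.1, ht.2, norm_nonneg ((fderiv ℝ (cls (f i)) v : EV m) - 1),
        norm_nonneg ((fderiv ℝ (cls (f j)) v : EV m) - 1)]

end Pool.Agent.Lib.P28f
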