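import Pool.Agent.Lib.P28f.NrmNear

set_option autoImplicit false

/-!
# `core f` is an immersion

PROOF SKETCH. `B` = a bound of `‖fderiv (cut m) v‖` (continuous with compact support), `C = 1 + 6 B`, `δ₀ = min (1/2) (1 / (2 C))`. For `1/2 ≤ ‖v‖ ≤ 1`:
`fderiv (core f) v w - w = cut v • ((fderiv (nrm f) v - 1) w) + (fderiv cut v w) • (nrm f v - v)`, norm `≤ (δ + B 6 δ) ‖w‖` by `nrm_near`. For `‖v‖ > 3/4` `core f` is
the identity near `v`. For `‖v‖ < 1/2` `core f = nrm f` near `v`, derivative `(fderiv f w0)⁻¹ * fderiv f v`, a unit. Smoothness: for `‖v‖ ≤ 1` `f` is smooth at `v`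
(hypothesis on the closed ball), for `‖v‖ > 3/4` `core f = id` near `v`. The estimate for `‖v‖ > 1` is trivial.
-/

open MeasureTheory Set Metric
open scoped ContDiff Topology

namespace Pool.Agent.Lib.P28f

variable {m : ℕ}

namespace CoreDifAux

theorem bound_cut (m : ℕ) : ∃ B : ℝ, 0 ≤ B ∧ ∀ v, ‖fderiv ℝ (cut m) v‖ ≤ B := by
  have h1 : Continuous (fderiv ℝ (cut m)) := (cut m).contDiff.continuous_fderiv (n := ∞) (by simp)
  have h2 : HasCompactSupport (fderiv ℝ (cut m)) := (cut m).hasCompactSupport.fderiv ℝ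
  obtain ⟨B, hB⟩ := h1.bounded_above_of_compact_support h2
  exact ⟨max B 0, le_max_right _ _, fun v => (hB v).trans (le_max_left _ _)⟩

theorem nrm_smooth {f : V m → V m} {v : V m} (h : ContDiffAt ℝ ∞ f v) :
    ContDiffAt ℝ ∞ (nrm f) v := by
  unfold nrm
  have h1 : ContDiffAt ℝ ∞ (fun v => f v - f (w0 m)) v := h.sub contDiffAt_const
  exact contDiffAt_const.add
    ((Ring.inverse (fderiv ℝ f (w0 m) : EV m)).contDiff.contDiffAt.comp v h1)

theorem core_smooth {f : V m → V m} {v : V m} (h : ContDiffAt ℝ ∞ f v) :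
    ContDiffAt ℝ ∞ (core f) v := by
  unfold core
  exact contDiffAt_id.add
    (((cut m).contDiff.contDiffAt).smul ((nrm_smooth h).sub contDiffAt_id))

theorem core_eq_id (f : V m → V m) {v : V m} (h : 3 / 4 < ‖v‖) : core f =ᶠ[𝓝 v] id := by
  have : ∀ᶠ w in 𝓝 v, 3 / 4 < ‖w‖ := continuous_norm.continuousAt.eventually_const_lt h
  exact this.mono fun w hw => core_outer f hw.le

theorem core_eq_nrm (f : V m → V m) {v : V m} (h : ‖v‖ < 1 / 2) : core f =ᶠ[𝓝 v] nrm f := by
  have : ∀ᶠ w in 𝓝 v, ‖w‖ < 1 / 2 := continuous_norm.continuousAt.eventually_lt_const h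
  exact this.mono fun w hw => core_inner f hw.le

theorem core_fderiv {f : V m → V m} {v : V m} (h : ContDiffAt ℝ ∞ f v) :
    (fderiv ℝ (core f) v : EV m) - 1 = cut m v • ((fderiv ℝ (nrm f) v : EV m) - 1) +
      (fderiv ℝ (cut m) v).smulRight (nrm f v - v) := by
  have h1 : HasFDerivAt (nrm f) (fderiv ℝ (nrm f) v) v :=
    ((nrm_smooth h).differentiableAt (by simp)).hasFDerivAt
  have h2 : HasFDerivAt (fun v => nrm f v - v) ((fderiv ℝ (nrm f) v : EV m) - 1) v :=
    h1.sub (hasFDerivAt_id v)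
  have h3 : HasFDerivAt (cut m) (fderiv ℝ (cut m) v) v :=
    (((cut m).contDiff (n := (⊤ : ℕ∞))).contDiffAt.differentiableAt (by simp)).hasFDerivAt
  have h4 := (hasFDerivAt_id v).add (h3.smul h2)
  have h5 : HasFDerivAt (core f) ((1 : EV m) + (cut m v • ((fderiv ℝ (nrm f) v : EV m) - 1) +
      (fderiv ℝ (cut m) v).smulRight (nrm f v - v))) v := h4
  rw [h5.fderiv, add_sub_cancel_left]

end CoreDifAux

open CoreDifAux in
theorem core_dif (m : ℕ) (hm : 2 ≤ m) : ∃ δ₀ C : ℝ, 0 < δ₀ ∧ 0 < C ∧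
    ∀ (f : V m → V m) (δ : ℝ), 0 ≤ δ → δ ≤ δ₀ → Imm (closedBall 0 1) f →
      Flat δ (ann 0 (1 / 2)) f →
      Dif (core f) ∧ ∀ v, 1 / 2 ≤ ‖v‖ → ‖(fderiv ℝ (core f) v : EV m) - 1‖ ≤ C * δ := by
  obtain ⟨B, hB0, hB⟩ := bound_cut m
  set C : ℝ := 1 + 6 * B with hC
  have hC0 : 0 < C := by positivity
  refine ⟨1 / (2 * C), C, by positivity, hC0, ?_⟩
  intro f δ hδ hδ1 hI hF
  have hsub : ann (0 : V m) (1 / 2) ⊆ closedBall 0 1 := by
    intro x hx
    have := hx.2
    rw [mem_closedBall, dist_zero_right]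
    rw [sub_zero] at this
    linarith
  have hIa : Imm (ann 0 (1 / 2)) f := fun x hx => hI x (hsub hx)
  have hest : ∀ v, 1 / 2 ≤ ‖v‖ → ‖(fderiv ℝ (core f) v : EV m) - 1‖ ≤ C * δ := by
    intro v hv
    rcases le_or_gt ‖v‖ 1 with h | h
    · have hva : v ∈ ann (0 : V m) (1 / 2) := ⟨by rwa [sub_zero], by rw [sub_zero]; linarith⟩
      obtain ⟨h1, h2⟩ := nrm_near hm hδ hIa hF hva
      rw [core_fderiv (hIa v hva).1]
      have hc0 : 0 ≤ cut m v := (cut m).nonneg
      have hc1 : cut m v ≤ 1 := (cut m).le_one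
      calc ‖cut m v • ((fderiv ℝ (nrm f) v : EV m) - 1) +
            (fderiv ℝ (cut m) v).smulRight (nrm f v - v)‖
          ≤ ‖cut m v • ((fderiv ℝ (nrm f) v : EV m) - 1)‖ +
            ‖(fderiv ℝ (cut m) v).smulRight (nrm f v - v)‖ := norm_add_le _ _
        _ = cut m v * ‖(fderiv ℝ (nrm f) v : EV m) - 1‖ +
            ‖fderiv ℝ (cut m) v‖ * ‖nrm f v - v‖ := by
            rw [norm_smul, ContinuousLinearMap.norm_smulRight_apply, Real.norm_eq_abs,
              abs_of_nonneg hc0]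
        _ ≤ 1 * δ + B * (6 * δ) :=
            add_le_add (mul_le_mul hc1 h1 (norm_nonneg _) zero_le_one)
              (mul_le_mul (hB v) h2 (norm_nonneg _) hB0)
        _ = C * δ := by rw [hC]; ring
    · have h1 : (fderiv ℝ (core f) v : EV m) = 1 := by
        rw [(core_eq_id f (by linarith)).fderiv_eq, fderiv_id]
        rfl
      rw [h1, sub_self, norm_zero]
      positivity
  refine ⟨⟨?_, ?_, ?_⟩, hest⟩
  · rw [contDiff_iff_contDiffAt]
    intro v
    rcases le_or_gt ‖v‖ 1 with h | h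
    · exact core_smooth (hI v (by rwa [mem_closedBall, dist_zero_right])).1
    · exact contDiffAt_id.congr_of_eventuallyEq (core_eq_id f (by linarith))
  · intro v
    rcases le_or_gt (1 / 2) ‖v‖ with h | h
    · apply isUnit_of_near
      have h1 := hest v h
      have h2 : C * δ ≤ 1 / 2 := by
        calc C * δ ≤ C * (1 / (2 * C)) := mul_le_mul_of_nonneg_left hδ1 hC0.le
          _ = 1 / 2 := by field_simp
      linarith
    · rw [(core_eq_nrm f h).fderiv_eq]
      have hv1 : v ∈ closedBall (0 : V m) 1 := by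
        rw [mem_closedBall, dist_zero_right]; linarith
      have hw1 : w0 m ∈ closedBall (0 : V m) 1 := by
        rw [mem_closedBall, dist_zero_right, norm_w0 (by omega)]; norm_num
      have h1 : HasFDerivAt f (fderiv ℝ f v) v :=
        ((hI v hv1).1.differentiableAt (by simp)).hasFDerivAt
      have h2 : HasFDerivAt (fun v => f v - f (w0 m)) (fderiv ℝ f v) v := h1.sub_const _
      have h3 : HasFDerivAt (nrm f) (Ring.inverse (fderiv ℝ f (w0 m) : EV m) * fderiv ℝ f v : EV m)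
          v := ((Ring.inverse (fderiv ℝ f (w0 m) : EV m)).hasFDerivAt.comp v h2).const_add _
      rw [h3.fderiv]
      exact (hI _ hw1).2.ringInverse.mul (hI v hv1).2
  · intro v hv
    exact core_outer f hv

end Pool.Agent.Lib.P28f
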