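import Pool.Agent.Lib.P28f.CoreDif
import Pool.Agent.Lib.P28f.IsoRel

set_option autoImplicit false

/-!
# Families of maps give isotopic cores; moving the centre and the radius

PROOF SKETCH. `core_path`: `δ₀` from `core_dif`; `Iso.of_Icc` with `K (t, x) = core (fun y => f (t, y)) x`. `Dif` for each `t` is `core_dif`. Smoothness of `K` at `(t, x)`,
`t ∈ [0, 1]`: for `‖x‖ > 3/4` `K (t', x') = x'` near `(t, x)`; for `‖x‖ ≤ 3/4` the map `f` is smooth at `(t, x)` and at `(t, w0)`; the partial derivative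
`t' ↦ fderiv (fun y => f (t', y)) w0 = (fderiv f (t', w0)).comp (inr)` is smooth near `t`, `Ring.inverse` is smooth at units (`contDiffAt_ringInverse`).
`rep_move`: `core_path` for `f' (t, v) = f (a_t + (2 R_t) • v)`, `a_t = (1-t) a + t a'`, `R_t = (1-t) R + t R' > 0`; the chain rule gives the unit condition
(`fderiv = (2 R_t) • fderiv f (..)`), flatness by `flat_comp` (the image of `ann 0 (1/2)` is `ann a_t R_t`).
-/

open MeasureTheory Set Metric
open scoped ContDiff Topology

namespace Pool.Agent.Lib.P28f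

variable {m : ℕ}

theorem core_path (m : ℕ) (hm : 2 ≤ m) : ∃ δ₀ : ℝ, 0 < δ₀ ∧ ∀ f : ℝ × V m → V m,
    (∀ t ∈ Icc (0 : ℝ) 1, ∀ v ∈ closedBall (0 : V m) 1, ContDiffAt ℝ ∞ f (t, v) ∧
      IsUnit (fderiv ℝ (fun y => f (t, y)) v : EV m)) →
    (∀ t ∈ Icc (0 : ℝ) 1, Flat δ₀ (ann 0 (1 / 2)) fun y => f (t, y)) →
    Iso (core fun y => f (0, y)) (core fun y => f (1, y)) := by
  obtain ⟨δ₀, C, hδ₀, hC, hcd⟩ := core_dif m hm
  refine ⟨δ₀, hδ₀, fun f hf hF => ?_⟩
  have hslice : ∀ t ∈ Icc (0 : ℝ) 1, Imm (closedBall 0 1) fun y => f (t, y) := by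
    intro t ht v hv
    refine ⟨?_, (hf t ht v hv).2⟩
    have h1 : ContDiffAt ℝ ∞ (fun y : V m => ((t, y) : ℝ × V m)) v :=
      contDiffAt_const.prodMk contDiffAt_id
    exact ContDiffAt.comp v (f := fun y : V m => ((t, y) : ℝ × V m)) (g := f) (hf t ht v hv).1 h1
  have hw0 : w0 m ∈ closedBall (0 : V m) 1 := by
    rw [mem_closedBall, dist_zero_right, norm_w0 (by omega)]
    norm_num
  refine Iso.of_Icc (K := fun p : ℝ × V m => core (fun y => f (p.1, y)) p.2) ?_ ?_
  · intro t ht x
    rcases lt_or_ge (3 / 4 : ℝ) ‖x‖ with hx | hx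
    · have hev : (fun p : ℝ × V m => core (fun y => f (p.1, y)) p.2) =ᶠ[𝓝 (t, x)]
          fun p => p.2 := by
        have hopen : IsOpen {p : ℝ × V m | (3 / 4 : ℝ) < ‖p.2‖} :=
          isOpen_lt continuous_const continuous_snd.norm
        filter_upwards [hopen.mem_nhds hx] with p hp
        exact core_outer _ (le_of_lt hp)
      exact ContDiffAt.congr_of_eventuallyEq contDiffAt_snd hev
    · have hx1 : x ∈ closedBall (0 : V m) 1 := by
        rw [mem_closedBall, dist_zero_right]; linarith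
      have hfx := (hf t ht x hx1).1
      obtain ⟨hfw, huw⟩ := hf t ht (w0 m) hw0
      have e1 : ContDiffAt ℝ ∞ (fun p : ℝ × V m => f (p.1, p.2)) (t, x) := hfx
      have e2 : ContDiffAt ℝ ∞ (fun p : ℝ × V m => f (p.1, w0 m)) (t, x) := by
        have h1 : ContDiffAt ℝ ∞ (fun p : ℝ × V m => ((p.1, w0 m) : ℝ × V m)) (t, x) :=
          contDiffAt_fst.prodMk contDiffAt_const
        exact ContDiffAt.comp (t, x) (f := fun p : ℝ × V m => ((p.1, w0 m) : ℝ × V m)) (g := f)
          hfw h1
      have e3 : ContDiffAt ℝ ∞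
          (fun p : ℝ × V m => (fderiv ℝ (fun y => f (p.1, y)) (w0 m) : EV m)) (t, x) := by
        refine ContDiffAt.fderiv (n := ∞) (f := fun (p : ℝ × V m) (y : V m) => f (p.1, y))
          (g := fun _ => w0 m) ?_ contDiffAt_const (by simp)
        have h1 : ContDiffAt ℝ ∞ (fun q : (ℝ × V m) × V m => ((q.1.1, q.2) : ℝ × V m))
            ((t, x), w0 m) :=
          (contDiffAt_fst.comp _ contDiffAt_fst).prodMk contDiffAt_snd
        exact ContDiffAt.comp ((t, x), w0 m)
          (f := fun q : (ℝ × V m) × V m => ((q.1.1, q.2) : ℝ × V m)) (g := f) hfw h1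
      have e4 : ContDiffAt ℝ ∞
          (fun p : ℝ × V m => Ring.inverse (fderiv ℝ (fun y => f (p.1, y)) (w0 m) : EV m))
          (t, x) := by
        obtain ⟨u, hu⟩ := huw
        have h1 : ContDiffAt ℝ ∞ (Ring.inverse : EV m → EV m)
            (fderiv ℝ (fun y => f (t, y)) (w0 m) : EV m) := by
          rw [← hu]
          exact contDiffAt_ringInverse ℝ u
        exact ContDiffAt.comp (t, x)
          (f := fun p : ℝ × V m => (fderiv ℝ (fun y => f (p.1, y)) (w0 m) : EV m))
          (g := (Ring.inverse : EV m → EV m)) h1 e3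
      have e5 : ContDiffAt ℝ ∞ (fun p : ℝ × V m => nrm (fun y => f (p.1, y)) p.2) (t, x) := by
        unfold nrm
        exact contDiffAt_const.add (e4.clm_apply (e1.sub e2))
      have e6 : ContDiffAt ℝ ∞ (fun p : ℝ × V m => cut m p.2) (t, x) :=
        ((cut m).contDiff.contDiffAt).comp (t, x) contDiffAt_snd
      exact contDiffAt_snd.add (e6.smul (e5.sub contDiffAt_snd))
  · intro t ht
    exact (hcd _ δ₀ hδ₀.le le_rfl (hslice t ht) (hF t ht)).1

/-- The derivative of `y ↦ f (b + s • y)`. -/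
private theorem hasFDerivAt_affine {f : V m → V m} {b v : V m} {s : ℝ}
    (hd : DifferentiableAt ℝ f (b + s • v)) :
    HasFDerivAt (fun y : V m => f (b + s • y)) (s • (fderiv ℝ f (b + s • v) : EV m)) v := by
  have h1 : HasFDerivAt (fun y : V m => s • y) (s • (ContinuousLinearMap.id ℝ (V m))) v :=
    (hasFDerivAt_id v).const_smul s
  have h2 : HasFDerivAt (fun y : V m => b + s • y)
      (s • (ContinuousLinearMap.id ℝ (V m))) v := h1.const_add b
  have h3 := HasFDerivAt.comp v hd.hasFDerivAt h2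
  rw [ContinuousLinearMap.comp_smul, ContinuousLinearMap.comp_id] at h3
  exact h3

private theorem isUnit_smul_of {s : ℝ} (hs : s ≠ 0) {A : EV m} (hA : IsUnit A) :
    IsUnit (s • A) := by
  have h : IsUnit (algebraMap ℝ (EV m) s) := (isUnit_iff_ne_zero.mpr hs).map (algebraMap ℝ (EV m))
  rw [Algebra.smul_def]
  exact h.mul hA

theorem rep_move (m : ℕ) (hm : 2 ≤ m) : ∃ δ₀ : ℝ, 0 < δ₀ ∧
    ∀ (f : V m → V m) (a a' : V m) (R R' : ℝ), 0 < R → 0 < R' →
    (∀ t ∈ Icc (0 : ℝ) 1,
      Imm (closedBall ((1 - t) • a + t • a') (2 * ((1 - t) * R + t * R'))) f ∧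
      Flat δ₀ (ann ((1 - t) • a + t • a') ((1 - t) * R + t * R')) f) →
    Iso (rep f a R) (rep f a' R') := by
  obtain ⟨δ₀, hδ₀, hcp⟩ := core_path m hm
  refine ⟨δ₀, hδ₀, fun f a a' R R' hR hR' h => ?_⟩
  have hpos : ∀ t ∈ Icc (0 : ℝ) 1, 0 < (1 - t) * R + t * R' := by
    intro t ht
    obtain ⟨h0, h1⟩ := ht
    rcases eq_or_lt_of_le h0 with h | h
    · rw [← h]; simpa using hR
    · have : 0 ≤ (1 - t) * R := mul_nonneg (by linarith) hR.le
      have := mul_pos h hR'
      linarith
  have hmem : ∀ t ∈ Icc (0 : ℝ) 1, ∀ v ∈ closedBall (0 : V m) 1,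
      ((1 - t) • a + t • a') + (2 * ((1 - t) * R + t * R')) • v ∈
        closedBall ((1 - t) • a + t • a') (2 * ((1 - t) * R + t * R')) := by
    intro t ht v hv
    rw [mem_closedBall, dist_zero_right] at hv
    rw [mem_closedBall, dist_eq_norm, add_sub_cancel_left, norm_smul, Real.norm_eq_abs,
      abs_of_pos (by have := hpos t ht; linarith)]
    have := hpos t ht
    nlinarith
  have key := hcp (fun p => f (((1 - p.1) • a + p.1 • a') +
    (2 * ((1 - p.1) * R + p.1 * R')) • p.2)) ?_ ?_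
  · have h0 : (core fun y => (fun p : ℝ × V m => f (((1 - p.1) • a + p.1 • a') +
        (2 * ((1 - p.1) * R + p.1 * R')) • p.2)) (0, y)) = rep f a R := by
      unfold rep
      congr 1
      funext y
      simp
    have h1 : (core fun y => (fun p : ℝ × V m => f (((1 - p.1) • a + p.1 • a') +
        (2 * ((1 - p.1) * R + p.1 * R')) • p.2)) (1, y)) = rep f a' R' := by
      unfold rep
      congr 1
      funext y
      simp
    rw [h0, h1] at key
    exact key
  · intro t ht v hv
    obtain ⟨hs, hu⟩ := (h t ht).1 _ (hmem t ht v hv)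
    have hR2 : (2 * ((1 - t) * R + t * R')) ≠ 0 := by
      have := hpos t ht
      positivity
    constructor
    · have h1 : ContDiffAt ℝ ∞ (fun p : ℝ × V m => ((1 - p.1) • a + p.1 • a') +
          (2 * ((1 - p.1) * R + p.1 * R')) • p.2) (t, v) := by
        have ht1 : ContDiffAt ℝ ∞ (fun p : ℝ × V m => p.1) (t, v) := contDiffAt_fst
        exact (((contDiffAt_const.sub ht1).smul contDiffAt_const).add
          (ht1.smul contDiffAt_const)).add ((contDiffAt_const.mul
          (((contDiffAt_const.sub ht1).mul contDiffAt_const).add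
            (ht1.mul contDiffAt_const))).smul contDiffAt_snd)
      exact ContDiffAt.comp (t, v) (f := fun p : ℝ × V m => ((1 - p.1) • a + p.1 • a') +
          (2 * ((1 - p.1) * R + p.1 * R')) • p.2) (g := f) hs h1
    · have hfd := hasFDerivAt_affine (hs.differentiableAt (by simp))
      change IsUnit (fderiv ℝ (fun y : V m => f (((1 - t) • a + t • a') +
          (2 * ((1 - t) * R + t * R')) • y)) v : EV m)
      rw [hfd.fderiv]
      exact isUnit_smul_of hR2 hu
  · intro t ht
    have h2 := (h t ht).2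
    have hp := hpos t ht
    have hR2 : (2 * ((1 - t) * R + t * R')) ≠ 0 := by positivity
    have hm2 := hmem t ht
    have hI := (h t ht).1
    change Flat δ₀ (ann 0 (1 / 2)) fun y : V m => f (((1 - t) • a + t • a') +
          (2 * ((1 - t) * R + t * R')) • y)
    clear hcp h hmem hpos
    generalize (1 - t) • a + t • a' = b at *
    generalize (1 - t) * R + t * R' = ρ at *
    refine flat_comp hR2 ?_ ?_
    · intro v hv
      have hv1 : v ∈ closedBall (0 : V m) 1 := by
        have := hv.2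
        rw [sub_zero] at this
        rw [mem_closedBall, dist_zero_right]; linarith
      obtain ⟨hs, hu⟩ := hI _ (hm2 v hv1)
      exact ⟨hs.differentiableAt (by simp), hu⟩
    · refine Flat.mono h2 le_rfl ?_
      rintro _ ⟨v, hv, rfl⟩
      obtain ⟨hv1, hv2⟩ := hv
      rw [sub_zero] at hv1 hv2
      have e : ‖(b + (2 * ρ) • v) - b‖ = (2 * ρ) * ‖v‖ := by
        rw [add_sub_cancel_left, norm_smul, Real.norm_eq_abs, abs_of_pos (by linarith)]
      constructor
      · change ρ ≤ ‖(b + (2 * ρ) • v) - b‖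
        rw [e]; nlinarith
      · change ‖(b + (2 * ρ) • v) - b‖ ≤ 2 * ρ
        rw [e]; nlinarith

end Pool.Agent.Lib.P28f
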