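import Mathlib

set_option autoImplicit false

/-!
# Critical finiteness for diffeomorphisms: local theory in `ℝ^m`, definitions

`V m = Fin m → ℝ` with the maximum norm (balls are cubes), `EV m` its continuous endomorphisms (a Banach algebra).
Only first derivatives are used. `Flat δ S f`: the derivative of `f` is multiplicatively constant up to `δ` on `S`.
`Ctrl δ c U f μ`: `f` is an immersion on `U` and is flat on `B(z, r/8)` whenever `B(z, r) ⊆ U` has `μ`-mass at most `c`
(`μ` is the energy measure, kept only as bookkeeping).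
`Dif`: immersions of `ℝ^m` which are the identity for `‖x‖ ≥ 3/4`; `Iso`: smooth paths in `Dif`.
`core f`: `f` normalised by the affine map that agrees with it to first order at the base point `w0` (`‖w0‖ = 3/4`), cut off to
the identity between the radii `1/2` and `3/4`; `rep f a R`: the same for `v ↦ f (a + 2 R v)`.
-/

open MeasureTheory Set Metric
open scoped ContDiff

namespace Pool.Agent.Lib.P28f

/-- `ℝ^m` with the maximum norm. -/
abbrev V (m : ℕ) : Type := Fin m → ℝ

/-- Continuous endomorphisms of `ℝ^m`. -/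
abbrev EV (m : ℕ) : Type := V m →L[ℝ] V m

variable {m : ℕ}

/-- `f` is smooth with invertible derivative at each point of `U`. -/
def Imm (U : Set (V m)) (f : V m → V m) : Prop :=
  ∀ x ∈ U, ContDiffAt ℝ ∞ f x ∧ IsUnit (fderiv ℝ f x : EV m)

/-- The derivative of `f` is multiplicatively constant up to `δ` on `S`. -/
def Flat (δ : ℝ) (S : Set (V m)) (f : V m → V m) : Prop :=
  ∀ x ∈ S, ∀ y ∈ S, ‖Ring.inverse (fderiv ℝ f x : EV m) * fderiv ℝ f y - 1‖ ≤ δ

/-- The closed annulus `R ≤ |x - a| ≤ 2 R`. -/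
def ann (a : V m) (R : ℝ) : Set (V m) := {x | R ≤ ‖x - a‖ ∧ ‖x - a‖ ≤ 2 * R}

/-- `f` is an immersion on `U`, flat on `B(z, r/8)` whenever the ball `B(z, r) ⊆ U` has mass at most `c`. -/
structure Ctrl (δ c : ℝ) (U : Set (V m)) (f : V m → V m) (μ : Measure (V m)) : Prop where
  imm : Imm U f
  flat : ∀ (z : V m) (r : ℝ), 0 < r → closedBall z r ⊆ U → μ.real (closedBall z r) ≤ c →
    Flat δ (closedBall z (r / 8)) f

/-- Immersions of `ℝ^m` equal to the identity for `‖x‖ ≥ 3/4`. -/
structure Dif (h : V m → V m) : Prop where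
  smooth : ContDiff ℝ ∞ h
  unit : ∀ x, IsUnit (fderiv ℝ h x : EV m)
  supp : ∀ x, 3 / 4 ≤ ‖x‖ → h x = x

/-- Smooth paths in `Dif`. -/
def Iso (h h' : V m → V m) : Prop :=
  ∃ K : ℝ × V m → V m, ContDiff ℝ ∞ K ∧ (∀ t, Dif fun x => K (t, x)) ∧
    (∀ x, K (0, x) = h x) ∧ ∀ x, K (1, x) = h' x

/-- The base point, of norm `3/4` (for `m ≥ 1`). -/
noncomputable def w0 (m : ℕ) : V m := fun i => if (i : ℕ) = 0 then 3 / 4 else 0

/-- The cut-off function: `1` for `‖v‖ ≤ 1/2`, `0` for `‖v‖ ≥ 3/4`. -/
noncomputable def cut (m : ℕ) : ContDiffBump (0 : V m) := ⟨1 / 2, 3 / 4, by norm_num, by norm_num⟩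

/-- `f` normalised at the base point: `nrm f (w0) = w0`, `d (nrm f) (w0) = 1`. -/
noncomputable def nrm (f : V m → V m) (v : V m) : V m :=
  w0 m + Ring.inverse (fderiv ℝ f (w0 m) : EV m) (f v - f (w0 m))

/-- `nrm f` for `‖v‖ ≤ 1/2`, the identity for `‖v‖ ≥ 3/4`. -/
noncomputable def core (f : V m → V m) (v : V m) : V m := v + cut m v • (nrm f v - v)

/-- The local representative of `f` at `a` at the scale `R`. -/
noncomputable def rep (f : V m → V m) (a : V m) (R : ℝ) : V m → V m :=
  core fun v => f (a + (2 * R) • v)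

/-- The class of a map of the unit ball. -/
noncomputable def cls (f : V m → V m) : V m → V m := rep f 0 (1 / 4)

/-- Controlled maps of the unit ball of mass at most `E` with small mass near the boundary. -/
structure Loc (δ c E : ℝ) (f : V m → V m) (μ : Measure (V m)) : Prop where
  fin : IsFiniteMeasure μ
  atom : ∀ x, μ {x} = 0
  ctrl : Ctrl δ c (ball 0 1) f μ
  mass : μ.real (ball 0 1) ≤ E
  collar : μ.real (ball 0 1 \ closedBall 0 (1 / 16)) ≤ c / 4

/-- No ball of radius at most `1/64` carries mass `E - c/8`. -/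
def Light (c E : ℝ) (μ : Measure (V m)) : Prop :=
  ∀ (z : V m) (r : ℝ), 0 < r → r ≤ 1 / 64 → closedBall z r ⊆ ball 0 1 →
    μ.real (closedBall z r) < E - c / 8

/-- Finitely many classes (sequence version). -/
def FinCls (m : ℕ) (δ c E : ℝ) : Prop :=
  ∀ (f : ℕ → V m → V m) (μ : ℕ → Measure (V m)), (∀ j, Loc δ c E (f j) (μ j)) →
    ∃ i j, i ≠ j ∧ Iso (cls (f i)) (cls (f j))

/-- A fixed non-principal ultrafilter on the natural numbers. -/
noncomputable def ult : Ultrafilter ℕ := Filter.hyperfilter ℕ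

/-- Points at which, for almost all `j`, the measures `μ j` give mass `> c` to every neighbourhood. -/
def Bad (c : ℝ) (μ : ℕ → Measure (V m)) : Set (V m) :=
  {a | a ∈ ball (0 : V m) 1 ∧ ∀ r : ℝ, 0 < r → ∀ᶠ j in (ult : Filter ℕ), c < (μ j).real (closedBall a r)}

/-- The affine map that agrees with `f` to first order at the base point of the annulus `ann a R`. -/
noncomputable def aff (f : V m → V m) (a : V m) (R : ℝ) (y : V m) : V m :=
  f (a + (2 * R) • w0 m) + fderiv ℝ f (a + (2 * R) • w0 m) (y - (a + (2 * R) • w0 m))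

/-- The second cut-off function: `1` for `‖v‖ ≤ 3/4`, `0` for `‖v‖ ≥ 7/8`. -/
noncomputable def cut2 (m : ℕ) : ContDiffBump (0 : V m) := ⟨3 / 4, 7 / 8, by norm_num, by norm_num⟩

/-- `f` with the core `k` inserted at `a` at the scale `R`. -/
noncomputable def ins (f : V m → V m) (a : V m) (R : ℝ) (k : V m → V m) (x : V m) : V m :=
  f x + cut2 m ((2 * R)⁻¹ • (x - a)) •
    (aff f a R (a + (2 * R) • k ((2 * R)⁻¹ • (x - a))) - f x)

/-- The measure in the coordinates `v`, `x = a + s v`. -/
noncomputable def pull (a : V m) (s : ℝ) (μ : Measure (V m)) : Measure (V m) :=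
  μ.map fun x => s⁻¹ • (x - a)

end Pool.Agent.Lib.P28f
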