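import Pool.Agent.Lib.P28f.Defs

set_option autoImplicit false

/-!
# Critical energy, averages over balls of variable radius, compactly supported isotopies: definitions
-/

open MeasureTheory Set Metric
open scoped ContDiff Topology

namespace Pool.Agent.Lib.P28f

variable {m : ℕ}

/-- `v ↦ (df x)⁻¹ ∘ D²f x (v, ·)`. -/
noncomputable def cn (f : V m → V m) (x : V m) : V m →L[ℝ] EV m :=
  (ContinuousLinearMap.compL ℝ (V m) (V m) (V m) (Ring.inverse (fderiv ℝ f x : EV m))).comp
    (fderiv ℝ (fderiv ℝ f) x)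

/-- The energy measure, with density `‖(df x)⁻¹ D²f x‖ ^ m` (the critical exponent). -/
noncomputable def eng (f : V m → V m) : Measure (V m) :=
  volume.withDensity fun x => ‖cn f x‖ₑ ^ m

/-- Average of `f` over the ball of radius `t * s z` around `z`. -/
noncomputable def vavg (f : V m → V m) (s : V m → ℝ) (t : ℝ) (z : V m) : V m :=
  (volume.real (closedBall (0 : V m) 1))⁻¹ •
    ∫ η in closedBall (0 : V m) 1, f (z + (t * s z) • η)

/-- Smooth paths of immersions with uniformly compact support. -/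
def IsoC (f g : V m → V m) : Prop :=
  ∃ (K : ℝ × V m → V m) (R : ℝ), ContDiff ℝ ∞ K ∧
    (∀ t x, IsUnit (fderiv ℝ (fun y => K (t, y)) x : EV m)) ∧
    (∀ t x, R ≤ ‖x‖ → K (t, x) = x) ∧ (∀ x, K (0, x) = f x) ∧ ∀ x, K (1, x) = g x

end Pool.Agent.Lib.P28f
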