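import Pool.Agent.Lib.P28f.EDefs
import Pool.Agent.Lib.P28f.IsoRel

set_option autoImplicit false

/-!
# `IsoC` is an equivalence relation; rescaling

PROOF SKETCH. As in `IsoRel` (reparametrise with `Real.smoothTransition`). `scale`: `K (t, x) = λ_t⁻¹ • f (λ_t • x)` with `λ_t = 1 + φ(t) (λ - 1) > 0`, `φ = Real.smoothTransition`; the derivative in
`x` is `fderiv f (λ_t x)`; for `‖x‖ ≥ R / min 1 λ` it is the identity (if `R ≤ 0` use `0`).
-/

open MeasureTheory Set Metric
open scoped ContDiff Topology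

namespace Pool.Agent.Lib.P28f

variable {m : ℕ}

private lemma st_smoothC : ContDiff ℝ ∞ Real.smoothTransition := Real.smoothTransition.contDiff

private lemma st_memC (t : ℝ) : Real.smoothTransition t ∈ Icc (0 : ℝ) 1 :=
  ⟨Real.smoothTransition.nonneg t, Real.smoothTransition.le_one t⟩

theorem IsoC.of_Icc {K : ℝ × V m → V m} {R : ℝ}
    (hK : ∀ t ∈ Icc (0 : ℝ) 1, ∀ x, ContDiffAt ℝ ∞ K (t, x))
    (hu : ∀ t ∈ Icc (0 : ℝ) 1, ∀ x, IsUnit (fderiv ℝ (fun y => K (t, y)) x : EV m))
    (hR : ∀ t ∈ Icc (0 : ℝ) 1, ∀ x, R ≤ ‖x‖ → K (t, x) = x) :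
    IsoC (fun x => K (0, x)) (fun x => K (1, x)) := by
  refine ⟨fun p => K (Real.smoothTransition p.1, p.2), R, ?_, ?_, ?_, ?_, ?_⟩
  · rw [contDiff_iff_contDiffAt]
    intro p
    have h : ContDiff ℝ ∞ (fun q : ℝ × V m => (Real.smoothTransition q.1, q.2)) :=
      (st_smoothC.comp contDiff_fst).prodMk contDiff_snd
    exact ContDiffAt.comp p (g := K) (hK _ (st_memC _) _) h.contDiffAt
  · intro t
    exact hu _ (st_memC t)
  · intro t
    exact hR _ (st_memC t)
  · intro x
    show K (Real.smoothTransition 0, x) = K (0, x)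
    rw [Real.smoothTransition.zero]
  · intro x
    show K (Real.smoothTransition 1, x) = K (1, x)
    rw [Real.smoothTransition.one]

theorem IsoC.symm {f g : V m → V m} (h : IsoC f g) : IsoC g f := by
  obtain ⟨K, R, h1, h2, h3, h4, h5⟩ := h
  refine ⟨fun p => K (1 - p.1, p.2), R, ?_, fun t => h2 (1 - t), fun t => h3 (1 - t), ?_, ?_⟩
  · exact h1.comp ((contDiff_const.sub contDiff_fst).prodMk contDiff_snd)
  · intro x
    show K (1 - 0, x) = g x
    rw [sub_zero, h5]
  · intro x
    show K (1 - 1, x) = f x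
    rw [sub_self, h4]

theorem IsoC.trans {f g k : V m → V m} (h : IsoC f g) (h' : IsoC g k) : IsoC f k := by
  classical
  obtain ⟨K, R, h1, h2, hR, h3, h4⟩ := h
  obtain ⟨K', R', h1', h2', hR', h3', h4'⟩ := h'
  let G1 : ℝ × V m → V m := fun p => K (Real.smoothTransition (3 * p.1), p.2)
  let G2 : ℝ × V m → V m := fun p => K' (Real.smoothTransition (3 * p.1 - 2), p.2)
  have hG1 : ContDiff ℝ ∞ G1 :=
    h1.comp ((st_smoothC.comp (contDiff_const.mul contDiff_fst)).prodMk contDiff_snd)
  have hG2 : ContDiff ℝ ∞ G2 :=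
    h1'.comp ((st_smoothC.comp ((contDiff_const.mul contDiff_fst).sub contDiff_const)).prodMk
      contDiff_snd)
  have hmid : ∀ p : ℝ × V m, 1 / 2 ≤ p.1 → p.1 < 2 / 3 → G2 p = G1 p := by
    intro p hp1 hp2
    show K' (Real.smoothTransition (3 * p.1 - 2), p.2) = K (Real.smoothTransition (3 * p.1), p.2)
    rw [Real.smoothTransition.zero_of_nonpos (by linarith),
      Real.smoothTransition.one_of_one_le (by linarith), h3', h4]
  let H : ℝ × V m → V m := fun p => if p.1 < 1 / 2 then G1 p else G2 p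
  have e1 : ∀ t : ℝ, t < 1 / 2 →
      (fun x => H (t, x)) = fun x => K (Real.smoothTransition (3 * t), x) := by
    intro t ht
    funext x
    simp only [H, G1, if_pos ht]
  have e2 : ∀ t : ℝ, ¬ t < 1 / 2 →
      (fun x => H (t, x)) = fun x => K' (Real.smoothTransition (3 * t - 2), x) := by
    intro t ht
    funext x
    simp only [H, G2, if_neg ht]
  refine ⟨H, max R R', ?_, ?_, ?_, ?_, ?_⟩
  · rw [contDiff_iff_contDiffAt]
    intro p
    by_cases hp : p.1 < 2 / 3
    · refine hG1.contDiffAt.congr_of_eventuallyEq ?_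
      have hopen : IsOpen {q : ℝ × V m | q.1 < 2 / 3} := isOpen_lt continuous_fst continuous_const
      filter_upwards [hopen.mem_nhds hp] with q hq
      by_cases hq' : q.1 < 1 / 2
      · simp only [H, if_pos hq']
      · simp only [H, if_neg hq']
        exact hmid q (not_lt.mp hq') hq
    · refine hG2.contDiffAt.congr_of_eventuallyEq ?_
      have hopen : IsOpen {q : ℝ × V m | 1 / 2 < q.1} := isOpen_lt continuous_const continuous_fst
      have hp' : p ∈ {q : ℝ × V m | 1 / 2 < q.1} := by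
        show 1 / 2 < p.1
        linarith [not_lt.mp hp]
      filter_upwards [hopen.mem_nhds hp'] with q hq
      have hq' : ¬ q.1 < 1 / 2 := not_lt.mpr (le_of_lt hq)
      simp only [H, if_neg hq']
  · intro t x
    by_cases ht : t < 1 / 2
    · rw [e1 t ht]
      exact h2 _ x
    · rw [e2 t ht]
      exact h2' _ x
  · intro t x hx
    by_cases ht : t < 1 / 2
    · exact (congrFun (e1 t ht) x).trans (hR _ x ((le_max_left _ _).trans hx))
    · exact (congrFun (e2 t ht) x).trans (hR' _ x ((le_max_right _ _).trans hx))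
  · intro x
    have h0 : (0 : ℝ) < 1 / 2 := by norm_num
    simp only [H, G1, if_pos h0]
    rw [mul_zero, Real.smoothTransition.zero, h3]
  · intro x
    have h0 : ¬ (1 : ℝ) < 1 / 2 := by norm_num
    simp only [H, G2, if_neg h0]
    rw [Real.smoothTransition.one_of_one_le (by norm_num), h4']

theorem Iso.toC {f g : V m → V m} (h : Iso f g) : IsoC f g := by
  obtain ⟨K, h1, h2, h3, h4⟩ := h
  exact ⟨K, 3 / 4, h1, fun t x => (h2 t).unit x, fun t x hx => (h2 t).supp x hx, h3, h4⟩

theorem IsoC.scale {f : V m → V m} (hf : ContDiff ℝ ∞ f)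
    (hu : ∀ x, IsUnit (fderiv ℝ f x : EV m)) {R : ℝ} (hR : ∀ x, R ≤ ‖x‖ → f x = x) {l : ℝ}
    (hl : 0 < l) : IsoC f (fun x => l⁻¹ • f (l • x)) := by
  let L : ℝ → ℝ := fun t => 1 + Real.smoothTransition t * (l - 1)
  have hLs : ContDiff ℝ ∞ L := contDiff_const.add (st_smoothC.mul contDiff_const)
  have hmin : 0 < min 1 l := lt_min one_pos hl
  have hLmin : ∀ t, min 1 l ≤ L t := by
    intro t
    obtain ⟨h0, h1⟩ := st_memC t
    show min 1 l ≤ 1 + Real.smoothTransition t * (l - 1)
    rcases le_total 1 l with h | h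
    · rw [min_eq_left h]
      nlinarith
    · rw [min_eq_right h]
      nlinarith
  have hLpos : ∀ t, 0 < L t := fun t => hmin.trans_le (hLmin t)
  refine ⟨fun p => (L p.1)⁻¹ • f (L p.1 • p.2), |R| / min 1 l, ?_, ?_, ?_, ?_, ?_⟩
  · have h1 : ContDiff ℝ ∞ (fun p : ℝ × V m => L p.1) := hLs.comp contDiff_fst
    have h2 : ContDiff ℝ ∞ (fun p : ℝ × V m => (L p.1)⁻¹) := h1.inv fun p => (hLpos p.1).ne'
    exact h2.smul (hf.comp (h1.smul contDiff_snd))
  · intro t x
    have hne := (hLpos t).ne'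
    have d : DifferentiableAt ℝ f (L t • x) := hf.differentiable (by simp) _
    have h1 : HasFDerivAt (fun y : V m => L t • y) (L t • (1 : EV m)) x :=
      (hasFDerivAt_id x).const_smul (L t)
    have h2 : HasFDerivAt (fun y : V m => (L t)⁻¹ • f (L t • y))
        ((L t)⁻¹ • ((fderiv ℝ f (L t • x) : EV m).comp (L t • (1 : EV m)))) x :=
      (d.hasFDerivAt.comp x h1).const_smul (L t)⁻¹
    have h3 : (L t)⁻¹ • ((fderiv ℝ f (L t • x) : EV m).comp (L t • (1 : EV m))) =
        fderiv ℝ f (L t • x) := by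
      ext w i
      simp [hne]
    rw [h3] at h2
    show IsUnit (fderiv ℝ (fun y : V m => (L t)⁻¹ • f (L t • y)) x : EV m)
    rw [h2.fderiv]
    exact hu _
  · intro t x hx
    have h1 : R ≤ ‖L t • x‖ := by
      rw [norm_smul, Real.norm_of_nonneg (hLpos t).le]
      have h2 : |R| ≤ min 1 l * ‖x‖ := by
        rw [div_le_iff₀ hmin] at hx
        linarith
      have h3 : min 1 l * ‖x‖ ≤ L t * ‖x‖ := mul_le_mul_of_nonneg_right (hLmin t) (norm_nonneg _)
      linarith [le_abs_self R]
    show (L t)⁻¹ • f (L t • x) = x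
    rw [hR _ h1, smul_smul, inv_mul_cancel₀ (hLpos t).ne', one_smul]
  · intro x
    have h0 : L 0 = 1 := by
      show 1 + Real.smoothTransition 0 * (l - 1) = 1
      rw [Real.smoothTransition.zero]
      ring
    show (L 0)⁻¹ • f (L 0 • x) = f x
    rw [h0]
    simp
  · intro x
    have h0 : L 1 = l := by
      show 1 + Real.smoothTransition 1 * (l - 1) = l
      rw [Real.smoothTransition.one]
      ring
    show (L 1)⁻¹ • f (L 1 • x) = l⁻¹ • f (l • x)
    rw [h0]

end Pool.Agent.Lib.P28f
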