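import Pool.Agent.Lib.P28f.Defs

set_option autoImplicit false

/-!
# The radius function

PROOF SKETCH. `σ z = sSup {r | 0 < r ∧ r ≤ P ∧ μ.real (closedBall z r) ≤ c}`. The set is not empty: `μ.real (closedBall z r) → μ.real {z} = 0` as `r → 0` (continuity from above). It is
downward closed in `(0, P]`, so `9/10 σ z` belongs to it. If `r` is admissible for `x` and `r > ‖x - y‖` then `r - ‖x - y‖` is admissible for `y`; hence `σ x ≤ σ y + ‖x - y‖`: `σ` is
`1`-Lipschitz. For `‖z‖ > R₀ + P` the ball `closedBall z P` has measure `0`, so `σ z = P`; with continuity and positivity on the compact ball there is `σ₀ > 0` with `σ ≥ σ₀` everywhere.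
`s = ε • (ρ ⋆ σ)` with the normed bump function `ρ` of radius `σ₀ / 4` (`ContDiffBump.normed`, convolution with `ContinuousLinearMap.lsmul`): smooth
(`HasCompactSupport.contDiff_convolution_left`), `ε`-Lipschitz (so `‖fderiv‖ ≤ ε`: `norm_fderiv_le_of_lipschitz`), and `|ρ ⋆ σ - σ| ≤ σ₀ / 4 ≤ σ / 4` (`ContDiffBump.dist_normed_convolution_le`).
-/

open MeasureTheory Set Metric
open scoped ContDiff Topology

namespace Pool.Agent.Lib.P28f

variable {m : ℕ}

/-- Admissible radii. -/
private def AdmR (μ : Measure (V m)) (c P : ℝ) (z : V m) : Set ℝ :=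
  {r | 0 < r ∧ r ≤ P ∧ μ.real (closedBall z r) ≤ c}

private lemma admR_nonempty {μ : Measure (V m)} [IsFiniteMeasure μ] (hatom : ∀ x, μ {x} = 0)
    {c P : ℝ} (hc : 0 < c) (hP : 0 < P) (z : V m) : (AdmR μ c P z).Nonempty := by
  have hlim0 : Filter.Tendsto (fun r => μ (cthickening r {z})) (𝓝 0) (𝓝 (μ {z})) :=
    tendsto_measure_cthickening_of_isCompact isCompact_singleton
  rw [hatom z] at hlim0
  have h6 : ∀ᶠ r in 𝓝 (0 : ℝ), μ (cthickening r {z}) < ENNReal.ofReal c :=
    hlim0.eventually (gt_mem_nhds (ENNReal.ofReal_pos.mpr hc))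
  obtain ⟨δ, hδ, h7⟩ := Metric.eventually_nhds_iff.mp h6
  set r : ℝ := min (δ / 2) P with hr
  have hr0 : 0 < r := lt_min (by linarith) hP
  have hrδ : r < δ := (min_le_left _ _).trans_lt (by linarith)
  have h8 := h7 (y := r) (by rw [Real.dist_eq, sub_zero, abs_of_pos hr0]; exact hrδ)
  rw [cthickening_singleton _ hr0.le] at h8
  refine ⟨r, hr0, min_le_right _ _, ?_⟩
  rw [measureReal_def]
  exact ((ENNReal.lt_ofReal_iff_toReal_lt (measure_ne_top _ _)).mp h8).le

private lemma admR_bdd (μ : Measure (V m)) (c P : ℝ) (z : V m) : BddAbove (AdmR μ c P z) :=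
  ⟨P, fun _ hr => hr.2.1⟩

private lemma admR_down {μ : Measure (V m)} [IsFiniteMeasure μ] {c P : ℝ} {z : V m} {r r' : ℝ}
    (h : r ∈ AdmR μ c P z) (h0 : 0 < r') (hr : r' ≤ r) : r' ∈ AdmR μ c P z :=
  ⟨h0, hr.trans h.2.1, (measureReal_mono (closedBall_subset_closedBall hr)).trans h.2.2⟩

private lemma lipschitz_fderiv {s : V m → ℝ} {ε : ℝ} (hε : 0 ≤ ε)
    (h : ∀ x y, |s x - s y| ≤ ε * ‖x - y‖) (z : V m) : ‖fderiv ℝ s z‖ ≤ ε := by
  have h1 : LipschitzWith ⟨ε, hε⟩ s := by
    refine LipschitzWith.of_dist_le_mul fun x y => ?_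
    rw [Real.dist_eq, dist_eq_norm]
    exact h x y
  exact norm_fderiv_le_of_lipschitz ℝ h1

theorem exists_radius {μ : Measure (V m)} [IsFiniteMeasure μ] (hatom : ∀ x, μ {x} = 0) {R₀ : ℝ}
    (hsupp : μ (closedBall 0 R₀)ᶜ = 0) {c P ε : ℝ} (hc : 0 < c) (hP : 0 < P) (hε : 0 < ε) :
    ∃ σ s : V m → ℝ, (∀ z, 0 < σ z ∧ σ z ≤ P) ∧
      (∀ z, μ.real (closedBall z (9 / 10 * σ z)) ≤ c) ∧
      (∀ (z : V m) (r : ℝ), 0 < r → r ≤ P → μ.real (closedBall z r) ≤ c → r ≤ σ z) ∧
      (∀ x y, σ x ≤ σ y + ‖x - y‖) ∧ ContDiff ℝ ∞ s ∧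
      (∀ z, ε / 2 * σ z ≤ s z ∧ s z ≤ 2 * ε * σ z) ∧ ∀ z, ‖fderiv ℝ s z‖ ≤ ε := by
  set σ : V m → ℝ := fun z => sSup (AdmR μ c P z) with hσdef
  have hne := fun z => admR_nonempty (μ := μ) hatom hc hP z
  have hbdd := fun z => admR_bdd μ c P z
  have hσ1 : ∀ z, 0 < σ z ∧ σ z ≤ P := by
    intro z
    obtain ⟨r, hr⟩ := hne z
    exact ⟨hr.1.trans_le (le_csSup (hbdd z) hr), csSup_le (hne z) fun r hr => hr.2.1⟩
  have hσ2 : ∀ z, μ.real (closedBall z (9 / 10 * σ z)) ≤ c := by
    intro z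
    have h1 : 9 / 10 * σ z < σ z := by linarith [(hσ1 z).1]
    obtain ⟨r, hr, hlt⟩ := exists_lt_of_lt_csSup (hne z) h1
    exact (admR_down hr (by linarith [(hσ1 z).1]) hlt.le).2.2
  have hσ3 : ∀ (z : V m) (r : ℝ), 0 < r → r ≤ P → μ.real (closedBall z r) ≤ c → r ≤ σ z :=
    fun z r h1 h2 h3 => le_csSup (hbdd z) ⟨h1, h2, h3⟩
  have hσ4 : ∀ x y, σ x ≤ σ y + ‖x - y‖ := by
    intro x y
    refine csSup_le (hne x) fun r hr => ?_
    by_cases h : r ≤ ‖x - y‖
    · linarith [(hσ1 y).1]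
    · push Not at h
      have hsub : closedBall y (r - ‖x - y‖) ⊆ closedBall x r := by
        refine closedBall_subset_closedBall' ?_
        rw [dist_comm, dist_eq_norm]
        linarith
      have h1 : r - ‖x - y‖ ≤ σ y :=
        hσ3 y _ (by linarith) (by linarith [norm_nonneg (x - y), hr.2.1])
          ((measureReal_mono hsub).trans hr.2.2)
      linarith
  have habs : ∀ x y, |σ x - σ y| ≤ ‖x - y‖ := by
    intro x y
    rw [abs_le]
    have h1 := hσ4 x y
    have h2 := hσ4 y x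
    rw [norm_sub_rev] at h2
    constructor <;> linarith
  have hlip : LipschitzWith 1 σ := by
    refine LipschitzWith.of_dist_le_mul fun x y => ?_
    rw [Real.dist_eq, dist_eq_norm, NNReal.coe_one, one_mul]
    exact habs x y
  have hcont : Continuous σ := hlip.continuous
  -- lower bound
  obtain ⟨σ₀, hσ0, hσl⟩ : ∃ σ₀ : ℝ, 0 < σ₀ ∧ ∀ z, σ₀ ≤ σ z := by
    have hcpt : IsCompact (closedBall (0 : V m) (max (R₀ + P) 0)) := isCompact_closedBall _ _
    have hne0 : (closedBall (0 : V m) (max (R₀ + P) 0)).Nonempty :=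
      ⟨0, mem_closedBall_self (le_max_right _ _)⟩
    obtain ⟨w, _, hw⟩ := hcpt.exists_isMinOn hne0 hcont.continuousOn
    refine ⟨min P (σ w), lt_min hP (hσ1 w).1, fun z => ?_⟩
    by_cases hz : z ∈ closedBall (0 : V m) (max (R₀ + P) 0)
    · exact (min_le_right _ _).trans (hw hz)
    · refine (min_le_left _ _).trans (hσ3 z P hP le_rfl ?_)
      rw [mem_closedBall_zero_iff, not_le] at hz
      have hz' : R₀ + P < ‖z‖ := (le_max_left _ _).trans_lt hz
      have hsub : closedBall z P ⊆ (closedBall (0 : V m) R₀)ᶜ := by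
        intro x hx hx'
        rw [mem_closedBall, dist_eq_norm] at hx
        rw [mem_closedBall_zero_iff] at hx'
        have h1 : ‖z‖ ≤ ‖x‖ + ‖x - z‖ := by
          calc ‖z‖ = ‖x - (x - z)‖ := by congr 1; abel
            _ ≤ ‖x‖ + ‖x - z‖ := norm_sub_le _ _
        linarith
      have h0 : μ (closedBall z P) = 0 := measure_mono_null hsub hsupp
      rw [measureReal_def, h0]
      simpa using hc.le
  -- mollification
  let φ : ContDiffBump (0 : V m) := ⟨σ₀ / 8, σ₀ / 4, by linarith, by linarith⟩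
  set g : V m → ℝ := MeasureTheory.convolution (φ.normed volume) σ
    (ContinuousLinearMap.lsmul ℝ ℝ) volume with hg
  have hgs : ContDiff ℝ ∞ g :=
    HasCompactSupport.contDiff_convolution_left (ContinuousLinearMap.lsmul ℝ ℝ)
      φ.hasCompactSupport_normed φ.contDiff_normed hcont.locallyIntegrable
  have hgx : ∀ x, g x = ∫ t, φ.normed volume t * σ (x - t) := fun x => rfl
  have hint : ∀ x, Integrable (fun t => φ.normed volume t * σ (x - t)) volume := by
    intro x
    have h1 : Continuous fun t => φ.normed volume t * σ (x - t) :=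
      φ.continuous_normed.mul (hcont.comp (continuous_const.sub continuous_id))
    exact h1.integrable_of_hasCompactSupport (φ.hasCompactSupport_normed.mul_right)
  have hclose : ∀ z, |g z - σ z| ≤ σ₀ / 4 := by
    intro z
    have h1 := ContDiffBump.dist_normed_convolution_le (φ := φ) (μ := (volume : Measure (V m)))
      (g := σ) (x₀ := z) (ε := σ₀ / 4) hcont.aestronglyMeasurable (by
        intro x hx
        rw [mem_ball, dist_eq_norm] at hx
        rw [Real.dist_eq]
        exact (habs x z).trans (le_of_lt hx))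
    rw [Real.dist_eq] at h1
    exact h1
  have hgl : ∀ x y, |g x - g y| ≤ ‖x - y‖ := by
    intro x y
    rw [hgx, hgx, ← integral_sub (hint x) (hint y)]
    have h1 : ∀ t, ‖φ.normed volume t * σ (x - t) - φ.normed volume t * σ (y - t)‖ ≤
        φ.normed volume t * ‖x - y‖ := by
      intro t
      rw [← mul_sub, norm_mul, Real.norm_of_nonneg (φ.nonneg_normed t), Real.norm_eq_abs]
      refine mul_le_mul_of_nonneg_left ?_ (φ.nonneg_normed t)
      have h2 := habs (x - t) (y - t)
      rwa [sub_sub_sub_cancel_right] at h2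
    have h3 : Integrable (fun t => φ.normed volume t * ‖x - y‖) volume :=
      φ.integrable_normed.mul_const _
    rw [← Real.norm_eq_abs]
    refine (norm_integral_le_of_norm_le h3 (Filter.Eventually.of_forall h1)).trans ?_
    rw [integral_mul_const, φ.integral_normed, one_mul]
  refine ⟨σ, fun z => ε * g z, hσ1, hσ2, hσ3, hσ4, ?_, ?_, ?_⟩
  · exact contDiff_const.mul hgs
  · intro z
    have h1 := abs_le.mp (hclose z)
    have h2 := hσl z
    have h3 := (hσ1 z).1
    constructor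
    · have h4 : σ z / 2 ≤ g z := by linarith [h1.1]
      calc ε / 2 * σ z = ε * (σ z / 2) := by ring
        _ ≤ ε * g z := mul_le_mul_of_nonneg_left h4 hε.le
    · have h4 : g z ≤ 2 * σ z := by linarith [h1.2]
      calc ε * g z ≤ ε * (2 * σ z) := mul_le_mul_of_nonneg_left h4 hε.le
        _ = 2 * ε * σ z := by ring
  · intro z
    refine lipschitz_fderiv hε.le (fun x y => ?_) z
    rw [← mul_sub, abs_mul, abs_of_pos hε]
    exact mul_le_mul_of_nonneg_left (hgl x y) hε.le

end Pool.Agent.Lib.P28f
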