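import Pool.Agent.Lib.P28f.EDefs
import Pool.Agent.Lib.P28e.AvgClose

set_option autoImplicit false

/-!
# Averages over balls of variable radius

PROOF SKETCH. `vavg_smooth`: `Pool.Agent.Lib.P28e.AvgSmoothAux.contDiffOn_param` (or the theorem of that name in `P28e.AvgSmooth`) with `Ω = univ`, `O = univ`, `K = closedBall 0 1`.
`vavg_zero`, `vavg_eq_self`: the integrand is constant, resp. `z + (t s z) η` with mean `z` (the mean of `η` over the symmetric ball is `0`).
`vavg_close`: differentiate under the integral (`hasFDerivAt_param` in `P28e.AvgClose`): `fderiv (vavg f s t) z v` is the mean of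
`fderiv f (z + (t s z) η) (v + (t * fderiv s z v) • η)`. Hence `M⁻¹ fderiv (vavg f s t) z - 1` = mean of `(M⁻¹ fderiv f (..) - 1) (1 + η ⊗ t ds)`, because the mean of `η` is `0`; its norm is
`≤ (1 + 1/8) ε'`. (This is `avg_close` of `P28e.AvgClose` with `rad` replaced by `s` and no homogeneity.)
-/

open MeasureTheory Set Metric
open scoped ContDiff Topology Pointwise

namespace Pool.Agent.Lib.P28f

variable {m : ℕ}

namespace VAvgAux

theorem vol_pos : 0 < volume.real (closedBall (0 : V m) 1) :=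
  ENNReal.toReal_pos (measure_closedBall_pos volume 0 one_pos).ne' measure_closedBall_lt_top.ne

theorem integral_ball_id : ∫ η in closedBall (0 : V m) 1, η = 0 := by
  have h1 : ∫ η in closedBall (0 : V m) 1, η = ∫ η in closedBall (0 : V m) 1, -η := by
    have hpre : (fun η : V m => -η) ⁻¹' closedBall 0 1 = closedBall 0 1 := by
      ext η
      simp
    have h2 := (Measure.measurePreserving_neg (volume : Measure (V m))).setIntegral_preimage_emb
      (MeasurableEquiv.neg (V m)).measurableEmbedding (fun η => η) (closedBall 0 1)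
    rw [hpre] at h2
    exact h2.symm
  rw [integral_neg] at h1
  exact self_eq_neg.1 h1

theorem integral_affine (v : V m) (t : ℝ) :
    ∫ η in closedBall (0 : V m) 1, (v + t • η) = volume.real (closedBall (0 : V m) 1) • v := by
  have hint5 : IntegrableOn (fun η : V m => t • η) (closedBall (0 : V m) 1) :=
    ContinuousOn.integrableOn_compact (isCompact_closedBall 0 1) (by fun_prop)
  rw [integral_add (integrable_const_iff.2 (Or.inr ⟨by
    rw [Measure.restrict_apply_univ]; exact measure_closedBall_lt_top⟩)) hint5,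
    integral_smul, integral_ball_id, smul_zero, add_zero, setIntegral_const]

theorem mean_le {g : V m → EV m} (hg : Continuous g) {z : V m} {ρ ε : ℝ} (hρ : 0 < ρ)
    (hε : 0 ≤ ε)
    (h : ∫⁻ x in closedBall z ρ, ‖g x‖ₑ ≤ ENNReal.ofReal ε * volume (closedBall z ρ)) :
    ∫ η in closedBall (0 : V m) 1, ‖g (z + ρ • η)‖ ≤
      ε * volume.real (closedBall (0 : V m) 1) := by
  have hVne : volume (closedBall z ρ) ≠ ⊤ := measure_closedBall_lt_top.ne
  have h1 : ∫ x in closedBall z ρ, ‖g x‖ ≤ ε * volume.real (closedBall z ρ) := by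
    rw [← ENNReal.ofReal_le_ofReal_iff (by positivity),
      ofReal_integral_norm_eq_lintegral_enorm
        (hg.continuousOn.integrableOn_compact (isCompact_closedBall z ρ)),
      ENNReal.ofReal_mul hε, Measure.real, ENNReal.ofReal_toReal hVne]
    exact h
  have h3 : volume.real (closedBall z ρ) =
      ρ ^ (Module.finrank ℝ (V m)) * volume.real (closedBall (0 : V m) 1) :=
    Measure.addHaar_real_closedBall' volume z hρ.le
  have h4 : ∫ η in closedBall (0 : V m) 1, ‖g (z + ρ • η)‖ =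
      (ρ ^ (Module.finrank ℝ (V m)))⁻¹ * ∫ x in closedBall z ρ, ‖g x‖ := by
    have h5 := Measure.setIntegral_comp_smul_of_pos (volume : Measure (V m))
      (fun x => ‖g (z + x)‖) (closedBall (0 : V m) 1) hρ
    rw [h5, smul_eq_mul]
    congr 1
    have h6 : ρ • closedBall (0 : V m) 1 = closedBall 0 ρ := by
      rw [_root_.smul_closedBall _ _ zero_le_one, smul_zero, Real.norm_eq_abs, abs_of_pos hρ, mul_one]
    rw [h6]
    have hpre : (fun x : V m => z + x) ⁻¹' closedBall z ρ = closedBall 0 ρ := by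
      ext y
      simp [mem_closedBall, dist_eq_norm]
    rw [← hpre]
    exact (measurePreserving_add_left (volume : Measure (V m)) z).setIntegral_preimage_emb
      (MeasurableEquiv.addLeft z).measurableEmbedding (fun x => ‖g x‖) (closedBall z ρ)
  rw [h4]
  have hρm : 0 < ρ ^ (Module.finrank ℝ (V m)) := by positivity
  rw [inv_mul_le_iff₀ hρm]
  calc ∫ x in closedBall z ρ, ‖g x‖ ≤ ε * volume.real (closedBall z ρ) := h1
    _ = _ := by rw [h3]; ring

theorem smooth_joint {f : V m → V m} {s : V m → ℝ} (hf : ContDiff ℝ ∞ f) (hs : ContDiff ℝ ∞ s)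
    (t : ℝ) : ContDiff ℝ ∞ fun q : V m × V m => f (q.1 + (t * s q.1) • q.2) :=
  hf.comp (contDiff_fst.add ((contDiff_const.mul (hs.comp contDiff_fst)).smul contDiff_snd))

theorem fderiv_slice {f : V m → V m} {s : V m → ℝ} (hf : ContDiff ℝ ∞ f) (hs : ContDiff ℝ ∞ s)
    (t : ℝ) (z η v : V m) :
    (fderiv ℝ (fun q : V m × V m => f (q.1 + (t * s q.1) • q.2)) (z, η)).comp
      (ContinuousLinearMap.inl ℝ (V m) (V m)) v =
    fderiv ℝ f (z + (t * s z) • η) (v + (t * fderiv ℝ s z v) • η) := by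
  have h2 : HasFDerivAt (fun q : V m × V m => f (q.1 + (t * s q.1) • q.2))
      (fderiv ℝ (fun q : V m × V m => f (q.1 + (t * s q.1) • q.2)) (z, η)) (z, η) :=
    ((smooth_joint hf hs t).differentiable (by simp)).differentiableAt.hasFDerivAt
  have h3 : HasFDerivAt (fun z => f (z + (t * s z) • η))
      ((fderiv ℝ (fun q : V m × V m => f (q.1 + (t * s q.1) • q.2)) (z, η)).comp
        (ContinuousLinearMap.inl ℝ (V m) (V m))) z :=
    HasFDerivAt.comp (g := fun q : V m × V m => f (q.1 + (t * s q.1) • q.2))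
      (f := fun z => (z, η)) z h2 (hasFDerivAt_prodMk_left z η)
  have h4 : HasFDerivAt s (fderiv ℝ s z) z := (hs.differentiable (by simp)).differentiableAt.hasFDerivAt
  have h5 : HasFDerivAt (fun z : V m => z + (t * s z) • η)
      (ContinuousLinearMap.id ℝ (V m) + (t • fderiv ℝ s z).smulRight η) z :=
    (hasFDerivAt_id z).add ((h4.const_mul t).smul_const η)
  have h6 : HasFDerivAt f (fderiv ℝ f (z + (t * s z) • η)) (z + (t * s z) • η) :=
    (hf.differentiable (by simp)).differentiableAt.hasFDerivAt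
  have h7 : HasFDerivAt (fun z => f (z + (t * s z) • η))
      ((fderiv ℝ f (z + (t * s z) • η)).comp (ContinuousLinearMap.id ℝ (V m) +
        (t • fderiv ℝ s z).smulRight η)) z := h6.comp z h5
  rw [h3.unique h7]
  simp

end VAvgAux

open VAvgAux

theorem vavg_smooth {f : V m → V m} {s : V m → ℝ} (hf : ContDiff ℝ ∞ f) (hs : ContDiff ℝ ∞ s) :
    ContDiff ℝ ∞ fun p : ℝ × V m => vavg f s p.1 p.2 := by
  unfold vavg
  apply ContDiff.const_smul
  rw [← contDiffOn_univ]
  have hΨ : ContDiffOn ℝ ∞ (fun q : (ℝ × V m) × V m => f (q.1.2 + (q.1.1 * s q.1.2) • q.2))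
      ((univ : Set (ℝ × V m)) ×ˢ (univ : Set (V m))) := by
    apply ContDiff.contDiffOn
    exact hf.comp ((contDiff_snd.comp contDiff_fst).add
      (((contDiff_fst.comp contDiff_fst).mul (hs.comp (contDiff_snd.comp contDiff_fst))).smul
        contDiff_snd))
  exact P28e.contDiffOn_param (E := ℝ × V m) volume isOpen_univ isOpen_univ
    (isCompact_closedBall 0 1) (subset_univ _) hΨ

theorem vavg_zero (f : V m → V m) (s : V m → ℝ) (z : V m) : vavg f s 0 z = f z := by
  unfold vavg
  simp only [zero_mul, zero_smul, add_zero]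
  rw [setIntegral_const, smul_smul, inv_mul_cancel₀ vol_pos.ne', one_smul]

theorem vavg_eq_self {f : V m → V m} {s : V m → ℝ} {t : ℝ} {z : V m}
    (h : ∀ x ∈ closedBall z |t * s z|, f x = x) : vavg f s t z = z := by
  unfold vavg
  have h1 : ∫ η in closedBall (0 : V m) 1, f (z + (t * s z) • η) =
      ∫ η in closedBall (0 : V m) 1, (z + (t * s z) • η) := by
    apply setIntegral_congr_fun measurableSet_closedBall
    intro η hη
    apply h
    rw [mem_closedBall_zero_iff] at hη
    rw [mem_closedBall, dist_eq_norm, add_sub_cancel_left, norm_smul, Real.norm_eq_abs]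
    exact mul_le_of_le_one_right (abs_nonneg _) hη
  rw [h1, integral_affine, smul_smul, inv_mul_cancel₀ vol_pos.ne', one_smul]

theorem vavg_close {f : V m → V m} {s : V m → ℝ} (hf : ContDiff ℝ ∞ f) (hs : ContDiff ℝ ∞ s)
    {z : V m} {t ε' : ℝ} (ht0 : 0 < t) (ht1 : t ≤ 1) (hsz : 0 < s z) (hds : ‖fderiv ℝ s z‖ ≤ 1 / 8)
    (hε : 0 ≤ ε') {M : (EV m)ˣ}
    (hM : ∫⁻ x in closedBall z (t * s z), ‖(↑M⁻¹ : EV m) * fderiv ℝ f x - 1‖ₑ ≤
      ENNReal.ofReal ε' * volume (closedBall z (t * s z))) :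
    ‖(↑M⁻¹ : EV m) * fderiv ℝ (vavg f s t) z - 1‖ ≤ 2 * ε' := by
  have hρ : 0 < t * s z := mul_pos ht0 hsz
  set ρ := t * s z with hρdef
  set K : Set (V m) := closedBall (0 : V m) 1 with hK
  set A : ℝ := volume.real K with hA
  have hVne : volume K ≠ ⊤ := measure_closedBall_lt_top.ne
  have hApos : 0 < A := vol_pos
  have hKc : IsCompact K := isCompact_closedBall 0 1
  obtain ⟨hint, hder⟩ := P28e.Close46.hasFDerivAt_param (volume : Measure (V m)) isOpen_univ
    isOpen_univ hKc (subset_univ _) ((smooth_joint hf hs t).contDiffOn (s := univ ×ˢ univ))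
    (mem_univ z)
  have hAvg : HasFDerivAt (vavg f s t) (A⁻¹ • ∫ η in K,
      (fderiv ℝ (fun q : V m × V m => f (q.1 + (t * s q.1) • q.2)) (z, η)).comp
        (ContinuousLinearMap.inl ℝ (V m) (V m))) z := hder.const_smul A⁻¹
  have hfc : Continuous fun x => fderiv ℝ f x := hf.continuous_fderiv (by simp)
  have hgc : Continuous fun x => (↑M⁻¹ : EV m) * fderiv ℝ f x - 1 :=
    (continuous_const.mul hfc).sub continuous_const
  have hcont : Continuous (fun η : V m => (↑M⁻¹ : EV m) * fderiv ℝ f (z + ρ • η) - 1) :=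
    hgc.comp (by fun_prop)
  have hmean : ∫ η in K, ‖(↑M⁻¹ : EV m) * fderiv ℝ f (z + ρ • η) - 1‖ ≤ ε' * A :=
    mean_le hgc hρ hε hM
  refine ContinuousLinearMap.opNorm_le_bound _ (by positivity) fun v => ?_
  set τ : ℝ := t * fderiv ℝ s z v with hτ
  have htv : |τ| ≤ ‖v‖ / 8 := by
    have h2 := (fderiv ℝ s z).le_opNorm v
    rw [Real.norm_eq_abs] at h2
    rw [hτ, abs_mul, abs_of_pos ht0]
    calc t * |fderiv ℝ s z v| ≤ 1 * (1 / 8 * ‖v‖) := by
          apply mul_le_mul ht1 _ (abs_nonneg _) zero_le_one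
          exact h2.trans (mul_le_mul_of_nonneg_right hds (norm_nonneg _))
      _ = ‖v‖ / 8 := by ring
  have hcont2 : Continuous (fun η : V m =>
      ((↑M⁻¹ : EV m) * fderiv ℝ f (z + ρ • η) - 1) (v + τ • η)) :=
    hcont.clm_apply (by fun_prop)
  have hval : ((↑M⁻¹ : EV m) * fderiv ℝ (vavg f s t) z - 1) v = A⁻¹ • ∫ η in K,
      ((↑M⁻¹ : EV m) * fderiv ℝ f (z + ρ • η) - 1) (v + τ • η) := by
    have h1 : fderiv ℝ (vavg f s t) z v = A⁻¹ • ∫ η in K, fderiv ℝ f (z + ρ • η) (v + τ • η) := by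
      rw [hAvg.fderiv]
      show A⁻¹ • (∫ η in K, (fderiv ℝ (fun q : V m × V m => f (q.1 + (t * s q.1) • q.2))
        (z, η)).comp (ContinuousLinearMap.inl ℝ (V m) (V m))) v = _
      rw [ContinuousLinearMap.integral_apply hint]
      congr 1
      apply setIntegral_congr_fun measurableSet_closedBall
      intro η _
      exact fderiv_slice hf hs t z η v
    have hcont3 : Continuous (fun η : V m => fderiv ℝ f (z + ρ • η) (v + τ • η)) := by
      have h1 : Continuous (fun η : V m => fderiv ℝ f (z + ρ • η)) := hfc.comp (by fun_prop)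
      exact h1.clm_apply (by fun_prop)
    have hint3 : IntegrableOn (fun η : V m => fderiv ℝ f (z + ρ • η) (v + τ • η)) K :=
      hcont3.continuousOn.integrableOn_compact hKc
    have hint4 : IntegrableOn (fun η : V m => v + τ • η) K :=
      ContinuousOn.integrableOn_compact hKc (by fun_prop)
    have h3 : ∫ η in K, ((↑M⁻¹ : EV m) * fderiv ℝ f (z + ρ • η) - 1) (v + τ • η) =
        (↑M⁻¹ : EV m) (∫ η in K, fderiv ℝ f (z + ρ • η) (v + τ • η)) -
          ∫ η in K, (v + τ • η) := by
      rw [← ContinuousLinearMap.integral_comp_comm _ hint3,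
        ← integral_sub ((↑M⁻¹ : EV m).integrable_comp hint3) hint4]
      rfl
    rw [h3, integral_affine, smul_sub, smul_smul, inv_mul_cancel₀ hApos.ne', one_smul, ← map_smul,
      ← h1]
    rfl
  rw [hval, norm_smul, norm_inv, Real.norm_eq_abs, abs_of_pos hApos]
  have hle : ‖∫ η in K, ((↑M⁻¹ : EV m) * fderiv ℝ f (z + ρ • η) - 1) (v + τ • η)‖ ≤
      ε' * A * (‖v‖ + ‖v‖ / 8) := by
    calc ‖∫ η in K, ((↑M⁻¹ : EV m) * fderiv ℝ f (z + ρ • η) - 1) (v + τ • η)‖
        ≤ ∫ η in K, ‖((↑M⁻¹ : EV m) * fderiv ℝ f (z + ρ • η) - 1) (v + τ • η)‖ :=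
          norm_integral_le_integral_norm _
      _ ≤ ∫ η in K, ‖(↑M⁻¹ : EV m) * fderiv ℝ f (z + ρ • η) - 1‖ * (‖v‖ + ‖v‖ / 8) := by
          apply setIntegral_mono_on (hcont2.continuousOn.integrableOn_compact hKc).norm
            ((hcont.continuousOn.integrableOn_compact hKc).norm.mul_const _)
            measurableSet_closedBall
          intro η hη
          refine (ContinuousLinearMap.le_opNorm _ _).trans ?_
          apply mul_le_mul_of_nonneg_left _ (norm_nonneg _)
          refine (norm_add_le _ _).trans ?_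
          have hη1 : ‖η‖ ≤ 1 := by simpa [hK] using hη
          rw [norm_smul, Real.norm_eq_abs]
          have : |τ| * ‖η‖ ≤ ‖v‖ / 8 * 1 := mul_le_mul htv hη1 (norm_nonneg _) (by positivity)
          linarith
      _ = (∫ η in K, ‖(↑M⁻¹ : EV m) * fderiv ℝ f (z + ρ • η) - 1‖) * (‖v‖ + ‖v‖ / 8) :=
          integral_mul_const _ _
      _ ≤ ε' * A * (‖v‖ + ‖v‖ / 8) := mul_le_mul_of_nonneg_right hmean (by positivity)
  calc A⁻¹ * ‖∫ η in K, ((↑M⁻¹ : EV m) * fderiv ℝ f (z + ρ • η) - 1) (v + τ • η)‖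
      ≤ A⁻¹ * (ε' * A * (‖v‖ + ‖v‖ / 8)) := mul_le_mul_of_nonneg_left hle (by positivity)
    _ = ε' * (‖v‖ + ‖v‖ / 8) := by field_simp
    _ ≤ 2 * ε' * ‖v‖ := by nlinarith [mul_nonneg hε (norm_nonneg v)]

end Pool.Agent.Lib.P28f
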