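import Pool.Agent.Lib.P28f.GapBall
import Pool.Agent.Lib.P28f.Radius
import Pool.Agent.Lib.P28f.VAvg
import Pool.Agent.Lib.P28f.IsoCRel
import Pool.Agent.Lib.P28f.RingNear
import Pool.Agent.Lib.P28f.CoreLin

set_option autoImplicit false

/-!
# Smoothing: every compactly supported immersion is isotopic to a controlled one

PROOF SKETCH. `ε = 1/128`, `η > 0` with `6 η (3/ε)^m ≤ min δ (1/2)` and `η ≤ 1/8`, `c` from `gap_ball`. `μ = eng f` is finite (continuous density with compact support: `cn f = 0` where `f = id` near `x`, i.e. for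
`‖x‖ > R₀`), vanishes off `closedBall 0 R₀`, has no atoms. `exists_radius` with `P = 64 R₀` gives `σ`, `s`; `s ≤ 2 ε P = R₀`. `g = vavg f s 1`; `g = id` for `‖x‖ ≥ 2 R₀` (`vavg_eq_self`).
Isotopy (`IsoC.of_Icc`, `K (t, x) = vavg f s t x`): for `t = 0` it is `f`; for `0 < t ≤ 1` the ball `closedBall z (t s z)` has energy `≤ c` (`t s z ≤ 9/10 σ z`), so
`gap_ball` and `vavg_close` give `‖M⁻¹ d - 1‖ ≤ 2 η < 1`: a unit. `Ctrl`: let `closedBall z r ⊆ ball 0 (64 R₀)` have mass `≤ c` (so `r ≤ P`) and `x, y ∈ closedBall z (r/8)`. Then `S = σ x ≥ 7/8 r`,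
`‖x - y‖ ≤ r/4 ≤ 2/7 S`, `5/7 S ≤ σ y ≤ 9/7 S`. Take `M` from `gap_ball` for `closedBall x (9/10 S)`; it contains `closedBall x (s x)` and `closedBall y (s y)`, whose volumes are at least
`(ε/3)^m` times its volume (`s y ≥ ε/2 * 5/7 S`); so the means over these two balls are `≤ η (3/ε)^m`, and `vavg_close` (`t = 1`) gives `‖M⁻¹ dg x - 1‖, ‖M⁻¹ dg y - 1‖ ≤ 2 η (3/ε)^m =: κ ≤ 1/6`, hence
`‖(dg x)⁻¹ dg y - 1‖ ≤ 3 κ ≤ δ` (`(dg x)⁻¹ dg y - 1 = (M⁻¹ dg x)⁻¹ (M⁻¹ dg y - M⁻¹ dg x)`).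
-/

open MeasureTheory Set Metric
open scoped ContDiff Topology

namespace Pool.Agent.Lib.P28f

variable {m : ℕ}

namespace SmoothCtrlAux

lemma cn_zero {f : V m → V m} {R : ℝ} (hR : ∀ x, R ≤ ‖x‖ → f x = x) {x : V m} (hx : R < ‖x‖) :
    cn f x = 0 := by
  have ho : IsOpen {y : V m | R < ‖y‖} := isOpen_lt continuous_const continuous_norm
  have h1 : ∀ y ∈ {y : V m | R < ‖y‖}, fderiv ℝ f y = ContinuousLinearMap.id ℝ (V m) := by
    intro y hy
    have : f =ᶠ[𝓝 y] id := by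
      filter_upwards [ho.mem_nhds hy] with w hw
      exact hR w (le_of_lt hw)
    rw [this.fderiv_eq, fderiv_id]
  have h2 : fderiv ℝ f =ᶠ[𝓝 x] fun _ => ContinuousLinearMap.id ℝ (V m) := by
    filter_upwards [ho.mem_nhds hx] with w hw using h1 w hw
  unfold cn
  rw [h2.fderiv_eq]
  simp

lemma cn_cont {f : V m → V m} (hf : ContDiff ℝ ∞ f) (hu : ∀ x, IsUnit (fderiv ℝ f x : EV m)) :
    Continuous (cn f) := by
  have h1 : Continuous (fun x => fderiv ℝ f x) := hf.continuous_fderiv (by simp)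
  have h2 : Continuous (fun x => fderiv ℝ (fderiv ℝ f) x) := by
    have h : ContDiff ℝ ∞ (fderiv ℝ f) := hf.fderiv_right (by simp)
    exact h.continuous_fderiv (by simp)
  have h3 : Continuous fun x => Ring.inverse (fderiv ℝ f x : EV m) := by
    rw [continuous_iff_continuousAt]
    intro x
    obtain ⟨u, hu'⟩ := hu x
    have h4 := NormedRing.inverse_continuousAt u
    rw [hu'] at h4
    exact ContinuousAt.comp (f := fun x => fderiv ℝ f x) h4 h1.continuousAt
  unfold cn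
  exact ((ContinuousLinearMap.compL ℝ (V m) (V m) (V m)).continuous.comp h3).clm_comp h2

lemma en_zero : ‖(0 : V m →L[ℝ] EV m)‖ₑ = 0 := by
  have h1 : ‖(0 : V m →L[ℝ] EV m)‖ = 0 := @norm_zero (V m →L[ℝ] EV m) _
  have h2 : ENNReal.ofReal ‖(0 : V m →L[ℝ] EV m)‖ = ‖(0 : V m →L[ℝ] EV m)‖ₑ :=
    @ofReal_norm (V m →L[ℝ] EV m) _ 0
  rw [← h2, h1, ENNReal.ofReal_zero]

lemma vol_closedBall (z : V m) {r : ℝ} (hr : 0 ≤ r) :
    volume (closedBall z r) = ENNReal.ofReal ((2 * r) ^ m) := by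
  rw [Real.volume_pi_closedBall z hr, Fintype.card_fin]

end SmoothCtrlAux

open SmoothCtrlAux

theorem eng_finite {f : V m → V m} (hf : ContDiff ℝ ∞ f)
    (hu : ∀ x, IsUnit (fderiv ℝ f x : EV m)) {R : ℝ} (hR : ∀ x, R ≤ ‖x‖ → f x = x) :
    IsFiniteMeasure (eng f) := by
  refine ⟨?_⟩
  unfold eng
  rw [withDensity_apply _ MeasurableSet.univ, Measure.restrict_univ]
  have hc := cn_cont hf hu
  have hK : ∃ K : Set (V m), IsCompact K ∧ ∀ x, x ∉ K → ‖cn f x‖ₑ ^ m = 0 := by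
    rcases Nat.eq_zero_or_pos m with h0 | h0
    · subst h0
      exact ⟨univ, Set.toFinite _ |>.isCompact, fun x hx => absurd (mem_univ x) hx⟩
    · refine ⟨closedBall 0 R, isCompact_closedBall _ _, fun x hx => ?_⟩
      rw [mem_closedBall_zero_iff, not_le] at hx
      rw [cn_zero hR hx, en_zero, zero_pow (by omega)]
  obtain ⟨K, hKc, hK0⟩ := hK
  have h1 : ∫⁻ x, ‖cn f x‖ₑ ^ m = ∫⁻ x in K, ‖cn f x‖ₑ ^ m := by
    rw [← lintegral_indicator hKc.measurableSet]
    refine lintegral_congr fun x => ?_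
    by_cases hx : x ∈ K
    · rw [indicator_of_mem hx]
    · rw [indicator_of_notMem hx, hK0 x hx]
  rw [h1]
  have hcn : Continuous (fun x => ‖cn f x‖) := (@continuous_norm (V m →L[ℝ] EV m) _).comp hc
  obtain ⟨C, hC⟩ := hKc.bddAbove_image hcn.continuousOn
  calc ∫⁻ x in K, ‖cn f x‖ₑ ^ m ≤ ∫⁻ x in K, ENNReal.ofReal C ^ m := by
        refine setLIntegral_mono' hKc.measurableSet fun x hx => ?_
        gcongr
        have h2 : ENNReal.ofReal ‖cn f x‖ = ‖cn f x‖ₑ := @ofReal_norm (V m →L[ℝ] EV m) _ (cn f x)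
        rw [← h2]
        exact ENNReal.ofReal_le_ofReal (hC (mem_image_of_mem _ hx))
    _ = ENNReal.ofReal C ^ m * volume K := setLIntegral_const _ _
    _ < ⊤ := ENNReal.mul_lt_top (ENNReal.pow_lt_top ENNReal.ofReal_lt_top) hKc.measure_lt_top

theorem eng_supp {f : V m → V m} {R : ℝ} (hR : ∀ x, R ≤ ‖x‖ → f x = x) (hm : 1 ≤ m) :
    eng f (closedBall 0 R)ᶜ = 0 := by
  unfold eng
  rw [withDensity_apply _ isClosed_closedBall.measurableSet.compl]
  have h1 : ∀ x ∈ (closedBall (0 : V m) R)ᶜ, ‖cn f x‖ₑ ^ m = 0 := by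
    intro x hx
    rw [mem_compl_iff, mem_closedBall_zero_iff, not_le] at hx
    rw [cn_zero hR hx, en_zero, zero_pow (by omega)]
  rw [setLIntegral_congr_fun isClosed_closedBall.measurableSet.compl h1]
  simp

theorem eng_atom (f : V m → V m) (hm : 1 ≤ m) (x : V m) : eng f {x} = 0 := by
  have : Nonempty (Fin m) := ⟨⟨0, hm⟩⟩
  have h0 : (volume : Measure (V m)) {x} = 0 := measure_singleton x
  exact (withDensity_absolutelyContinuous volume _) h0

theorem smooth_ctrl (m : ℕ) (hm : 2 ≤ m) {δ : ℝ} (hδ : 0 < δ) : ∃ c : ℝ, 0 < c ∧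
    ∀ (f : V m → V m) (R₀ : ℝ), 0 < R₀ → ContDiff ℝ ∞ f →
    (∀ x, IsUnit (fderiv ℝ f x : EV m)) → (∀ x, R₀ ≤ ‖x‖ → f x = x) →
    ∃ g : V m → V m, ContDiff ℝ ∞ g ∧ (∀ x, IsUnit (fderiv ℝ g x : EV m)) ∧ IsoC f g ∧
      (∀ x, 3 * R₀ ≤ ‖x‖ → g x = x) ∧ Ctrl δ c (ball 0 (64 * R₀)) g (eng f) := by
  -- constants
  set Kv : ℝ := (384 : ℝ) ^ m with hKv
  have hK1 : 1 ≤ Kv := one_le_pow₀ (by norm_num)
  have hK0 : 0 < Kv := by linarith
  set η : ℝ := min δ (1 / 2) / (6 * Kv) with hη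
  have hmin : 0 < min δ (1 / 2) := lt_min hδ (by norm_num)
  have hη0 : 0 < η := by positivity
  have hηK : 6 * (η * Kv) = min δ (1 / 2) := by
    rw [hη]
    field_simp
  have hη1 : η ≤ 1 / 12 := by
    have h1 : min δ (1 / 2) ≤ 1 / 2 := min_le_right _ _
    have h2 : η * 1 ≤ η * Kv := mul_le_mul_of_nonneg_left hK1 hη0.le
    linarith
  obtain ⟨c, hc, hgap⟩ := gap_ball m hm hη0
  refine ⟨c, hc, ?_⟩
  intro f R₀ hR₀ hf hu hR
  have hfin : IsFiniteMeasure (eng f) := eng_finite hf hu hR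
  obtain ⟨σ, s, hσ, hσc, hσmax, hσlip, hs, hsσ, hds⟩ :=
    exists_radius (μ := eng f) (eng_atom f (by omega)) (eng_supp hR (by omega)) (c := c)
      (P := 64 * R₀) (ε := 1 / 128) hc (by positivity) (by norm_num)
  have hgapR : ∀ (z : V m) (r : ℝ), 0 < r → (eng f).real (closedBall z r) ≤ c →
      ∃ M : (EV m)ˣ, ∫⁻ x in closedBall z r, ‖(↑M⁻¹ : EV m) * fderiv ℝ f x - 1‖ₑ ≤
        ENNReal.ofReal η * volume (closedBall z r) := by
    intro z r hr h
    refine hgap f hf hu z r hr ?_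
    rw [← ofReal_measureReal]
    exact ENNReal.ofReal_le_ofReal h
  have hspos : ∀ z, 0 < s z := by
    intro z
    have h1 := (hσ z).1
    have h2 := (hsσ z).1
    linarith
  have hsle : ∀ z, s z ≤ σ z / 64 := by
    intro z
    have h2 := (hsσ z).2
    linarith
  have hsR : ∀ z, s z ≤ R₀ := by
    intro z
    have h1 := (hσ z).2
    have h2 := hsle z
    linarith
  have hds8 : ∀ z, ‖fderiv ℝ s z‖ ≤ 1 / 8 := fun z => (hds z).trans (by norm_num)
  have hvs : ContDiff ℝ ∞ fun p : ℝ × V m => vavg f s p.1 p.2 := vavg_smooth hf hs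
  -- units
  have hunit : ∀ t ∈ Icc (0 : ℝ) 1, ∀ z, IsUnit (fderiv ℝ (fun y => vavg f s t y) z : EV m) := by
    intro t ht z
    rcases eq_or_lt_of_le ht.1 with h0 | h0
    · rw [← h0]
      have : (fun y => vavg f s 0 y) = f := funext fun y => vavg_zero f s y
      rw [this]
      exact hu z
    · have h1 : 0 < t * s z := mul_pos h0 (hspos z)
      have h2 : t * s z ≤ 9 / 10 * σ z := by
        have h3 : t * s z ≤ 1 * s z := mul_le_mul_of_nonneg_right ht.2 (hspos z).le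
        have h4 := hsle z
        have h5 := (hσ z).1
        linarith
      obtain ⟨M, hM⟩ := hgapR z (t * s z) h1
        ((measureReal_mono (closedBall_subset_closedBall h2)).trans (hσc z))
      have h6 := vavg_close hf hs h0 ht.2 (hspos z) (hds8 z) hη0.le hM
      have h7 : IsUnit ((↑M⁻¹ : EV m) * fderiv ℝ (vavg f s t) z) :=
        isUnit_of_near (lt_of_le_of_lt h6 (by linarith))
      have h8 := M.isUnit.mul h7
      rwa [← mul_assoc, Units.mul_inv, one_mul] at h8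
  have hself : ∀ t ∈ Icc (0 : ℝ) 1, ∀ x, 2 * R₀ ≤ ‖x‖ → vavg f s t x = x := by
    intro t ht x hx
    refine vavg_eq_self fun y hy => hR y ?_
    rw [mem_closedBall, dist_eq_norm] at hy
    have h1 : |t * s x| ≤ R₀ := by
      rw [abs_of_nonneg (mul_nonneg ht.1 (hspos x).le)]
      have h3 : t * s x ≤ 1 * s x := mul_le_mul_of_nonneg_right ht.2 (hspos x).le
      linarith [hsR x]
    have h2 : ‖x‖ ≤ ‖y‖ + ‖y - x‖ := by
      have h3 : x = y - (y - x) := by abel
      calc ‖x‖ = ‖y - (y - x)‖ := by rw [← h3]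
        _ ≤ ‖y‖ + ‖y - x‖ := norm_sub_le _ _
    linarith
  refine ⟨fun z => vavg f s 1 z, ?_, fun x => hunit 1 ⟨zero_le_one, le_rfl⟩ x, ?_, ?_, ?_⟩
  · exact hvs.comp (contDiff_const.prodMk contDiff_id)
  · have h1 := IsoC.of_Icc (K := fun p : ℝ × V m => vavg f s p.1 p.2) (R := 2 * R₀)
      (fun t _ x => hvs.contDiffAt) hunit hself
    have h2 : (fun x => vavg f s 0 x) = f := funext fun y => vavg_zero f s y
    simpa only [h2] using h1
  · intro x hx
    exact hself 1 ⟨zero_le_one, le_rfl⟩ x (by linarith)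
  · refine ⟨fun x _ => ⟨(hvs.comp (contDiff_const.prodMk contDiff_id)).contDiffAt,
      hunit 1 ⟨zero_le_one, le_rfl⟩ x⟩, ?_⟩
    intro z r hr hsub hmass x hx y hy
    rw [mem_closedBall, dist_eq_norm] at hx hy
    have hrP : r ≤ 64 * R₀ := by
      have he : ‖(4 / 3 : ℝ) • w0 m‖ = 1 := by
        rw [norm_smul, norm_w0 (by omega)]
        norm_num
      have h1 : z + r • ((4 / 3 : ℝ) • w0 m) ∈ ball (0 : V m) (64 * R₀) := by
        apply hsub
        rw [mem_closedBall, dist_eq_norm, add_sub_cancel_left, norm_smul, he, mul_one,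
          Real.norm_of_nonneg hr.le]
      have h2 : z - r • ((4 / 3 : ℝ) • w0 m) ∈ ball (0 : V m) (64 * R₀) := by
        apply hsub
        rw [mem_closedBall, dist_eq_norm, sub_sub_cancel_left, norm_neg, norm_smul, he, mul_one,
          Real.norm_of_nonneg hr.le]
      rw [mem_ball_zero_iff] at h1 h2
      have h3 : ‖(2 * r) • ((4 / 3 : ℝ) • w0 m)‖ ≤ ‖z + r • ((4 / 3 : ℝ) • w0 m)‖ +
          ‖z - r • ((4 / 3 : ℝ) • w0 m)‖ := by
        have h4 : (2 * r) • ((4 / 3 : ℝ) • w0 m) = (z + r • ((4 / 3 : ℝ) • w0 m)) -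
            (z - r • ((4 / 3 : ℝ) • w0 m)) := by
          module
        rw [h4]
        exact norm_sub_le _ _
      rw [norm_smul, he, mul_one, Real.norm_of_nonneg (by linarith)] at h3
      linarith
    have hxy : ‖x - y‖ ≤ r / 4 := by
      have h1 : x - y = (x - z) - (y - z) := by abel
      rw [h1]
      refine (norm_sub_le _ _).trans ?_
      linarith
    have hS : 7 / 8 * r ≤ σ x := by
      refine hσmax x (7 / 8 * r) (by positivity) (by linarith) ?_
      refine le_trans (measureReal_mono (closedBall_subset_closedBall' ?_)) hmass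
      rw [dist_eq_norm]
      linarith
    have hσx := (hσ x).1
    have hσy1 : σ x ≤ σ y + ‖x - y‖ := hσlip x y
    have hσy2 : σ y ≤ σ x + ‖x - y‖ := by
      rw [norm_sub_rev]
      exact hσlip y x
    obtain ⟨M, hM⟩ := hgapR x (9 / 10 * σ x) (by positivity) (hσc x)
    -- closeness at every point near `x`
    have hclose : ∀ w, ‖x - w‖ ≤ 2 / 7 * σ x → 5 / 7 * σ x ≤ σ w → σ w ≤ 9 / 7 * σ x →
        ‖(↑M⁻¹ : EV m) * fderiv ℝ (vavg f s 1) w - 1‖ ≤ 2 * (η * Kv) := by
      intro w hw1 hw2 hw3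
      refine vavg_close hf hs one_pos le_rfl (hspos w) (hds8 w) (by positivity) ?_
      rw [one_mul]
      have h1 : closedBall w (s w) ⊆ closedBall x (9 / 10 * σ x) := by
        apply closedBall_subset_closedBall'
        rw [dist_eq_norm, norm_sub_rev]
        linarith [hsle w]
      refine (lintegral_mono_set h1).trans (hM.trans ?_)
      rw [vol_closedBall x (by positivity), vol_closedBall w (hspos w).le,
        ← ENNReal.ofReal_mul hη0.le, ← ENNReal.ofReal_mul (by positivity)]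
      apply ENNReal.ofReal_le_ofReal
      rw [mul_assoc]
      apply mul_le_mul_of_nonneg_left _ hη0.le
      rw [hKv, ← mul_pow]
      apply pow_le_pow_left₀ (by positivity)
      have h2 := (hsσ w).1
      linarith
    have hA := hclose x (by rw [sub_self, norm_zero]; positivity) (by linarith) (by linarith)
    have hB := hclose y (by linarith) (by linarith) (by linarith)
    have hminδ : min δ (1 / 2) ≤ δ := min_le_left _ _
    have hminh : min δ (1 / 2) ≤ 1 / 2 := min_le_right _ _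
    have hux : IsUnit (fderiv ℝ (vavg f s 1) x : EV m) := hunit 1 ⟨zero_le_one, le_rfl⟩ x
    have hrw : Ring.inverse (fderiv ℝ (fun z => vavg f s 1 z) x : EV m) *
        fderiv ℝ (fun z => vavg f s 1 z) y =
        Ring.inverse ((↑M⁻¹ : EV m) * fderiv ℝ (vavg f s 1) x) *
          ((↑M⁻¹ : EV m) * fderiv ℝ (vavg f s 1) y) :=
      (inv_mul_left (M⁻¹).isUnit hux).symm
    rw [hrw]
    set κ := 2 * (η * Kv) with hκ
    have hκ0 : 0 ≤ κ := by positivity
    have hκ1 : κ ≤ 1 / 6 := by linarith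
    have h9 := near_mul (near_inv hA (by linarith)) hB
    refine h9.trans ?_
    have h10 : κ / (1 - κ) ≤ 6 / 5 * κ := by
      rw [div_le_iff₀ (by linarith)]
      nlinarith
    have h11 : κ / (1 - κ) * κ ≤ 6 / 5 * κ * κ := mul_le_mul_of_nonneg_right h10 hκ0
    nlinarith

end Pool.Agent.Lib.P28f
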