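import Pool.Agent.Lib.P28f.Induct
import Pool.Agent.Lib.P28f.SmoothCtrl

set_option autoImplicit false

/-!
# Finitely many compactly supported classes in `ℝ^m` below every critical energy
-/

open MeasureTheory Set Metric
open scoped ContDiff Topology

namespace Pool.Agent.Lib.P28f

variable {m : ℕ}

/-- the class of a rescaled compactly supported map is the rescaled map -/
theorem cls_scaled {g : V m → V m} (hm : 1 ≤ m) {R : ℝ} (hR : 0 < R)
    (hg : ∀ x, 3 * R ≤ ‖x‖ → g x = x) :
    cls (fun v => g (0 + (64 * R) • v)) = fun x => (32 * R)⁻¹ • g ((32 * R) • x) := by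
  have hw : ‖w0 m‖ = 3 / 4 := norm_w0 hm
  have h32 : (0 : ℝ) < 32 * R := by positivity
  have e0 : cls (fun v => g (0 + (64 * R) • v)) = core (fun v => g ((32 * R) • v)) := by
    rw [cls, rep]
    congr 1
    funext v
    rw [zero_add, zero_add, smul_smul]
    congr 2
    ring
  rw [e0]
  have hfar : ∀ v : V m, 3 / 32 ≤ ‖v‖ → g ((32 * R) • v) = (32 * R) • v := by
    intro v hv
    apply hg
    rw [norm_smul, Real.norm_eq_abs, abs_of_pos h32]
    nlinarith
  have hev : (fun v : V m => g ((32 * R) • v)) =ᶠ[𝓝 (w0 m)] fun v => (32 * R) • v := by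
    have : ∀ᶠ v in 𝓝 (w0 m), (3 / 32 : ℝ) < ‖v‖ :=
      (continuous_norm.continuousAt (x := w0 m)).eventually_const_lt (by show (3 / 32 : ℝ) < ‖w0 m‖; rw [hw]; norm_num)
    filter_upwards [this] with v hv
    exact hfar v hv.le
  have hder : (fderiv ℝ (fun v : V m => g ((32 * R) • v)) (w0 m) : EV m) =
      (32 * R) • (1 : EV m) := by
    rw [hev.fderiv_eq]
    exact ((hasFDerivAt_id (w0 m)).const_smul (32 * R)).fderiv
  have hinv : Ring.inverse ((32 * R) • (1 : EV m)) = (32 * R)⁻¹ • (1 : EV m) := by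
    let u : (EV m)ˣ := ⟨(32 * R) • (1 : EV m), (32 * R)⁻¹ • (1 : EV m), by
      rw [smul_mul_smul_comm, mul_inv_cancel₀ h32.ne', one_mul, one_smul], by
      rw [smul_mul_smul_comm, inv_mul_cancel₀ h32.ne', one_mul, one_smul]⟩
    exact Ring.inverse_unit u
  have hnrm : ∀ v, nrm (fun v : V m => g ((32 * R) • v)) v = (32 * R)⁻¹ • g ((32 * R) • v) := by
    intro v
    rw [nrm, hder, hinv, hfar (w0 m) (by rw [hw]; norm_num)]
    simp only [smul_apply, one_apply_eq_self, smul_sub]
    rw [smul_smul, inv_mul_cancel₀ h32.ne', one_smul]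
    abel
  funext v
  rw [core, hnrm]
  by_cases hv : ‖v‖ ≤ 1 / 2
  · have hc : cut m v = 1 := (cut m).one_of_mem_closedBall (by simpa [cut] using hv)
    rw [hc, one_smul]
    abel
  · rw [not_le] at hv
    rw [hfar v (by linarith), smul_smul, inv_mul_cancel₀ h32.ne', one_smul, sub_self, smul_zero,
      add_zero]

theorem fin_Rm (m : ℕ) (hm : 2 ≤ m) (E : ℝ) (f : ℕ → V m → V m)
    (hf : ∀ j, ContDiff ℝ ∞ (f j) ∧ (∀ x, IsUnit (fderiv ℝ (f j) x : EV m)) ∧
      (∃ R : ℝ, ∀ x, R ≤ ‖x‖ → f j x = x) ∧ eng (f j) univ ≤ ENNReal.ofReal E) :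
    ∃ i j, i ≠ j ∧ IsoC (f i) (f j) := by
  have hm1 : 1 ≤ m := by omega
  obtain ⟨δ, hδ, hfin⟩ := fin_all m hm
  obtain ⟨c, hc, hsm⟩ := smooth_ctrl m hm hδ
  have hR : ∀ j, ∃ R : ℝ, 0 < R ∧ ∀ x, R ≤ ‖x‖ → f j x = x := by
    intro j
    obtain ⟨R, hR⟩ := (hf j).2.2.1
    exact ⟨max R 1, by positivity, fun x hx => hR x ((le_max_left _ _).trans hx)⟩
  choose R hRpos hR using hR
  choose g hg1 hg2 hg3 hg4 hg5 using fun j =>
    hsm (f j) (R j) (hRpos j) (hf j).1 (hf j).2.1 (hR j)
  have hloc : ∀ j, Loc δ c (max E 0) (fun v => g j (0 + (64 * R j) • v))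
      (pull 0 (64 * R j) (eng (f j))) := by
    intro j
    have := eng_finite (hf j).1 (hf j).2.1 (hR j)
    have hpos := hRpos j
    refine loc_sub inferInstance (eng_atom _ hm1) (hg5 j) (by positivity) subset_rfl ?_ ?_
    · refine (measureReal_mono (subset_univ _) (by finiteness)).trans ?_
      rw [measureReal_def]
      refine ENNReal.toReal_le_of_le_ofReal (le_max_right _ _) ((hf j).2.2.2.trans ?_)
      exact ENNReal.ofReal_le_ofReal (le_max_left _ _)
    · have h0 : (eng (f j)).real (ball 0 (64 * R j) \ closedBall 0 (64 * R j / 16)) = 0 := by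
        rw [measureReal_def]
        have : eng (f j) (ball 0 (64 * R j) \ closedBall 0 (64 * R j / 16)) = 0 := by
          refine measure_mono_null ?_ (eng_supp (hR j) hm1)
          intro x hx hx'
          apply hx.2
          exact closedBall_subset_closedBall (by linarith) hx'
        rw [this]
        rfl
      rw [h0]
      positivity
  obtain ⟨i, j, hij, h⟩ := hfin δ c hδ.le le_rfl hc (max E 0) _ _ hloc
  refine ⟨i, j, hij, ?_⟩
  rw [cls_scaled hm1 (hRpos i) (hg4 i), cls_scaled hm1 (hRpos j) (hg4 j)] at h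
  have hs : ∀ j, IsoC (f j) (fun x => (32 * R j)⁻¹ • g j ((32 * R j) • x)) := fun j =>
    (hg3 j).trans (IsoC.scale (hg1 j) (hg2 j) (hg4 j) (by have := hRpos j; positivity))
  exact ((hs i).trans h.toC).trans (hs j).symm

end Pool.Agent.Lib.P28f
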