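import Pool.Agent.Lib.P28f.EDefs
import Pool.Agent.Lib.P28e.Gap2

set_option autoImplicit false

/-!
# Small critical energy on a cube: the derivative is close in mean to one matrix

PROOF SKETCH. This is `Pool.Agent.Lib.P28e.gap` (import `Pool.Agent.Lib.P28e.Gap2`), applied to `u y = fderiv ℝ f (z + y)`, `U i y = fderiv ℝ (fderiv ℝ f) (z + y) (Pi.single i 1)`, `A = EV m`
(`NormOneClass`: `V m` is nontrivial for `m ≥ 1`), `α y = ‖cn f (z + y)‖ₑ`, `d = m`, `p = m / (m - 1)`, `S = s = r`: `‖Ring.inverse (u y) * U i y‖ ≤ ‖cn f (z + y)‖` since `‖Pi.single i 1‖ = 1`.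
`cs m r` is the volume restricted to the cube `closedBall 0 r` (`cs_eq`), its energy is `eng f (closedBall z r)` (translation invariance). Given `η` choose `κ ≤ 1/4` with `4/3 κ ≤ η` and `c` with
`(m/2 + 1) c^(1/m) ≤ κ`. The conclusion in `L^p` gives the one in `L^1` by Hoelder (`Gap.lintegral_le_Lp`: `∫ φ ≤ (2 r) (∫ φ^p)^(1/p)`): `∫ ≤ 2 r * 4/3 κ (2 r)^(m-1) = 4/3 κ (2 r)^m`,
and `volume (closedBall z r) = (2 r)^m`.
-/

open MeasureTheory Set Metric
open scoped ContDiff Topology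

namespace Pool.Agent.Lib.P28f

variable {m : ℕ}

private lemma pre_shift (z : V m) (r : ℝ) :
    (fun y => z + y) ⁻¹' closedBall z r = closedBall (0 : V m) r := by
  ext y
  rw [mem_preimage, mem_closedBall, mem_closedBall_zero_iff, dist_eq_norm, add_sub_cancel_left]

private lemma cube_eq {r : ℝ} (hr : 0 ≤ r) :
    Icc (fun _ : Fin m => -r) (fun _ => r) = closedBall (0 : V m) r := by
  ext y
  rw [mem_closedBall_zero_iff, pi_norm_le_iff_of_nonneg hr]
  simp only [mem_Icc, Pi.le_def, Real.norm_eq_abs, abs_le]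
  exact forall_and.symm

private lemma lint_shift (z : V m) (r : ℝ) (φ : V m → ENNReal) :
    ∫⁻ y in closedBall (0 : V m) r, φ (z + y) = ∫⁻ x in closedBall z r, φ x := by
  have h := (measurePreserving_add_left (volume : Measure (V m)) z).setLIntegral_comp_preimage_emb
    (measurableEmbedding_addLeft z) φ (closedBall z r)
  rw [pre_shift] at h
  exact h

private lemma cont_cn {f : V m → V m} (hf : ContDiff ℝ ∞ f)
    (hu : ∀ x, IsUnit (fderiv ℝ f x : EV m)) : Continuous (cn f) := by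
  have h1 : ContDiff ℝ ∞ (fderiv ℝ f) := hf.fderiv_right (by simp)
  have h2 : Continuous (fderiv ℝ (fderiv ℝ f)) := (h1.fderiv_right (m := ∞) (by simp)).continuous
  have h3 : Continuous fun x => Ring.inverse (fderiv ℝ f x : EV m) := by
    rw [continuous_iff_continuousAt]
    intro x
    obtain ⟨w, hw⟩ := hu x
    have h4 : ContinuousAt Ring.inverse (fderiv ℝ f x : EV m) := by
      rw [← hw]
      exact NormedRing.inverse_continuousAt w
    exact ContinuousAt.comp (f := fun x => (fderiv ℝ f x : EV m)) h4 h1.continuous.continuousAt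
  have h5 : Continuous fun x => (ContinuousLinearMap.compL ℝ (V m) (V m) (V m)
      (Ring.inverse (fderiv ℝ f x : EV m))) :=
    (ContinuousLinearMap.compL ℝ (V m) (V m) (V m)).continuous.comp h3
  exact h5.clm_comp h2

private lemma cn_single (f : V m → V m) (x : V m) (i : Fin m) :
    Ring.inverse (fderiv ℝ f x : EV m) * fderiv ℝ (fderiv ℝ f) x (Pi.single i 1) =
      cn f x (Pi.single i 1) := rfl

private lemma norm_single_le (i : Fin m) : ‖(Pi.single i (1 : ℝ) : V m)‖ ≤ 1 := by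
  rw [pi_norm_le_iff_of_nonneg zero_le_one]
  intro j
  by_cases hj : j = i
  · subst hj
    simp
  · simp [hj]

open Pool.Agent.Lib.P28e in
theorem gap_ball (m : ℕ) (hm : 2 ≤ m) {η : ℝ} (hη : 0 < η) : ∃ c : ℝ, 0 < c ∧
    ∀ f : V m → V m, ContDiff ℝ ∞ f → (∀ x, IsUnit (fderiv ℝ f x : EV m)) →
    ∀ (z : V m) (r : ℝ), 0 < r → eng f (closedBall z r) ≤ ENNReal.ofReal c →
    ∃ M : (EV m)ˣ, ∫⁻ x in closedBall z r, ‖(↑M⁻¹ : EV m) * fderiv ℝ f x - 1‖ₑ ≤
      ENNReal.ofReal η * volume (closedBall z r) := by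
  have : Nonempty (Fin m) := ⟨⟨0, by omega⟩⟩
  have : Nontrivial (V m) := inferInstance
  set κ : ℝ := min (1 / 4) (3 / 4 * η) with hκdef
  have hκ0 : 0 < κ := lt_min (by norm_num) (by positivity)
  have hκ4 : κ ≤ 1 / 4 := min_le_left _ _
  have hκη : 4 / 3 * κ ≤ η := by
    have := min_le_right (1 / 4) (3 / 4 * η)
    linarith
  have hm0 : (0 : ℝ) < m := by exact_mod_cast (by omega : 0 < m)
  have hm1 : (1 : ℝ) < m := by exact_mod_cast (by omega : 1 < m)
  set p : ℝ := Real.conjExponent (m : ℝ) with hpdef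
  have hp : Real.HolderConjugate (m : ℝ) p := Real.HolderConjugate.conjExponent hm1
  set K : ℝ := (m : ℝ) / 2 + 1 with hK
  have hK0 : 0 < K := by positivity
  refine ⟨(κ / K) ^ m, by positivity, ?_⟩
  intro f hf hu z r hr hE
  have h1 : ContDiff ℝ ∞ (fderiv ℝ f) := hf.fderiv_right (by simp)
  have h2 : Continuous (fderiv ℝ (fderiv ℝ f)) := (h1.fderiv_right (m := ∞) (by simp)).continuous
  have hshift : Continuous fun y : V m => z + y := continuous_const.add continuous_id
  have hpar : Par (F := EV m) (fun y : V m => fderiv ℝ f (z + y))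
      (fun i y => fderiv ℝ (fderiv ℝ f) (z + y) (Pi.single i 1)) := by
    refine ⟨h1.continuous.comp hshift, fun i => ?_, fun i x => ?_⟩
    · exact (h2.comp hshift).clm_apply continuous_const
    · have hd : DifferentiableAt ℝ (fderiv ℝ f) (z + Function.update x i (x i)) :=
        h1.differentiable (by simp) _
      have hup : HasDerivAt (fun t : ℝ => z + Function.update x i t) (Pi.single i (1 : ℝ)) (x i) :=
        (hasDerivAt_update x i (x i)).const_add z
      have h3 := hd.hasFDerivAt.comp_hasDerivAt (x i) hup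
      rw [Function.update_eq_self] at h3
      exact h3
  have hα : Measurable fun y : V m => ‖cn f (z + y)‖ₑ := by
    have h3 : Continuous fun x => ‖cn f x‖ :=
      Continuous.norm (E := V m →L[ℝ] EV m) (cont_cn hf hu)
    have h4 : (fun y : V m => ‖cn f (z + y)‖ₑ) = fun y => ENNReal.ofReal ‖cn f (z + y)‖ := by
      funext y
      exact (ofReal_norm (cn f (z + y))).symm
    rw [h4]
    exact (h3.comp hshift).measurable.ennreal_ofReal
  have hU : ∀ (i : Fin m) (y : V m),
      ‖Ring.inverse (fderiv ℝ f (z + y) : EV m) *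
        fderiv ℝ (fderiv ℝ f) (z + y) (Pi.single i 1)‖ₑ ≤ ‖cn f (z + y)‖ₑ := by
    intro i y
    rw [cn_single, ← ofReal_norm, ← ofReal_norm]
    refine ENNReal.ofReal_le_ofReal (((cn f (z + y)).le_opNorm _).trans ?_)
    calc ‖cn f (z + y)‖ * ‖(Pi.single i (1 : ℝ) : V m)‖ ≤ ‖cn f (z + y)‖ * 1 :=
          mul_le_mul_of_nonneg_left (norm_single_le i) (norm_nonneg (cn f (z + y)))
      _ = ‖cn f (z + y)‖ := mul_one _
  have hen : ∫⁻ y, ‖cn f (z + y)‖ₑ ^ (m : ℝ) ∂cs m r ≤ ENNReal.ofReal ((κ / K) ^ m) := by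
    rw [cs_eq, cube_eq hr.le]
    have h3 := lint_shift z r fun x => ‖cn f x‖ₑ ^ (m : ℝ)
    rw [h3]
    refine le_trans (le_of_eq ?_) hE
    unfold eng
    rw [withDensity_apply _ measurableSet_closedBall]
    refine lintegral_congr fun x => ?_
    rw [ENNReal.rpow_natCast]
  have hKe : ((m : ENNReal) / 2 + 1) = ENNReal.ofReal K := by
    rw [hK, ENNReal.ofReal_add (by positivity) zero_le_one, ENNReal.ofReal_div_of_pos two_pos,
      ENNReal.ofReal_natCast]
    simp
  have hE' : ((m : ENNReal) / 2 + 1) * (∫⁻ y, ‖cn f (z + y)‖ₑ ^ (m : ℝ) ∂cs m r) ^ (1 / (m : ℝ)) ≤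
      ENNReal.ofReal κ := by
    have h3 : (∫⁻ y, ‖cn f (z + y)‖ₑ ^ (m : ℝ) ∂cs m r) ^ (1 / (m : ℝ)) ≤
        ENNReal.ofReal (κ / K) := by
      have h4 := ENNReal.rpow_le_rpow hen (by positivity : 0 ≤ 1 / (m : ℝ))
      rwa [ENNReal.ofReal_pow (by positivity), ← ENNReal.rpow_natCast, ← ENNReal.rpow_mul,
        mul_one_div_cancel hm0.ne', ENNReal.rpow_one] at h4
    rw [hKe]
    calc ENNReal.ofReal K * (∫⁻ y, ‖cn f (z + y)‖ₑ ^ (m : ℝ) ∂cs m r) ^ (1 / (m : ℝ))
        ≤ ENNReal.ofReal K * ENNReal.ofReal (κ / K) := by gcongr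
      _ = ENNReal.ofReal κ := by
          rw [← ENNReal.ofReal_mul hK0.le, mul_div_cancel₀ _ hK0.ne']
  obtain ⟨M, -, hW⟩ := gap hm hp hpar (fun y => hu (z + y)) hα hU hκ0.le hκ4 hE' hr le_rfl
  refine ⟨M, ?_⟩
  have hcw : Continuous fun y : V m => (↑M⁻¹ : EV m) * fderiv ℝ f (z + y) - 1 :=
    (continuous_const.mul (h1.continuous.comp hshift)).sub continuous_const
  have hL1 := lintegral_le_Lp hm hp (fun _ : Fin m => -r) (2 * r) hcw.enorm.measurable
  have hfin : ∫⁻ y, ‖(↑M⁻¹ : EV m) * fderiv ℝ f (z + y) - 1‖ₑ ∂cs m r ≤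
      ENNReal.ofReal (4 / 3 * κ * (2 * r) ^ m) := by
    refine hL1.trans ?_
    calc ENNReal.ofReal (2 * r) * (∫⁻ y, ‖(↑M⁻¹ : EV m) * fderiv ℝ f (z + y) - 1‖ₑ ^ p
          ∂cm (fun _ : Fin m => -r) (2 * r)) ^ (1 / p)
        ≤ ENNReal.ofReal (2 * r) * ENNReal.ofReal (4 / 3 * κ * (2 * r) ^ (m - 1)) := by
          gcongr
          exact hW
      _ = ENNReal.ofReal (4 / 3 * κ * (2 * r) ^ m) := by
          rw [← ENNReal.ofReal_mul (by positivity)]
          congr 1
          have hd1 : m = (m - 1) + 1 := by omega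
          have h3 : (2 * r) ^ m = (2 * r) ^ (m - 1) * (2 * r) := by
            conv_lhs => rw [hd1, pow_succ]
          rw [h3]
          ring
  rw [cs_eq, cube_eq hr.le, lint_shift z r fun x => ‖(↑M⁻¹ : EV m) * fderiv ℝ f x - 1‖ₑ] at hfin
  refine hfin.trans ?_
  rw [Real.volume_pi_closedBall z hr.le, ← ENNReal.ofReal_mul hη.le, Fintype.card_fin]
  refine ENNReal.ofReal_le_ofReal ?_
  exact mul_le_mul_of_nonneg_right hκη (by positivity)

end Pool.Agent.Lib.P28f
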