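import Pool.Agent.Lib.P28f.Defs

set_option autoImplicit false

/-!
# The smallest heavy ball

PROOF SKETCH. A heavy ball (mass `≥ E - c/8 ≥ 7c/8 > c/4`) inside `ball 0 1` meets `closedBall 0 (1/16)` (the rest of `ball 0 1` has mass `≤ c/4`), so its centre has norm
`≤ 1/16 + 1/64 = 5/64` if the radius is `≤ 1/64`. Let `P k` = there is a heavy `closedBall z (r₁ / 2^k) ⊆ ball 0 1`. If `P k` for all `k`: centres `z_k` lie in the compact
`closedBall 0 (5/64)`, a subsequence converges to `z*`; every `closedBall z* ρ` contains a heavy ball, so has mass `≥ E - c/8 > 0`; let `ρ → 0` (continuity from above, finite measure):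
`μ {z*} > 0`, a contradiction. So there is a `k` with `P k` and not `P (k+1)`; take `r₀ = r₁ / 2^k`. A heavy ball of radius `r ≤ r₀/2` has centre of norm `≤ 5/64`, so
`closedBall z (r₀/2) ⊆ ball 0 1` is heavy as well, a contradiction.
-/

open MeasureTheory Set Metric
open scoped ContDiff Topology

namespace Pool.Agent.Lib.P28f

variable {m : ℕ}

theorem heavy_min {c E : ℝ} (hc : 0 < c) (hE : c ≤ E) {μ : Measure (V m)} [IsFiniteMeasure μ]
    (hatom : ∀ x, μ {x} = 0) (hcol : μ.real (ball 0 1 \ closedBall 0 (1 / 16)) ≤ c / 4)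
    {z₁ : V m} {r₁ : ℝ} (hr₁ : 0 < r₁) (hr₁' : r₁ ≤ 1 / 64) (hb : closedBall z₁ r₁ ⊆ ball 0 1)
    (hh : E - c / 8 ≤ μ.real (closedBall z₁ r₁)) :
    ∃ (z₀ : V m) (r₀ : ℝ), 0 < r₀ ∧ r₀ ≤ 1 / 64 ∧ ‖z₀‖ ≤ 5 / 64 ∧
      E - c / 8 ≤ μ.real (closedBall z₀ r₀) ∧
      ∀ (z : V m) (r : ℝ), 0 < r → r ≤ r₀ / 2 → closedBall z r ⊆ ball 0 1 →
        μ.real (closedBall z r) < E - c / 8 := by
  -- the centre of a heavy ball
  have hcen : ∀ (z : V m) (r : ℝ), r ≤ 1 / 64 → closedBall z r ⊆ ball 0 1 →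
      E - c / 8 ≤ μ.real (closedBall z r) → ‖z‖ ≤ 5 / 64 := by
    intro z r hr hsub hheavy
    have h1 : ¬ closedBall z r ⊆ ball 0 1 \ closedBall 0 (1 / 16) := by
      intro h
      have := measureReal_mono (μ := μ) h
      linarith
    obtain ⟨x, hx, hx'⟩ := not_subset.mp h1
    have h2 : x ∈ closedBall (0 : V m) (1 / 16) := by
      by_contra hcon
      exact hx' ⟨hsub hx, hcon⟩
    rw [mem_closedBall, dist_eq_norm] at hx
    rw [mem_closedBall_zero_iff] at h2
    have h3 : ‖z‖ ≤ ‖x - z‖ + ‖x‖ := by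
      calc ‖z‖ = ‖x - (x - z)‖ := by congr 1; abel
        _ ≤ ‖x‖ + ‖x - z‖ := norm_sub_le _ _
        _ = ‖x - z‖ + ‖x‖ := add_comm _ _
    linarith
  let P : ℕ → Prop := fun k => ∃ z : V m, closedBall z (r₁ / 2 ^ k) ⊆ ball 0 1 ∧
    E - c / 8 ≤ μ.real (closedBall z (r₁ / 2 ^ k))
  have hpow : ∀ k : ℕ, (1 : ℝ) ≤ 2 ^ k := fun k => one_le_pow₀ (by norm_num)
  have hrk : ∀ k : ℕ, 0 < r₁ / 2 ^ k ∧ r₁ / 2 ^ k ≤ 1 / 64 := fun k =>
    ⟨by positivity, (div_le_self hr₁.le (hpow k)).trans hr₁'⟩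
  have hP0 : P 0 := ⟨z₁, by simpa using hb, by simpa using hh⟩
  have hnot : ¬ ∀ k, P k := by
    intro hall
    choose z hz1 hz2 using hall
    have hzc : ∀ k, z k ∈ closedBall (0 : V m) (5 / 64) := fun k =>
      mem_closedBall_zero_iff.mpr (hcen _ _ (hrk k).2 (hz1 k) (hz2 k))
    obtain ⟨w, _, φ, hφ, hlim⟩ := (isCompact_closedBall (0 : V m) (5 / 64)).tendsto_subseq hzc
    have hmass : ∀ ρ : ℝ, 0 < ρ → E - c / 8 ≤ μ.real (closedBall w ρ) := by
      intro ρ hρ
      have h1 : ∀ᶠ k in Filter.atTop, dist (z (φ k)) w < ρ / 2 :=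
        (Metric.tendsto_nhds.mp hlim) (ρ / 2) (by linarith)
      have h2 : Filter.Tendsto (fun k : ℕ => r₁ / 2 ^ (φ k)) Filter.atTop (𝓝 0) := by
        have h3 : Filter.Tendsto (fun k : ℕ => r₁ * (1 / 2 : ℝ) ^ k) Filter.atTop (𝓝 (r₁ * 0)) :=
          (tendsto_pow_atTop_nhds_zero_of_lt_one (by norm_num) (by norm_num)).const_mul r₁
        rw [mul_zero] at h3
        have h4 := h3.comp hφ.tendsto_atTop
        refine h4.congr fun k => ?_
        simp only [Function.comp_def]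
        rw [one_div, inv_pow, div_eq_mul_inv]
      have h5 : ∀ᶠ k in Filter.atTop, r₁ / 2 ^ (φ k) < ρ / 2 :=
        h2.eventually (gt_mem_nhds (by linarith))
      obtain ⟨k, hk1, hk2⟩ := (h1.and h5).exists
      refine (hz2 (φ k)).trans (measureReal_mono ?_)
      refine closedBall_subset_closedBall' ?_
      linarith
    have hlim0 : Filter.Tendsto (fun r => μ (cthickening r {w})) (𝓝 0) (𝓝 (μ {w})) :=
      tendsto_measure_cthickening_of_isCompact isCompact_singleton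
    rw [hatom w] at hlim0
    have hpos : 0 < E - c / 8 := by linarith
    have h6 : ∀ᶠ r in 𝓝 (0 : ℝ), μ (cthickening r {w}) < ENNReal.ofReal (E - c / 8) :=
      hlim0.eventually (gt_mem_nhds (ENNReal.ofReal_pos.mpr hpos))
    obtain ⟨ε, hε, h7⟩ := Metric.eventually_nhds_iff.mp h6
    have h8 := h7 (y := ε / 2) (by rw [Real.dist_eq, sub_zero, abs_of_pos (by linarith)]; linarith)
    rw [cthickening_singleton _ (by linarith)] at h8
    have h9 := hmass (ε / 2) (by linarith)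
    have h10 : μ.real (closedBall w (ε / 2)) < E - c / 8 := by
      rw [measureReal_def]
      exact (ENNReal.lt_ofReal_iff_toReal_lt (measure_ne_top _ _)).mp h8
    linarith
  classical
  push Not at hnot
  have hk := Nat.find_spec hnot
  set k := Nat.find hnot with hkdef
  have hk0 : k ≠ 0 := by
    intro h
    rw [h] at hk
    exact hk hP0
  obtain ⟨l, hl⟩ := Nat.exists_eq_succ_of_ne_zero hk0
  have hPl : P l := by
    by_contra hcon
    have := Nat.find_min' hnot hcon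
    omega
  obtain ⟨z₀, hz1, hz2⟩ := hPl
  refine ⟨z₀, r₁ / 2 ^ l, (hrk l).1, (hrk l).2, hcen _ _ (hrk l).2 hz1 hz2, hz2, ?_⟩
  intro z r hr0 hr hsub
  by_contra hcon
  push Not at hcon
  have hz : ‖z‖ ≤ 5 / 64 := hcen z r (by linarith [(hrk l).2]) hsub hcon
  apply hk
  rw [hl]
  have e : r₁ / 2 ^ (l + 1) = r₁ / 2 ^ l / 2 := by rw [pow_succ, div_div]
  refine ⟨z, ?_, ?_⟩
  · rw [e]
    intro x hx
    rw [mem_closedBall, dist_eq_norm] at hx
    rw [mem_ball_zero_iff]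
    calc ‖x‖ = ‖(x - z) + z‖ := by congr 1; abel
      _ ≤ ‖x - z‖ + ‖z‖ := norm_add_le _ _
      _ < 1 := by linarith [(hrk l).2]
  · rw [e]
    exact hcon.trans (measureReal_mono (closedBall_subset_closedBall hr))

end Pool.Agent.Lib.P28f
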