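import Pool.Agent.Lib.P28f.HeavyMin
import Pool.Agent.Lib.P28f.PullLoc
import Pool.Agent.Lib.P28f.CorePath
import Pool.Agent.Lib.P28f.AnnFlat

set_option autoImplicit false

/-!
# Reduction to light maps by rescaling (neck lemma)

PROOF SKETCH. `δ₀ = min (1/2000) (δ₁ / 2000)`, `δ₁` from `rep_move`. If `μ` is `Light` take `g = f`, `ν = μ` (`Iso.refl`, `Dif (cls f)` by `core_dif`: add its constant to the minimum).
Otherwise `heavy_min` gives `z₀`, `r₀`. Put `s = 32 r₀ ≤ 1/2`, `g v = f (z₀ + s v)`, `ν = pull z₀ s μ`. `ball z₀ s ⊆ ball 0 1` since `5/64 + 1/2 < 1`. The complement of `closedBall z₀ r₀` in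
`ball 0 1` has mass `≤ E - (E - c/8) = c/8`; as `s/16 = 2 r₀`, `loc_sub` gives `Loc δ c E g ν`. `Light`: a ball of radius `r ≤ 1/64` corresponds to radius `s r ≤ r₀/2`.
`cls g = rep f z₀ (8 r₀)` (`rep_comp` with `b = 0`, `R = 1/4`). Two moves: centre from `0` to `z₀` at radius `1/4` (for `‖a‖ ≤ 5/64`, `closedBall a (9/16) \ ball a (3/16)` is in
`ball 0 1 \ closedBall 0 (1/16)`, mass `≤ c/4 ≤ c`), then radius from `1/4` down to `8 r₀` at the centre `z₀`
(`closedBall z₀ (9/4 R) \ ball z₀ (3/4 R)` avoids `closedBall z₀ r₀` for `R ≥ 8 r₀`, mass `≤ c/8`); flatness of the annuli by `ann_ctrl`, `Flat.mono`; then `rep_move` twice and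
`Iso.trans`.
-/

open MeasureTheory Set Metric
open scoped ContDiff Topology

namespace Pool.Agent.Lib.P28f

variable {m : ℕ}

private theorem move_aux {δ₁ : ℝ}
    (hrm : ∀ (f : V m → V m) (a a' : V m) (R R' : ℝ), 0 < R → 0 < R' →
      (∀ t ∈ Icc (0 : ℝ) 1,
        Imm (closedBall ((1 - t) • a + t • a') (2 * ((1 - t) * R + t * R'))) f ∧
        Flat δ₁ (ann ((1 - t) • a + t • a') ((1 - t) * R + t * R')) f) →
      Iso (rep f a R) (rep f a' R'))
    (hm : 2 ≤ m) {δ c : ℝ} (h0 : 0 ≤ δ) (h1 : δ ≤ 1 / 2000) (h2 : 2000 * δ ≤ δ₁)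
    {f : V m → V m} {μ : Measure (V m)} [IsFiniteMeasure μ] (h : Ctrl δ c (ball 0 1) f μ)
    (a a' : V m) {R R' : ℝ} (hR : 0 < R) (hR' : 0 < R')
    (hin : ∀ t ∈ Icc (0 : ℝ) 1, closedBall ((1 - t) • a + t • a')
      (9 / 4 * ((1 - t) * R + t * R')) ⊆ ball 0 1)
    (hma : ∀ t ∈ Icc (0 : ℝ) 1, μ.real (closedBall ((1 - t) • a + t • a')
      (9 / 4 * ((1 - t) * R + t * R')) \ ball ((1 - t) • a + t • a')
      (3 / 4 * ((1 - t) * R + t * R'))) ≤ c) :
    Iso (rep f a R) (rep f a' R') := by
  refine hrm f a a' R R' hR hR' fun t ht => ?_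
  have hpos : 0 < (1 - t) * R + t * R' := by
    obtain ⟨h0, h1⟩ := ht
    rcases eq_or_lt_of_le h0 with h | h
    · rw [← h]; simpa using hR
    · have : 0 ≤ (1 - t) * R := mul_nonneg (by linarith) hR.le
      have := mul_pos h hR'
      linarith
  have hi := hin t ht
  have hc := hma t ht
  generalize (1 - t) * R + t * R' = ρ at *
  generalize (1 - t) • a + t • a' = b at *
  constructor
  · intro x hx
    refine h.imm x (hi ?_)
    exact closedBall_subset_closedBall (by linarith) hx
  · exact Flat.mono (ann_ctrl hm h0 h1 h hpos hi hc) h2 le_rfl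

theorem heavy_step (m : ℕ) (hm : 2 ≤ m) : ∃ δ₀ : ℝ, 0 < δ₀ ∧ ∀ (δ c E : ℝ) (f : V m → V m)
    (μ : Measure (V m)), 0 ≤ δ → δ ≤ δ₀ → 0 < c → c ≤ E → Loc δ c E f μ →
    ∃ (g : V m → V m) (ν : Measure (V m)), Loc δ c E g ν ∧ Light c E ν ∧ Iso (cls f) (cls g) := by
  obtain ⟨δ₁, hδ₁, hrm⟩ := rep_move m hm
  refine ⟨min (1 / 2000) (δ₁ / 2000), by positivity, ?_⟩
  intro δ c E f μ h0 hδ hc hcE hL
  have h1 : δ ≤ 1 / 2000 := hδ.trans (min_le_left _ _)
  have h2 : 2000 * δ ≤ δ₁ := by
    have := hδ.trans (min_le_right _ _)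
    linarith
  have := hL.fin
  have hsub : ∀ {x : V m} {a : V m} {ρ : ℝ}, x ∈ closedBall a ρ → ‖x‖ ≤ ρ + ‖a‖ := by
    intro x a ρ hx
    rw [mem_closedBall, dist_eq_norm] at hx
    have := norm_add_le (x - a) a
    rw [sub_add_cancel] at this
    linarith
  have hmv : ∀ (a a' : V m), ‖a‖ ≤ 5 / 64 → ‖a'‖ ≤ 5 / 64 →
      Iso (rep f a (1 / 4)) (rep f a' (1 / 4)) := by
    intro a a' ha ha'
    have hat : ∀ t ∈ Icc (0 : ℝ) 1, ‖(1 - t) • a + t • a'‖ ≤ 5 / 64 := by
      intro t ht
      obtain ⟨ht0, ht1⟩ := ht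
      calc ‖(1 - t) • a + t • a'‖ ≤ ‖(1 - t) • a‖ + ‖t • a'‖ := norm_add_le _ _
        _ = (1 - t) * ‖a‖ + t * ‖a'‖ := by
            rw [norm_smul, norm_smul, Real.norm_eq_abs, Real.norm_eq_abs,
              abs_of_nonneg (by linarith : 0 ≤ 1 - t), abs_of_nonneg ht0]
        _ ≤ (1 - t) * (5 / 64) + t * (5 / 64) := by gcongr
        _ = 5 / 64 := by ring
    refine move_aux hrm hm h0 h1 h2 hL.ctrl a a' (by norm_num) (by norm_num) ?_ ?_
    · intro t ht x hx
      have e : (1 - t) * (1 / 4 : ℝ) + t * (1 / 4) = 1 / 4 := by ring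
      rw [e] at hx
      have := hsub hx
      have := hat t ht
      rw [mem_ball, dist_zero_right]
      linarith
    · intro t ht
      have e : (1 - t) * (1 / 4 : ℝ) + t * (1 / 4) = 1 / 4 := by ring
      rw [e]
      have hb := hat t ht
      generalize (1 - t) • a + t • a' = b at hb
      have hss : closedBall b (9 / 4 * (1 / 4)) \ ball b (3 / 4 * (1 / 4)) ⊆
          ball 0 1 \ closedBall 0 (1 / 16) := by
        rintro x ⟨hx1, hx2⟩
        constructor
        · have := hsub hx1
          rw [mem_ball, dist_zero_right]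
          linarith
        · intro hx3
          apply hx2
          rw [mem_closedBall, dist_zero_right] at hx3
          rw [mem_ball, dist_eq_norm]
          have := norm_sub_le x b
          linarith
      calc μ.real _ ≤ μ.real (ball 0 1 \ closedBall 0 (1 / 16)) := measureReal_mono hss
        _ ≤ c / 4 := hL.collar
        _ ≤ c := by linarith
  by_cases hlight : Light c E μ
  · refine ⟨f, μ, hL, hlight, ?_⟩
    exact hmv 0 0 (by simp; norm_num) (by simp; norm_num)
  · unfold Light at hlight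
    push Not at hlight
    obtain ⟨z₁, r₁, hr₁, hr₁', hb₁, hh₁⟩ := hlight
    obtain ⟨z₀, r₀, hr₀, hr₀', hz₀, hheavy, hmin⟩ :=
      heavy_min hc hcE hL.atom hL.collar hr₁ hr₁' hb₁ hh₁
    have hs : 0 < 32 * r₀ := by linarith
    -- the complement of the heavy ball is light
    have hb0 : closedBall z₀ r₀ ⊆ ball 0 1 := by
      intro x hx
      have := hsub hx
      rw [mem_ball, dist_zero_right]
      linarith
    have hcomp : μ.real (ball 0 1 \ closedBall z₀ r₀) ≤ c / 8 := by
      rw [measureReal_sdiff hb0 measurableSet_closedBall]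
      have := hL.mass
      linarith
    have hball : ball z₀ (32 * r₀) ⊆ ball (0 : V m) 1 := by
      intro x hx
      have := hsub (ball_subset_closedBall hx)
      rw [mem_ball, dist_zero_right]
      linarith
    have hloc : Loc δ c E (fun v => f (z₀ + (32 * r₀) • v)) (pull z₀ (32 * r₀) μ) := by
      refine loc_sub hL.fin hL.atom hL.ctrl hs hball ((measureReal_mono hball).trans hL.mass) ?_
      refine (measureReal_mono ?_).trans (hcomp.trans (by linarith))
      rintro x ⟨hx1, hx2⟩
      refine ⟨hball hx1, fun hx3 => hx2 ?_⟩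
      exact closedBall_subset_closedBall (by linarith) hx3
    refine ⟨_, _, hloc, ?_, ?_⟩
    · intro z r hr hr' hzr
      rw [pull_closedBall hs]
      refine hmin _ _ (by positivity) ?_ ?_
      · calc 32 * r₀ * r ≤ 32 * r₀ * (1 / 64) := by gcongr
          _ = r₀ / 2 := by ring
      · intro y hy
        have hv : (32 * r₀)⁻¹ • (y - z₀) ∈ closedBall z r := by
          rw [mem_closedBall, dist_eq_norm] at hy ⊢
          have e : (32 * r₀)⁻¹ • (y - z₀) - z = (32 * r₀)⁻¹ • (y - (z₀ + (32 * r₀) • z)) := by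
            have h3 : z = (32 * r₀)⁻¹ • ((32 * r₀) • z) := by
              rw [smul_smul, inv_mul_cancel₀ hs.ne', one_smul]
            nth_rewrite 1 [h3]
            rw [← smul_sub]
            congr 1
            abel
          rw [e, norm_smul, norm_inv, Real.norm_eq_abs, abs_of_pos hs]
          rw [inv_mul_le_iff₀ hs]
          exact hy
        have hv1 := hzr hv
        rw [mem_ball, dist_zero_right, norm_smul, norm_inv, Real.norm_eq_abs, abs_of_pos hs,
          inv_mul_lt_iff₀ hs, mul_one] at hv1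
        have := norm_add_le (y - z₀) z₀
        rw [sub_add_cancel] at this
        rw [mem_ball, dist_zero_right]
        linarith
    · have e : cls (fun v => f (z₀ + (32 * r₀) • v)) = rep f z₀ (8 * r₀) := by
        unfold cls
        rw [rep_comp, smul_zero, add_zero]
        congr 1
        ring
      rw [e]
      refine Iso.trans (hmv 0 z₀ (by simp; norm_num) hz₀) ?_
      refine move_aux hrm hm h0 h1 h2 hL.ctrl z₀ z₀ (by norm_num) (by positivity) ?_ ?_
      · intro t ht x hx
        obtain ⟨ht0, ht1⟩ := ht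
        have e1 : (1 - t) • z₀ + t • z₀ = z₀ := by rw [← add_smul]; simp
        rw [e1] at hx
        have := hsub hx
        have h4 : (1 - t) * (1 / 4 : ℝ) + t * (8 * r₀) ≤ 1 / 4 := by
          nlinarith
        rw [mem_ball, dist_zero_right]
        linarith
      · intro t ht
        obtain ⟨ht0, ht1⟩ := ht
        have e1 : (1 - t) • z₀ + t • z₀ = z₀ := by rw [← add_smul]; simp
        rw [e1]
        have h4 : (1 - t) * (1 / 4 : ℝ) + t * (8 * r₀) ≤ 1 / 4 := by
          nlinarith
        have h5 : 8 * r₀ ≤ (1 - t) * (1 / 4 : ℝ) + t * (8 * r₀) := by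
          nlinarith
        generalize (1 - t) * (1 / 4 : ℝ) + t * (8 * r₀) = ρ at h4 h5
        refine (measureReal_mono ?_).trans (hcomp.trans (by linarith))
        rintro x ⟨hx1, hx2⟩
        constructor
        · have := hsub hx1
          rw [mem_ball, dist_zero_right]
          linarith
        · intro hx3
          apply hx2
          rw [mem_closedBall] at hx3
          rw [mem_ball]
          linarith

end Pool.Agent.Lib.P28f
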