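import Pool.Agent.Lib.P28f.CaseA
import Pool.Agent.Lib.P28f.HeavyStep
import Pool.Agent.Lib.P28f.BaseCls

set_option autoImplicit false

/-!
# Finitely many local classes below every mass
-/

open MeasureTheory Set Metric
open scoped ContDiff Topology

namespace Pool.Agent.Lib.P28f

variable {m : ℕ}

theorem Loc.mono {δ c E E' : ℝ} {f : V m → V m} {μ : Measure (V m)} (h : Loc δ c E f μ)
    (hE : E ≤ E') : Loc δ c E' f μ :=
  ⟨h.fin, h.atom, h.ctrl, h.mass.trans hE, h.collar⟩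

theorem fin_all (m : ℕ) (hm : 2 ≤ m) : ∃ δ₀ : ℝ, 0 < δ₀ ∧ ∀ δ c : ℝ, 0 ≤ δ → δ ≤ δ₀ → 0 < c →
    ∀ E : ℝ, FinCls m δ c E := by
  obtain ⟨δ₁, hδ₁, hA⟩ := case_A m hm
  obtain ⟨δ₂, hδ₂, hH⟩ := heavy_step m hm
  obtain ⟨δ₃, hδ₃, hB⟩ := base_cls m hm
  refine ⟨min (min δ₁ δ₂) δ₃, by positivity, ?_⟩
  intro δ c h0 hδ hc
  have h1 : δ ≤ δ₁ := hδ.trans ((min_le_left _ _).trans (min_le_left _ _))
  have h2 : δ ≤ δ₂ := hδ.trans ((min_le_left _ _).trans (min_le_right _ _))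
  have h3 : δ ≤ δ₃ := hδ.trans (min_le_right _ _)
  have key : ∀ k : ℕ, FinCls m δ c (c + k * (c / 8)) := by
    intro k
    induction k with
    | zero =>
      intro f μ hf
      refine ⟨0, 1, by norm_num, ?_⟩
      have hb : ∀ j, Iso (cls (f j)) id := fun j =>
        hB δ c _ (f j) (μ j) h0 h3 (by simp) (hf j)
      exact (hb 0).trans (hb 1).symm
    | succ k ih =>
      intro f μ hf
      have hE : c ≤ c + ((k + 1 : ℕ) : ℝ) * (c / 8) := by
        have : 0 ≤ ((k + 1 : ℕ) : ℝ) * (c / 8) := by positivity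
        linarith
      choose g ν hg hlight hiso using fun j => hH δ c _ (f j) (μ j) h0 h2 hc hE (hf j)
      have e : c + ((k + 1 : ℕ) : ℝ) * (c / 8) - c / 8 = c + (k : ℝ) * (c / 8) := by
        push_cast
        ring
      obtain ⟨i, j, hij, h⟩ := hA δ c _ h0 h1 hc hE (by rw [e]; exact ih) g ν
        fun j => ⟨hg j, hlight j⟩
      exact ⟨i, j, hij, ((hiso i).trans h).trans (hiso j).symm⟩
  intro E f μ hf
  obtain ⟨k, hk⟩ := exists_nat_ge ((E - c) / (c / 8))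
  have hE : E ≤ c + (k : ℝ) * (c / 8) := by
    rw [div_le_iff₀ (by positivity)] at hk
    linarith
  exact key k f μ fun j => (hf j).mono hE

end Pool.Agent.Lib.P28f
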