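import Pool.Agent.Lib.P28f.CoreDif
import Pool.Agent.Lib.P28f.CorePath

set_option autoImplicit false

/-!
# Inserting a core

Notation: `v = (2 R)⁻¹ • (x - a)`, `A = aff H a R` (affine, linear part `L = fderiv H (a + 2 R w0)`), `f̂ v = H (a + 2 R v)`, so `rep H a R = core f̂` and
`nrm f̂ v = (2 R)⁻¹ • (A⁻¹ (H (a + 2 R v)) - a)`, i.e. `A (a + (2 R) • nrm f̂ v) = H (a + 2 R v)`.
PROOF SKETCH. (i) `ins H a R (rep H a R) = H + κ(v) • (A - H)` with `κ = (1 - cut) cut2` (where `cut2 ≠ 1` we have `‖v‖ > 3/4`, `cut = 0`). The straight line from `H` to it consists of immersions: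
for `‖v‖ < 1/2` nothing changes; for `1/2 ≤ ‖v‖ ≤ 1` `L⁻¹ * derivative` is within `const (m) * δ₀` of `1`: `L⁻¹ (fderiv H - L) = fderiv (nrm f̂) v - 1` (norm `≤ δ₀`),
`(2 R)⁻¹ L⁻¹ (A x - H x) = v - nrm f̂ v` (norm `≤ 6 δ₀`, `nrm_near`), `fderiv` of `κ((2R)⁻¹ (x - a))` is `(2 R)⁻¹ dκ`; outside nothing changes. Both ends are in `Dif`: the support condition holds
because `ins H = H` unless `‖x - a‖ < 7/4 R`, and then `‖x‖ < 3/4`. Use `Iso.straight` (note `Iso.straight` needs `Dif` of both ends; the derivative computation gives it).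
(ii) `Iso (rep H a R) k` with the path `K`: `t ↦ ins H a R (K (t, .))` is a smooth path; `‖v‖ < 3/4`: derivative `L * fderiv (K (t, .)) v`, a unit; `3/4 ≤ ‖v‖ ≤ 1`: `K (t, v) = v`, so
`ins = H + cut2 (A - H)`, within `const δ₀` of `L` (after `L⁻¹`); `‖v‖ ≥ 7/8`: `ins = H`. Smoothness of `ins` in `(t, x)`: all ingredients are smooth everywhere (`K`, `H`, `cut2`).
(iii) the four assertions about `ins H a R k` are read off (at `‖v‖ = 3/4` the derivative of `k` is `1` by continuity from outside).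
The private lemma `ins_facts` for one `k ∈ Dif` (smooth, unit derivative, support, the three formulas) should be proved first, and used for `k = rep H a R`, `K (t, .)` and `k`.
-/

open MeasureTheory Set Metric
open scoped ContDiff Topology

namespace Pool.Agent.Lib.P28f

variable {m : ℕ}

private lemma hasFDerivAt_scale (a : V m) (s : ℝ) (x : V m) :
    HasFDerivAt (fun y : V m => s⁻¹ • (y - a)) (s⁻¹ • (1 : EV m)) x :=
  ((hasFDerivAt_id x).sub_const a).const_smul s⁻¹

private lemma hasFDerivAt_hat {H : V m → V m} (hH : Dif H) (a : V m) (s : ℝ) (v : V m) :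
    HasFDerivAt (fun v => H (a + s • v)) (s • fderiv ℝ H (a + s • v) : EV m) v := by
  have h1 : HasFDerivAt (fun v : V m => a + s • v) (s • (1 : EV m)) v :=
    ((hasFDerivAt_id v).const_smul s).const_add a
  have h2 : HasFDerivAt H (fderiv ℝ H (a + s • v)) (a + s • v) :=
    (hH.smooth.differentiable (by simp) _).hasFDerivAt
  have h3 := h2.comp v h1
  have h4 : (s • fderiv ℝ H (a + s • v) : EV m) =
      (fderiv ℝ H (a + s • v) : EV m).comp (s • (1 : EV m)) := by
    ext w
    simp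
  rw [h4]
  exact h3

private lemma isUnit_smul {s : ℝ} (hs : s ≠ 0) {L : EV m} (hL : IsUnit L) : IsUnit (s • L) := by
  obtain ⟨u, rfl⟩ := hL
  exact ((Units.mk0 s hs) • u).isUnit

private lemma inverse_smul {s : ℝ} (hs : s ≠ 0) {L : EV m} (hL : IsUnit L) :
    Ring.inverse (s • L) = s⁻¹ • Ring.inverse L := by
  have h1 := Ring.inverse_mul_cancel _ (isUnit_smul hs hL)
  have h2 : (s • L) * (s⁻¹ • Ring.inverse L) = 1 := by
    rw [smul_mul_smul_comm, Ring.mul_inverse_cancel _ hL, mul_inv_cancel₀ hs, one_smul]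
  calc Ring.inverse (s • L) = Ring.inverse (s • L) * ((s • L) * (s⁻¹ • Ring.inverse L)) := by
        rw [h2, mul_one]
    _ = s⁻¹ • Ring.inverse L := by rw [← mul_assoc, h1, one_mul]

private lemma inv_app {L : EV m} (hL : IsUnit L) (w : V m) : Ring.inverse L (L w) = w := by
  have h := congrArg (fun T : EV m => T w) (Ring.inverse_mul_cancel _ hL)
  simpa using h

private lemma app_inv {L : EV m} (hL : IsUnit L) (w : V m) : L (Ring.inverse L w) = w := by
  have h := congrArg (fun T : EV m => T w) (Ring.mul_inverse_cancel _ hL)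
  simpa using h

/-- the normalised map in the original coordinates -/
private lemma nrm_hat {H : V m → V m} (hH : Dif H) (a : V m) {s : ℝ} (hs : s ≠ 0) (v : V m) :
    nrm (fun v => H (a + s • v)) v = w0 m + s⁻¹ • Ring.inverse (fderiv ℝ H (a + s • w0 m) : EV m)
      (H (a + s • v) - H (a + s • w0 m)) := by
  unfold nrm
  rw [(hasFDerivAt_hat hH a s (w0 m)).fderiv, inverse_smul hs (hH.unit _)]
  rfl

private lemma norm_scale {a x : V m} {R : ℝ} (hR : 0 < R) :
    ‖(2 * R)⁻¹ • (x - a)‖ = ‖x - a‖ / (2 * R) := by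
  rw [norm_smul, norm_inv, Real.norm_of_nonneg (by positivity)]
  field_simp

private lemma unscale {a x : V m} {R : ℝ} (hR : 0 < R) :
    a + (2 * R) • ((2 * R)⁻¹ • (x - a)) = x := by
  rw [smul_smul, mul_inv_cancel₀ (by positivity), one_smul, add_sub_cancel]

/-- the difference of `H` and its affine approximation -/
private lemma aff_sub {H : V m → V m} (hH : Dif H) {a : V m} {R : ℝ} (hR : 0 < R) (x : V m) :
    (2 * R)⁻¹ • Ring.inverse (fderiv ℝ H (a + (2 * R) • w0 m) : EV m) (aff H a R x - H x) =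
      (2 * R)⁻¹ • (x - a) - nrm (fun v => H (a + (2 * R) • v)) ((2 * R)⁻¹ • (x - a)) := by
  have hs : (2 * R) ≠ 0 := by positivity
  rw [nrm_hat hH a hs, unscale hR]
  unfold aff
  have h1 : H (a + (2 * R) • w0 m) + fderiv ℝ H (a + (2 * R) • w0 m) (x - (a + (2 * R) • w0 m))
      - H x = fderiv ℝ H (a + (2 * R) • w0 m) (x - (a + (2 * R) • w0 m)) -
        (H x - H (a + (2 * R) • w0 m)) := by abel
  rw [h1, map_sub, inv_app (hH.unit _), smul_sub]
  have h2 : (2 * R)⁻¹ • (x - (a + (2 * R) • w0 m)) = (2 * R)⁻¹ • (x - a) - w0 m := by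
    rw [← sub_sub, smul_sub, smul_smul, inv_mul_cancel₀ hs, one_smul]
  rw [h2]
  abel

private lemma hasFDerivAt_aff (H : V m → V m) (a : V m) (R : ℝ) (x : V m) :
    HasFDerivAt (aff H a R) (fderiv ℝ H (a + (2 * R) • w0 m) : EV m) x := by
  unfold aff
  have h1 := (fderiv ℝ H (a + (2 * R) • w0 m) : EV m).hasFDerivAt
    (x := x - (a + (2 * R) • w0 m))
  have h2 : HasFDerivAt (fun y : V m => y - (a + (2 * R) • w0 m)) (1 : EV m) x :=
    (hasFDerivAt_id x).sub_const _
  exact (h1.comp x h2).const_add _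

private lemma contDiff_aff (H : V m → V m) (a : V m) (R : ℝ) : ContDiff ℝ ∞ (aff H a R) := by
  unfold aff
  exact contDiff_const.add ((ContinuousLinearMap.contDiff _).comp (contDiff_id.sub contDiff_const))

/-- interpolation between `H` and its affine approximation -/
private noncomputable def mix (H : V m → V m) (a : V m) (R : ℝ) (χ : V m → ℝ) (y : V m) : V m :=
  H y + χ ((2 * R)⁻¹ • (y - a)) • (aff H a R y - H y)

private lemma contDiff_mix {H : V m → V m} (hH : Dif H) (a : V m) (R : ℝ) {χ : V m → ℝ}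
    (hχ : ContDiff ℝ ∞ χ) : ContDiff ℝ ∞ (mix H a R χ) := by
  unfold mix
  have h1 : ContDiff ℝ ∞ (fun y : V m => (2 * R)⁻¹ • (y - a)) := by fun_prop
  have h2 : ContDiff ℝ ∞ (fun y : V m => χ ((2 * R)⁻¹ • (y - a))) := hχ.comp h1
  exact hH.smooth.add (h2.fun_smul ((contDiff_aff H a R).sub hH.smooth))

private lemma hasFDerivAt_mix {H : V m → V m} (hH : Dif H) (a : V m) (R : ℝ) {χ : V m → ℝ}
    (hχ : ContDiff ℝ ∞ χ) (x : V m) :
    HasFDerivAt (mix H a R χ) ((fderiv ℝ H x : EV m) +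
      (χ ((2 * R)⁻¹ • (x - a)) • ((fderiv ℝ H (a + (2 * R) • w0 m) : EV m) - fderiv ℝ H x) +
        ((fderiv ℝ χ ((2 * R)⁻¹ • (x - a))).comp ((2 * R)⁻¹ • (1 : EV m))).smulRight
          (aff H a R x - H x))) x := by
  have h1 : HasFDerivAt H (fderiv ℝ H x) x := (hH.smooth.differentiable (by simp) _).hasFDerivAt
  have h2 := hasFDerivAt_aff H a R x
  have h3 : HasFDerivAt χ (fderiv ℝ χ ((2 * R)⁻¹ • (x - a))) ((2 * R)⁻¹ • (x - a)) :=
    (hχ.differentiable (by simp) _).hasFDerivAt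
  have h4 := h3.comp x (hasFDerivAt_scale a (2 * R) x)
  exact h1.add (h4.smul (h2.sub h1))

private lemma mix_near (hm : 2 ≤ m) {H : V m → V m} {a : V m} {R δ B : ℝ} (hH : Dif H)
    (hR : 0 < R) (hδ : 0 ≤ δ) (hF : Flat δ (ann a R) H) {χ : V m → ℝ} (hχ : ContDiff ℝ ∞ χ)
    (hB : ∀ v, ‖fderiv ℝ χ v‖ ≤ B) (h0 : ∀ v, 0 ≤ χ v) (h1 : ∀ v, χ v ≤ 1) {x : V m}
    (hx : x ∈ ann a R) :
    ‖Ring.inverse (fderiv ℝ H (a + (2 * R) • w0 m) : EV m) * fderiv ℝ (mix H a R χ) x - 1‖ ≤
      δ * (1 + 6 * B) := by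
  have hs : (2 * R) ≠ 0 := by positivity
  have hB0 : 0 ≤ B := (norm_nonneg _).trans (hB 0)
  set v : V m := (2 * R)⁻¹ • (x - a) with hv
  set L : EV m := fderiv ℝ H (a + (2 * R) • w0 m) with hL
  have hLu : IsUnit L := hH.unit _
  have hw0 : ‖w0 m‖ = 3 / 4 := norm_w0 (by omega)
  have hvn : ‖v‖ = ‖x - a‖ / (2 * R) := norm_scale hR
  have hvann : v ∈ ann (0 : V m) (1 / 2) := by
    constructor
    · rw [sub_zero, hvn, le_div_iff₀ (by positivity)]
      linarith [hx.1]
    · rw [sub_zero, hvn, div_le_iff₀ (by positivity)]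
      linarith [hx.2]
  have hann : ∀ u ∈ ann (0 : V m) (1 / 2), a + (2 * R) • u ∈ ann a R := by
    intro u hu
    have h2 : ‖a + (2 * R) • u - a‖ = 2 * R * ‖u‖ := by
      rw [add_sub_cancel_left, norm_smul, Real.norm_of_nonneg (by positivity)]
    obtain ⟨hu1, hu2⟩ := hu
    rw [sub_zero] at hu1 hu2
    constructor
    · rw [h2]; nlinarith
    · rw [h2]; nlinarith
  have hw0ann : a + (2 * R) • w0 m ∈ ann a R := by
    apply hann
    constructor <;> rw [sub_zero, hw0] <;> norm_num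
  have hImm : Imm (ann (0 : V m) (1 / 2)) (fun v => H (a + (2 * R) • v)) := by
    intro u _
    constructor
    · have h2 : ContDiff ℝ ∞ (fun v : V m => a + (2 * R) • v) := by fun_prop
      exact (hH.smooth.comp h2).contDiffAt
    · rw [(hasFDerivAt_hat hH a (2 * R) u).fderiv]
      exact isUnit_smul hs (hH.unit _)
  have hFl : Flat δ (ann (0 : V m) (1 / 2)) (fun v => H (a + (2 * R) • v)) := by
    apply flat_comp hs
    · intro u _
      exact ⟨hH.smooth.differentiable (by simp) _, hH.unit _⟩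
    · intro y hy z hz
      obtain ⟨y, hy, rfl⟩ := hy
      obtain ⟨z, hz, rfl⟩ := hz
      exact hF _ (hann y hy) _ (hann z hz)
  have hnear := (nrm_near hm hδ hImm hFl hvann).2
  have hflat : ‖Ring.inverse L * fderiv ℝ H x - 1‖ ≤ δ := hF _ hw0ann _ hx
  have hd := (hasFDerivAt_mix hH a R hχ x).fderiv
  have hval := aff_sub (a := a) hH hR x
  rw [← hv, ← hL] at hval hd
  apply ContinuousLinearMap.opNorm_le_bound _ (by positivity)
  intro w
  have hexp : (Ring.inverse L * fderiv ℝ (mix H a R χ) x - 1 : EV m) w =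
      (1 - χ v) • ((Ring.inverse L * fderiv ℝ H x - 1 : EV m) w) +
        (fderiv ℝ χ v w) • (v - nrm (fun v => H (a + (2 * R) • v)) v) := by
    have e1 : (Ring.inverse L * fderiv ℝ (mix H a R χ) x - 1 : EV m) w =
        Ring.inverse L (fderiv ℝ (mix H a R χ) x w) - w := rfl
    have e2 : (Ring.inverse L * fderiv ℝ H x - 1 : EV m) w =
        Ring.inverse L (fderiv ℝ H x w) - w := rfl
    have e3 : fderiv ℝ (mix H a R χ) x w = fderiv ℝ H x w +
        (χ v • (L w - fderiv ℝ H x w) +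
          (fderiv ℝ χ v ((2 * R)⁻¹ • w)) • (aff H a R x - H x)) := by
      rw [hd]
      rfl
    rw [e1, e2, e3, ← hval, map_add, map_add, map_smul, map_smul, map_smul, map_sub,
      inv_app hLu, smul_eq_mul, smul_smul]
    module
  rw [hexp]
  have hχ1 : ‖(1 - χ v)‖ ≤ 1 := by
    rw [Real.norm_eq_abs, abs_le]
    constructor <;> linarith [h0 v, h1 v]
  calc ‖(1 - χ v) • ((Ring.inverse L * fderiv ℝ H x - 1 : EV m) w) +
        (fderiv ℝ χ v w) • (v - nrm (fun v => H (a + (2 * R) • v)) v)‖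
      ≤ ‖(1 - χ v)‖ * ‖(Ring.inverse L * fderiv ℝ H x - 1 : EV m) w‖ +
        ‖fderiv ℝ χ v w‖ * ‖v - nrm (fun v => H (a + (2 * R) • v)) v‖ := by
        refine (norm_add_le _ _).trans ?_
        rw [norm_smul, norm_smul]
    _ ≤ 1 * (δ * ‖w‖) + (B * ‖w‖) * (6 * δ) := by
        apply add_le_add
        · apply mul_le_mul hχ1 _ (norm_nonneg _) zero_le_one
          exact (ContinuousLinearMap.le_opNorm _ w).trans
            (mul_le_mul_of_nonneg_right hflat (norm_nonneg _))
        · apply mul_le_mul _ _ (norm_nonneg _) (by positivity)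
          · exact (ContinuousLinearMap.le_opNorm _ w).trans
              (mul_le_mul_of_nonneg_right (hB v) (norm_nonneg _))
          · rw [norm_sub_rev]
            exact hnear
    _ = δ * (1 + 6 * B) * ‖w‖ := by ring

private lemma exists_fderiv_bound {χ : V m → ℝ} (hχ : ContDiff ℝ ∞ χ)
    (hc : HasCompactSupport χ) : ∃ B : ℝ, 0 ≤ B ∧ ∀ v, ‖fderiv ℝ χ v‖ ≤ B := by
  obtain ⟨B, hB⟩ := (hχ.continuous_fderiv (by simp)).bounded_above_of_compact_support
    (hc.fderiv ℝ)
  exact ⟨max B 0, le_max_right _ _, fun v => (hB v).trans (le_max_left _ _)⟩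

/-- the product of the cut-off functions -/
private noncomputable def kap (m : ℕ) (v : V m) : ℝ := cut2 m v * (1 - cut m v)

private lemma contDiff_kap (m : ℕ) : ContDiff ℝ ∞ (kap m) := by
  unfold kap
  exact (cut2 m).contDiff.mul (contDiff_const.sub (cut m).contDiff)

private lemma compact_kap (m : ℕ) : HasCompactSupport (kap m) := by
  unfold kap
  exact (cut2 m).hasCompactSupport.mul_right

private lemma cut2_one {v : V m} (hv : ‖v‖ ≤ 3 / 4) : cut2 m v = 1 := by
  apply (cut2 m).one_of_mem_closedBall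
  rw [mem_closedBall_zero_iff]
  exact hv

private lemma cut2_zero {v : V m} (hv : 7 / 8 ≤ ‖v‖) : cut2 m v = 0 := by
  apply (cut2 m).zero_of_le_dist
  rw [dist_zero_right]
  exact hv

private lemma cut_one {v : V m} (hv : ‖v‖ ≤ 1 / 2) : cut m v = 1 := by
  apply (cut m).one_of_mem_closedBall
  rw [mem_closedBall_zero_iff]
  exact hv

private lemma kap_nonneg (v : V m) : 0 ≤ kap m v := by
  unfold kap
  exact mul_nonneg (cut2 m).nonneg (by linarith [(cut m).le_one (x := v)])

private lemma kap_le_one (v : V m) : kap m v ≤ 1 := by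
  unfold kap
  exact mul_le_one₀ (cut2 m).le_one (by linarith [(cut m).le_one (x := v)])
    (by linarith [(cut m).nonneg (x := v)])

private lemma w0_mem_ann (hm : 2 ≤ m) {a : V m} {R : ℝ} (hR : 0 < R) :
    a + (2 * R) • w0 m ∈ ann a R := by
  have hw0 : ‖w0 m‖ = 3 / 4 := norm_w0 (by omega)
  have h2 : ‖a + (2 * R) • w0 m - a‖ = 2 * R * (3 / 4) := by
    rw [add_sub_cancel_left, norm_smul, Real.norm_of_nonneg (by positivity), hw0]
  constructor <;> rw [h2] <;> linarith

private lemma ins_eq_mix {H : V m → V m} {a : V m} {R : ℝ} (hR : 0 < R) {k : V m → V m}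
    (hk : Dif k) {x : V m} (hx : 3 / 2 * R ≤ ‖x - a‖) :
    ins H a R k x = mix H a R (cut2 m) x := by
  have h1 : 3 / 4 ≤ ‖(2 * R)⁻¹ • (x - a)‖ := by
    rw [norm_scale hR, le_div_iff₀ (by positivity)]
    linarith
  unfold ins mix
  rw [hk.supp _ h1, unscale hR]

private lemma ins_rep_eq {H : V m → V m} (hH : Dif H) {a : V m} {R : ℝ} (hR : 0 < R) :
    ins H a R (rep H a R) = mix H a R (kap m) := by
  funext x
  have hs : (2 * R) ≠ 0 := by positivity
  have hval := aff_sub (a := a) hH hR x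
  unfold ins mix kap rep core
  set v : V m := (2 * R)⁻¹ • (x - a) with hv
  set N : V m := nrm (fun v => H (a + (2 * R) • v)) v with hN
  have h1 : a + (2 * R) • v = x := unscale hR
  have h2 : fderiv ℝ H (a + (2 * R) • w0 m) ((2 * R) • (N - v)) = H x - aff H a R x := by
    have h3 : N - v = (2 * R)⁻¹ • Ring.inverse (fderiv ℝ H (a + (2 * R) • w0 m) : EV m)
        (H x - aff H a R x) := by
      have h4 : H x - aff H a R x = - (aff H a R x - H x) := by abel
      rw [h4, map_neg, smul_neg, hval]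
      abel
    rw [h3, smul_smul, mul_inv_cancel₀ hs, one_smul, app_inv (hH.unit _)]
  have h5 : aff H a R (a + (2 * R) • (v + cut m v • (N - v))) =
      aff H a R x + cut m v • (H x - aff H a R x) := by
    rw [← h2]
    have h6 : a + (2 * R) • (v + cut m v • (N - v)) = x + cut m v • ((2 * R) • (N - v)) := by
      rw [smul_add, ← add_assoc, h1, smul_comm]
    rw [h6]
    unfold aff
    rw [add_sub_right_comm, map_add, map_smul]
    abel
  rw [h5]
  module

private lemma contDiff_ins {H : V m → V m} (hH : Dif H) (a : V m) (R : ℝ) {K : ℝ × V m → V m}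
    (hK : ContDiff ℝ ∞ K) :
    ContDiff ℝ ∞ (fun q : ℝ × V m => ins H a R (fun v => K (q.1, v)) q.2) := by
  unfold ins
  have h1 : ContDiff ℝ ∞ (fun q : ℝ × V m => (2 * R)⁻¹ • (q.2 - a)) := by fun_prop
  have h2 : ContDiff ℝ ∞ (fun q : ℝ × V m => K (q.1, (2 * R)⁻¹ • (q.2 - a))) :=
    hK.comp (contDiff_fst.prodMk h1)
  have h3 : ContDiff ℝ ∞ (fun q : ℝ × V m => cut2 m ((2 * R)⁻¹ • (q.2 - a))) :=
    (cut2 m).contDiff.comp h1
  have h4 : ContDiff ℝ ∞ (fun q : ℝ × V m => H q.2) := hH.smooth.comp contDiff_snd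
  have h5 : ContDiff ℝ ∞ (fun q : ℝ × V m =>
      aff H a R (a + (2 * R) • K (q.1, (2 * R)⁻¹ • (q.2 - a)))) :=
    (contDiff_aff H a R).comp (contDiff_const.add (h2.const_smul _))
  exact h4.add (h3.fun_smul (h5.sub h4))

private lemma ins_smooth {H : V m → V m} (hH : Dif H) (a : V m) (R : ℝ) {k : V m → V m}
    (hk : Dif k) : ContDiff ℝ ∞ (ins H a R k) := by
  have h1 : ContDiff ℝ ∞ (fun q : ℝ × V m => k q.2) := hk.smooth.comp contDiff_snd
  have h2 : ContDiff ℝ ∞ (fun x : V m => ((0 : ℝ), x)) := by fun_prop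
  exact (contDiff_ins hH a R h1).comp h2

private lemma ins_outer {H : V m → V m} {a : V m} {R : ℝ} (hR : 0 < R) (k : V m → V m) {x : V m}
    (hx : 7 / 4 * R ≤ ‖x - a‖) : ins H a R k x = H x := by
  have h1 : 7 / 8 ≤ ‖(2 * R)⁻¹ • (x - a)‖ := by
    rw [norm_scale hR, le_div_iff₀ (by positivity)]
    linarith
  unfold ins
  rw [cut2_zero h1, zero_smul, add_zero]

private lemma ins_inner {H : V m → V m} (_ : Dif H) {a : V m} {R : ℝ} (hR : 0 < R)
    {k : V m → V m} (hk : Dif k) {x : V m} (hx : ‖x - a‖ < 3 / 2 * R) :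
    (fderiv ℝ (ins H a R k) x : EV m) =
        fderiv ℝ H (a + (2 * R) • w0 m) * fderiv ℝ k ((2 * R)⁻¹ • (x - a)) := by
  have hs : (2 * R) ≠ 0 := by positivity
  have h1 : ins H a R k =ᶠ[𝓝 x] fun y => aff H a R (a + (2 * R) • k ((2 * R)⁻¹ • (y - a))) := by
    have h2 : ∀ᶠ y in 𝓝 x, ‖y - a‖ < 3 / 2 * R := by
      apply Filter.Tendsto.eventually_lt_const hx
      have : Continuous fun y : V m => ‖y - a‖ := by fun_prop
      exact this.continuousAt
    filter_upwards [h2] with y hy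
    have h3 : ‖(2 * R)⁻¹ • (y - a)‖ ≤ 3 / 4 := by
      rw [norm_scale hR, div_le_iff₀ (by positivity)]
      linarith
    unfold ins
    rw [cut2_one h3, one_smul, add_sub_cancel]
  rw [h1.fderiv_eq]
  have h4 : HasFDerivAt k (fderiv ℝ k ((2 * R)⁻¹ • (x - a))) ((2 * R)⁻¹ • (x - a)) :=
    (hk.smooth.differentiable (by simp) _).hasFDerivAt
  have h5 := ((h4.comp x (hasFDerivAt_scale a (2 * R) x)).const_smul (2 * R)).const_add a
  have h6 := (hasFDerivAt_aff H a R _).comp x h5
  have h7 := h6.fderiv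
  refine h7.trans ?_
  ext1 w
  change fderiv ℝ H (a + (2 * R) • w0 m) ((2 * R) • (fderiv ℝ k ((2 * R)⁻¹ • (x - a))
    ((2 * R)⁻¹ • w))) = fderiv ℝ H (a + (2 * R) • w0 m) (fderiv ℝ k ((2 * R)⁻¹ • (x - a)) w)
  rw [map_smul, map_smul, map_smul, smul_smul, mul_inv_cancel₀ hs, one_smul]

private lemma ins_fderiv_mix {H : V m → V m} (hH : Dif H) {a : V m} {R : ℝ} (hR : 0 < R)
    {k : V m → V m} (hk : Dif k) {x : V m} (hx : 3 / 2 * R ≤ ‖x - a‖) :
    fderiv ℝ (ins H a R k) x = fderiv ℝ (mix H a R (cut2 m)) x := by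
  have hcl : IsClosed {y : V m | fderiv ℝ (ins H a R k) y = fderiv ℝ (mix H a R (cut2 m)) y} :=
    isClosed_eq ((ins_smooth hH a R hk).continuous_fderiv (by simp))
      ((contDiff_mix hH a R (cut2 m).contDiff).continuous_fderiv (by simp))
  have hsub : (closedBall a (3 / 2 * R))ᶜ ⊆
      {y : V m | fderiv ℝ (ins H a R k) y = fderiv ℝ (mix H a R (cut2 m)) y} := by
    intro y hy
    have h1 : ins H a R k =ᶠ[𝓝 y] mix H a R (cut2 m) := by
      filter_upwards [isClosed_closedBall.isOpen_compl.mem_nhds hy] with z hz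
      apply ins_eq_mix hR hk
      rw [mem_compl_iff, mem_closedBall_iff_norm, not_le] at hz
      exact hz.le
    exact h1.fderiv_eq
  have h2 := hcl.closure_subset_iff.2 hsub
  apply h2
  rw [closure_compl, interior_closedBall a (by positivity), mem_compl_iff, mem_ball_iff_norm,
    not_lt]
  exact hx

private lemma ins_facts (hm : 2 ≤ m) {H : V m → V m} {a : V m} {R δ B : ℝ} (hH : Dif H)
    (hR : 0 < R) (haR : ‖a‖ + 2 * R ≤ 3 / 4) (hδ : 0 ≤ δ) (hF : Flat δ (ann a R) H)
    (hB : ∀ v, ‖fderiv ℝ (cut2 m) v‖ ≤ B) (hsmall : δ * (1 + 6 * B) ≤ 1 / 8) {k : V m → V m}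
    (hk : Dif k) : Dif (ins H a R k) ∧
      ∀ x, 3 / 2 * R ≤ ‖x - a‖ → ‖x - a‖ ≤ 2 * R →
        ‖Ring.inverse (fderiv ℝ H (a + (2 * R) • w0 m) : EV m) * fderiv ℝ (ins H a R k) x - 1‖ ≤
          1 / 8 := by
  have h1 : ∀ x, 3 / 2 * R ≤ ‖x - a‖ → ‖x - a‖ ≤ 2 * R →
        ‖Ring.inverse (fderiv ℝ H (a + (2 * R) • w0 m) : EV m) * fderiv ℝ (ins H a R k) x - 1‖ ≤
          1 / 8 := by
    intro x hx1 hx2
    rw [ins_fderiv_mix hH hR hk hx1]
    exact (mix_near hm hH hR hδ hF (cut2 m).contDiff hB (fun v => (cut2 m).nonneg)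
      (fun v => (cut2 m).le_one) ⟨by linarith, hx2⟩).trans hsmall
  refine ⟨⟨ins_smooth hH a R hk, ?_, ?_⟩, h1⟩
  · intro x
    rcases lt_or_ge ‖x - a‖ (3 / 2 * R) with hx | hx
    · rw [ins_inner hH hR hk hx]
      exact (hH.unit _).mul (hk.unit _)
    · rcases le_or_gt ‖x - a‖ (2 * R) with hx2 | hx2
      · apply isUnit_of_near' (hH.unit (a + (2 * R) • w0 m))
        exact (h1 x hx hx2).trans_lt (by norm_num)
      · have h2 : ins H a R k =ᶠ[𝓝 x] H := by
          have h3 : ∀ᶠ y in 𝓝 x, 2 * R < ‖y - a‖ := by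
            apply Filter.Tendsto.eventually_const_lt hx2
            have : Continuous fun y : V m => ‖y - a‖ := by fun_prop
            exact this.continuousAt
          filter_upwards [h3] with y hy
          exact ins_outer hR k (by linarith)
        rw [h2.fderiv_eq]
        exact hH.unit _
  · intro x hx
    rw [ins_outer hR k, hH.supp x hx]
    have h2 : ‖x‖ ≤ ‖x - a‖ + ‖a‖ := by
      calc ‖x‖ = ‖(x - a) + a‖ := by rw [sub_add_cancel]
        _ ≤ ‖x - a‖ + ‖a‖ := norm_add_le _ _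
    linarith

theorem ins_iso (m : ℕ) (hm : 2 ≤ m) : ∃ δ₀ : ℝ, 0 < δ₀ ∧
    ∀ (H : V m → V m) (a : V m) (R : ℝ) (k : V m → V m), Dif H → 0 < R → ‖a‖ + 2 * R ≤ 3 / 4 →
      Flat δ₀ (ann a R) H → Iso (rep H a R) k →
      Iso H (ins H a R k) ∧ (∀ x, 7 / 4 * R ≤ ‖x - a‖ → ins H a R k x = H x) ∧
      (∀ x, ‖x - a‖ < 3 / 2 * R → (fderiv ℝ (ins H a R k) x : EV m) =
        fderiv ℝ H (a + (2 * R) • w0 m) * fderiv ℝ k ((2 * R)⁻¹ • (x - a))) ∧
      ∀ x, 3 / 2 * R ≤ ‖x - a‖ → ‖x - a‖ ≤ 2 * R →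
        ‖Ring.inverse (fderiv ℝ H (a + (2 * R) • w0 m) : EV m) * fderiv ℝ (ins H a R k) x - 1‖ ≤
          1 / 8 := by
  obtain ⟨B1, hB1, hB1'⟩ := exists_fderiv_bound (cut2 m).contDiff (cut2 m).hasCompactSupport
  obtain ⟨B2, hB2, hB2'⟩ := exists_fderiv_bound (contDiff_kap m) (compact_kap m)
  set B := max B1 B2 with hBdef
  have hB : 0 ≤ B := hB1.trans (le_max_left _ _)
  refine ⟨1 / (8 * (1 + 6 * B)), by positivity, ?_⟩
  intro H a R k hH hR haR hF hiso
  set δ : ℝ := 1 / (8 * (1 + 6 * B)) with hδdef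
  have hδ : 0 < δ := by positivity
  have hsm : δ * (1 + 6 * B) ≤ 1 / 8 := by
    rw [hδdef]
    field_simp
    exact le_refl _
  have hcut2 : ∀ v, ‖fderiv ℝ (cut2 m) v‖ ≤ B := fun v => (hB1' v).trans (le_max_left _ _)
  have hkap : ∀ v, ‖fderiv ℝ (kap m) v‖ ≤ B := fun v => (hB2' v).trans (le_max_right _ _)
  have hall : ∀ {k : V m → V m}, Dif k → Dif (ins H a R k) := fun hk =>
    (ins_facts hm hH hR haR hδ.le hF hcut2 hsm hk).1
  have hk0 : Dif (rep H a R) := hiso.left
  have hk1 : Dif k := hiso.right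
  refine ⟨?_, fun x hx => ins_outer hR k hx, fun x hx => ins_inner hH hR hk1 hx,
    (ins_facts hm hH hR haR hδ.le hF hcut2 hsm hk1).2⟩
  have hI1 : Iso H (ins H a R (rep H a R)) := by
    apply Iso.straight hH (hall hk0)
    intro t ht x
    rw [ins_rep_eq hH hR]
    by_cases hx : x ∈ ann a R
    · apply isUnit_of_near' (hH.unit (a + (2 * R) • w0 m))
      have h1 : ‖Ring.inverse (fderiv ℝ H (a + (2 * R) • w0 m) : EV m) * fderiv ℝ H x - 1‖ ≤ δ :=
        hF _ (w0_mem_ann hm hR) _ hx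
      have h2 := (mix_near hm hH hR hδ.le hF (contDiff_kap m) hkap kap_nonneg kap_le_one
        hx).trans hsm
      have h3 : Ring.inverse (fderiv ℝ H (a + (2 * R) • w0 m) : EV m) *
          ((1 - t) • (fderiv ℝ H x : EV m) + t • fderiv ℝ (mix H a R (kap m)) x) - 1 =
          (1 - t) • (Ring.inverse (fderiv ℝ H (a + (2 * R) • w0 m) : EV m) * fderiv ℝ H x - 1) +
          t • (Ring.inverse (fderiv ℝ H (a + (2 * R) • w0 m) : EV m) *
            fderiv ℝ (mix H a R (kap m)) x - 1) := by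
        rw [mul_add, mul_smul_comm, mul_smul_comm]
        module
      rw [h3]
      have h4 : δ ≤ 1 / 8 := by
        have : δ * 1 ≤ δ * (1 + 6 * B) := mul_le_mul_of_nonneg_left (by linarith) hδ.le
        linarith
      have ht0 : 0 ≤ t := ht.1
      have ht1 : 0 ≤ 1 - t := by linarith [ht.2]
      calc _ ≤ (1 - t) * ‖Ring.inverse (fderiv ℝ H (a + (2 * R) • w0 m) : EV m) *
            fderiv ℝ H x - 1‖ + t * ‖Ring.inverse (fderiv ℝ H (a + (2 * R) • w0 m) : EV m) *
            fderiv ℝ (mix H a R (kap m)) x - 1‖ := by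
            refine (norm_add_le _ _).trans ?_
            rw [norm_smul, norm_smul, Real.norm_of_nonneg ht0, Real.norm_of_nonneg ht1]
        _ ≤ (1 - t) * (1 / 8) + t * (1 / 8) :=
            add_le_add (mul_le_mul_of_nonneg_left (h1.trans h4) ht1)
              (mul_le_mul_of_nonneg_left h2 ht0)
        _ < 1 := by linarith
    · have h1 : mix H a R (kap m) =ᶠ[𝓝 x] H := by
        have hcont : Continuous fun y : V m => ‖y - a‖ := by fun_prop
        have hx' : ‖x - a‖ < R ∨ 2 * R < ‖x - a‖ := by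
          by_contra hcon
          push Not at hcon
          exact hx hcon
        rcases hx' with hx' | hx'
        · have h3 : ∀ᶠ y in 𝓝 x, ‖y - a‖ < R :=
            Filter.Tendsto.eventually_lt_const hx' hcont.continuousAt
          filter_upwards [h3] with y hy
          have h4 : ‖(2 * R)⁻¹ • (y - a)‖ ≤ 1 / 2 := by
            rw [norm_scale hR, div_le_iff₀ (by positivity)]
            linarith
          unfold mix kap
          rw [cut_one h4, sub_self, mul_zero, zero_smul, add_zero]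
        · have h3 : ∀ᶠ y in 𝓝 x, 2 * R < ‖y - a‖ :=
            Filter.Tendsto.eventually_const_lt hx' hcont.continuousAt
          filter_upwards [h3] with y hy
          have h4 : 7 / 8 ≤ ‖(2 * R)⁻¹ • (y - a)‖ := by
            rw [norm_scale hR, le_div_iff₀ (by positivity)]
            linarith
          unfold mix kap
          rw [cut2_zero h4, zero_mul, zero_smul, add_zero]
      rw [h1.fderiv_eq, ← add_smul, sub_add_cancel, one_smul]
      exact hH.unit x
  have hI2 : Iso (ins H a R (rep H a R)) (ins H a R k) := by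
    obtain ⟨K, hK, hKD, hK0, hK1⟩ := hiso
    refine ⟨fun q => ins H a R (fun v => K (q.1, v)) q.2, contDiff_ins hH a R hK,
      fun t => hall (hKD t), ?_, ?_⟩
    · intro x
      have : (fun v => K (0, v)) = rep H a R := funext hK0
      simp only [this]
    · intro x
      have : (fun v => K (1, v)) = k := funext hK1
      simp only [this]
  exact hI1.trans hI2

end Pool.Agent.Lib.P28f
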