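import Pool.Agent.Lib.P28f.RingNear
import Pool.Agent.Lib.P28f.CoreLin

set_option autoImplicit false

/-!
# On the annulus `1/2 ≤ ‖v‖ ≤ 1` the normalised map is `C¹`-close to the identity

PROOF SKETCH. `fderiv (nrm f) v = (fderiv f w0)⁻¹ * fderiv f v`, so the first estimate is `Flat` at `w0`, `v` (`‖w0‖ = 3/4`). Let `g = nrm f - id`:
`‖dg‖ ≤ δ` on the annulus and `g w0 = 0`. The annulus is the union of the convex pieces `S i s = {v : ‖v‖ ≤ 1, 1/2 ≤ s v_i}` (`i : Fin m`, `s = ±1`), each of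
diameter `≤ 2`, so `‖g x - g y‖ ≤ 2 δ` for `x, y` in the same piece (`Convex.norm_image_sub_le_of_norm_hasFDerivWithin_le`, `g` is differentiable at every
point of the closed annulus). Pieces with different `i` meet (point with `v_i = 3/4 s`, `v_j = 3/4 s'`, other coordinates `0`); `w0` is in `S 0 +`; from `S 0 -` one passes
through `S 1 +` (this uses `m ≥ 2`). So at most three pieces are needed: `‖g v‖ ≤ 6 δ`.
-/

open MeasureTheory Set Metric
open scoped ContDiff Topology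

namespace Pool.Agent.Lib.P28f

variable {m : ℕ}

namespace NrmNearAux

/-- a convex piece of the annulus -/
def piece (i : Fin m) (σ : ℝ) : Set (V m) := {v | ‖v‖ ≤ 1 ∧ 1 / 2 ≤ σ * v i}

theorem piece_convex (i : Fin m) (σ : ℝ) : Convex ℝ (piece i σ) := by
  intro x hx y hy a b ha hb hab
  refine ⟨?_, ?_⟩
  · calc ‖a • x + b • y‖ ≤ ‖a • x‖ + ‖b • y‖ := norm_add_le _ _
      _ = a * ‖x‖ + b * ‖y‖ := by
          rw [norm_smul, norm_smul, Real.norm_eq_abs, Real.norm_eq_abs, abs_of_nonneg ha,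
            abs_of_nonneg hb]
      _ ≤ a * 1 + b * 1 := add_le_add (mul_le_mul_of_nonneg_left hx.1 ha)
          (mul_le_mul_of_nonneg_left hy.1 hb)
      _ = 1 := by linarith
  · have h1 := mul_le_mul_of_nonneg_left hx.2 ha
    have h2 := mul_le_mul_of_nonneg_left hy.2 hb
    have e : σ * (a • x + b • y) i = a * (σ * x i) + b * (σ * y i) := by
      simp only [Pi.add_apply, Pi.smul_apply, smul_eq_mul]; ring
    rw [e]
    nlinarith

theorem piece_sub {i : Fin m} {σ : ℝ} (hσ : |σ| = 1) : piece i σ ⊆ ann (0 : V m) (1 / 2) := by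
  intro v hv
  refine ⟨?_, ?_⟩
  · rw [sub_zero]
    have h1 : 1 / 2 ≤ |σ * v i| := hv.2.trans (le_abs_self _)
    rw [abs_mul, hσ, one_mul] at h1
    exact h1.trans (norm_le_pi_norm v i)
  · rw [sub_zero]
    have := hv.1
    linarith

/-- a point in two pieces -/
noncomputable def qp (i : Fin m) (σ : ℝ) (j : Fin m) (τ : ℝ) : V m :=
  fun l => if l = i then 3 / 4 * σ else if l = j then 3 / 4 * τ else 0

theorem qp_norm (i : Fin m) {σ : ℝ} (hσ : |σ| = 1) (j : Fin m) {τ : ℝ} (hτ : |τ| = 1) :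
    ‖qp i σ j τ‖ ≤ 1 := by
  rw [pi_norm_le_iff_of_nonneg zero_le_one]
  intro l
  unfold qp
  split_ifs
  · rw [Real.norm_eq_abs, abs_mul, hσ]; norm_num
  · rw [Real.norm_eq_abs, abs_mul, hτ]; norm_num
  · rw [norm_zero]; exact zero_le_one

theorem qp_left (i : Fin m) {σ : ℝ} (hσ : |σ| = 1) (j : Fin m) {τ : ℝ} (hτ : |τ| = 1) :
    qp i σ j τ ∈ piece i σ := by
  refine ⟨qp_norm i hσ j hτ, ?_⟩
  have h1 : σ * σ = 1 := by rw [← abs_mul_abs_self, hσ]; norm_num
  have e : qp i σ j τ i = 3 / 4 * σ := by simp [qp]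
  rw [e]
  nlinarith

theorem qp_right (i : Fin m) {σ : ℝ} (hσ : |σ| = 1) (j : Fin m) {τ : ℝ} (hτ : |τ| = 1)
    (hij : j ≠ i) : qp i σ j τ ∈ piece j τ := by
  refine ⟨qp_norm i hσ j hτ, ?_⟩
  have h1 : τ * τ = 1 := by rw [← abs_mul_abs_self, hτ]; norm_num
  have e : qp i σ j τ j = 3 / 4 * τ := by simp [qp, hij]
  rw [e]
  nlinarith

theorem exists_piece {v : V m} (hv : v ∈ ann (0 : V m) (1 / 2)) :
    ∃ (i : Fin m) (σ : ℝ), (σ = 1 ∨ σ = -1) ∧ v ∈ piece i σ := by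
  have h1 : 1 / 2 ≤ ‖v‖ := by simpa using hv.1
  have h2 : ‖v‖ ≤ 1 := by
    have := hv.2
    rw [sub_zero] at this
    linarith
  have h3 : ∃ i, 1 / 2 ≤ |v i| := by
    by_contra hcon
    push Not at hcon
    have : ‖v‖ < 1 / 2 := by
      rw [pi_norm_lt_iff (by norm_num)]
      exact hcon
    linarith
  obtain ⟨i, hi⟩ := h3
  rcases le_or_gt 0 (v i) with h | h
  · exact ⟨i, 1, Or.inl rfl, h2, by rwa [one_mul, ← abs_of_nonneg h]⟩
  · exact ⟨i, -1, Or.inr rfl, h2, by rwa [neg_one_mul, ← abs_of_neg h]⟩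

end NrmNearAux

open NrmNearAux in
theorem nrm_near (hm : 2 ≤ m) {f : V m → V m} {δ : ℝ} (hδ : 0 ≤ δ) (hI : Imm (ann 0 (1 / 2)) f)
    (hF : Flat δ (ann 0 (1 / 2)) f) {v : V m} (hv : v ∈ ann (0 : V m) (1 / 2)) :
    ‖(fderiv ℝ (nrm f) v : EV m) - 1‖ ≤ δ ∧ ‖nrm f v - v‖ ≤ 6 * δ := by
  have hw : w0 m ∈ ann (0 : V m) (1 / 2) := by
    refine ⟨?_, ?_⟩
    · rw [sub_zero, norm_w0 (by omega)]; norm_num
    · rw [sub_zero, norm_w0 (by omega)]; norm_num
  set A : EV m := Ring.inverse (fderiv ℝ f (w0 m) : EV m) with hA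
  have hder : ∀ x ∈ ann (0 : V m) (1 / 2), HasFDerivAt (nrm f) (A * fderiv ℝ f x : EV m) x := by
    intro x hx
    have h1 : HasFDerivAt f (fderiv ℝ f x) x :=
      ((hI x hx).1.differentiableAt (by simp)).hasFDerivAt
    have h2 : HasFDerivAt (fun v => f v - f (w0 m)) (fderiv ℝ f x) x := h1.sub_const _
    exact (A.hasFDerivAt.comp x h2).const_add _
  have hnear : ∀ x ∈ ann (0 : V m) (1 / 2), ‖(A * fderiv ℝ f x : EV m) - 1‖ ≤ δ :=
    fun x hx => hF _ hw _ hx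
  refine ⟨?_, ?_⟩
  · rw [(hder v hv).fderiv]
    exact hnear v hv
  set g : V m → V m := fun x => nrm f x - x with hg
  have hgder : ∀ x ∈ ann (0 : V m) (1 / 2), HasFDerivAt g (A * fderiv ℝ f x - 1 : EV m) x :=
    fun x hx => (hder x hx).sub (hasFDerivAt_id x)
  have key : ∀ (i : Fin m) (σ : ℝ), |σ| = 1 → ∀ x ∈ piece i σ, ∀ y ∈ piece i σ,
      ‖g y - g x‖ ≤ 2 * δ := by
    intro i σ hσ x hx y hy
    have h1 := Convex.norm_image_sub_le_of_norm_hasFDerivWithin_le (𝕜 := ℝ) (f := g)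
      (f' := fun x => (A * fderiv ℝ f x - 1 : EV m)) (C := δ) (s := piece i σ)
      (fun x hx => (hgder x (piece_sub hσ hx)).hasFDerivWithinAt)
      (fun x hx => hnear x (piece_sub hσ hx)) (piece_convex i σ) hx hy
    have h2 : ‖y - x‖ ≤ 2 := by
      calc ‖y - x‖ ≤ ‖y‖ + ‖x‖ := norm_sub_le _ _
        _ ≤ 1 + 1 := add_le_add hy.1 hx.1
        _ = 2 := by norm_num
    nlinarith [norm_nonneg (y - x)]
  have hgw : g (w0 m) = 0 := by
    rw [hg]
    simp only [nrm, sub_self, map_zero, add_zero]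
  let o : Fin m := ⟨0, by omega⟩
  let l : Fin m := ⟨1, by omega⟩
  have hlo : l ≠ o := by
    intro h
    have := congrArg Fin.val h
    simp [l, o] at this
  have h11 : |(1 : ℝ)| = 1 := abs_one
  have h1m : |(-1 : ℝ)| = 1 := by rw [abs_neg, abs_one]
  have hwp : w0 m ∈ piece o 1 := by
    refine ⟨?_, ?_⟩
    · rw [norm_w0 (by omega)]; norm_num
    · have : w0 m o = 3 / 4 := by simp [w0, o]
      rw [this]; norm_num
  have hstep1 : ∀ x ∈ piece o 1, ‖g x‖ ≤ 2 * δ := by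
    intro x hx
    have := key o 1 h11 _ hwp _ hx
    rwa [hgw, sub_zero] at this
  have hstep2 : ∀ (i : Fin m) (σ : ℝ), |σ| = 1 → i ≠ o → ∀ x ∈ piece i σ, ‖g x‖ ≤ 4 * δ := by
    intro i σ hσ hio x hx
    have h1 := hstep1 (qp o 1 i σ) (qp_left o h11 i hσ)
    have h2 := key i σ hσ _ (qp_right o h11 i hσ hio) _ hx
    calc ‖g x‖ = ‖(g x - g (qp o 1 i σ)) + g (qp o 1 i σ)‖ := by rw [sub_add_cancel]
      _ ≤ ‖g x - g (qp o 1 i σ)‖ + ‖g (qp o 1 i σ)‖ := norm_add_le _ _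
      _ ≤ 4 * δ := by linarith
  obtain ⟨i, σ, hσ, hvi⟩ := exists_piece hv
  by_cases hio : i = o
  · subst hio
    rcases hσ with rfl | rfl
    · have := hstep1 v hvi
      exact this.trans (by linarith)
    · have h1 := hstep2 l 1 h11 hlo (qp o (-1) l 1) (qp_right o h1m l h11 hlo)
      have h2 := key o (-1) h1m _ (qp_left o h1m l h11) _ hvi
      calc ‖g v‖ = ‖(g v - g (qp o (-1) l 1)) + g (qp o (-1) l 1)‖ := by rw [sub_add_cancel]
        _ ≤ ‖g v - g (qp o (-1) l 1)‖ + ‖g (qp o (-1) l 1)‖ := norm_add_le _ _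
        _ ≤ 6 * δ := by linarith
  · have hσ' : |σ| = 1 := by
      rcases hσ with rfl | rfl
      · exact h11
      · exact h1m
    exact (hstep2 i σ hσ' hio v hvi).trans (by linarith)

end Pool.Agent.Lib.P28f
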