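import Pool.Agent.Lib.P28f.CorePath

set_option autoImplicit false

/-!
# Flat annuli at all scales: the class is trivial

PROOF SKETCH. By `rep_move` (same centre) `rep f a R` is isotopic to `rep f a R'` for every `0 < R' ≤ R`. Let `δ₁`, `C` be from `core_dif` and `δ' = min δ₁ (1 / (2 (C + 1)))`.
The derivative of `f` is continuous at `a` and invertible, so for small `R'` `f` is `δ'`-flat on `closedBall a (2 R')`. Then `‖fderiv (rep f a R') v - 1‖ < 1` for all `v`: for
`‖v‖ ≥ 1/2` by `core_dif` (applied to `v ↦ f (a + 2 R' v)`), for `‖v‖ < 1/2` the derivative is `(df̂ w0)⁻¹ df̂ v`. So the straight line to the identity consists of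
immersions (`Iso.straight`, `isUnit_of_near`).
-/

open MeasureTheory Set Metric
open scoped ContDiff Topology

namespace Pool.Agent.Lib.P28f

variable {m : ℕ}

namespace RepIdAux

theorem fderiv_core_inner {g : V m → V m} {v : V m} (h : ‖v‖ < 1 / 2)
    (hd : DifferentiableAt ℝ g v) :
    (fderiv ℝ (core g) v : EV m) = Ring.inverse (fderiv ℝ g (w0 m) : EV m) * fderiv ℝ g v := by
  have h1 : core g =ᶠ[𝓝 v] fun x =>
      (w0 m - Ring.inverse (fderiv ℝ g (w0 m) : EV m) (g (w0 m))) +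
        Ring.inverse (fderiv ℝ g (w0 m) : EV m) (g x) := by
    have h2 : ∀ᶠ x in 𝓝 v, ‖x‖ < 1 / 2 := (continuous_norm.continuousAt).eventually_lt_const h
    filter_upwards [h2] with x hx
    rw [core_inner g hx.le]
    unfold nrm
    rw [map_sub]
    abel
  rw [h1.fderiv_eq]
  exact clx_fderiv_affine hd _ _

theorem fderiv_rep_inner {f : V m → V m} {a : V m} {R : ℝ} (hR : 0 < R) {v : V m}
    (hv : ‖v‖ < 1 / 2) (hd : DifferentiableAt ℝ f (a + (2 * R) • v))
    (hd0 : DifferentiableAt ℝ f (a + (2 * R) • w0 m))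
    (hu : IsUnit (fderiv ℝ f (a + (2 * R) • w0 m) : EV m)) :
    (fderiv ℝ (rep f a R) v : EV m) =
      Ring.inverse (fderiv ℝ f (a + (2 * R) • w0 m) : EV m) * fderiv ℝ f (a + (2 * R) • v) := by
  unfold rep
  rw [fderiv_core_inner hv (clx_hasFDerivAt_comp hd).differentiableAt,
    (clx_hasFDerivAt_comp hd).fderiv, (clx_hasFDerivAt_comp hd0).fderiv]
  exact inv_mul_smul (by positivity) hu

theorem add_smul_mem {a v : V m} {s : ℝ} (hs : 0 < s) (hv : v ∈ closedBall (0 : V m) 1) :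
    a + s • v ∈ closedBall a s := by
  rw [mem_closedBall, dist_zero_right] at hv
  rw [mem_closedBall, dist_eq_norm, add_sub_cancel_left, norm_smul, Real.norm_eq_abs,
    abs_of_pos hs]
  nlinarith

theorem imm_comp {f : V m → V m} {a : V m} {s : ℝ} (hs : 0 < s) (h : Imm (closedBall a s) f) :
    Imm (closedBall 0 1) (fun v => f (a + s • v)) := by
  intro v hv
  obtain ⟨h1, h2⟩ := h _ (add_smul_mem hs hv)
  refine ⟨?_, ?_⟩
  · have h3 : ContDiffAt ℝ ∞ (fun v : V m => a + s • v) v := by fun_prop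
    exact ContDiffAt.comp v (f := fun v : V m => a + s • v) (g := f) h1 h3
  · rw [(clx_hasFDerivAt_comp (h1.differentiableAt (by simp))).fderiv]
    exact clx_isUnit_smul_ne h2 hs.ne'

theorem flat_ann_comp {δ : ℝ} {f : V m → V m} {a : V m} {R : ℝ} (hR : 0 < R)
    (hI : Imm (closedBall a (2 * R)) f) (h : Flat δ (ann a R) f) :
    Flat δ (ann 0 (1 / 2)) (fun v => f (a + (2 * R) • v)) := by
  have hR2 : (2 * R) ≠ 0 := by positivity
  refine flat_comp hR2 ?_ ?_
  · intro v hv
    have hv1 : v ∈ closedBall (0 : V m) 1 := by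
      have := hv.2
      rw [sub_zero] at this
      rw [mem_closedBall, dist_zero_right]; linarith
    obtain ⟨h1, h2⟩ := hI _ (add_smul_mem (by positivity) hv1)
    exact ⟨h1.differentiableAt (by simp), h2⟩
  · refine Flat.mono h le_rfl ?_
    rintro _ ⟨v, hv, rfl⟩
    obtain ⟨hv1, hv2⟩ := hv
    rw [sub_zero] at hv1 hv2
    have e : ‖(a + (2 * R) • v) - a‖ = (2 * R) * ‖v‖ := by
      rw [add_sub_cancel_left, norm_smul, Real.norm_eq_abs, abs_of_pos (by linarith)]
    constructor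
    · change R ≤ ‖(a + (2 * R) • v) - a‖
      rw [e]; nlinarith
    · change ‖(a + (2 * R) • v) - a‖ ≤ 2 * R
      rw [e]; nlinarith

theorem small_scale {f : V m → V m} {a : V m} (hs : ContDiffAt ℝ ∞ f a)
    (hu : IsUnit (fderiv ℝ f a : EV m)) : ∃ ε : ℝ, 0 < ε ∧ ∀ x ∈ closedBall a ε,
      ∀ y ∈ closedBall a ε, ‖Ring.inverse (fderiv ℝ f x : EV m) * fderiv ℝ f y - 1‖ ≤ 1 / 2 := by
  have hc : ContinuousAt (fun x => (fderiv ℝ f x : EV m)) a :=
    (hs.fderiv_right (m := 0) (by simp)).continuousAt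
  have hi : ContinuousAt (fun x => Ring.inverse (fderiv ℝ f x : EV m)) a := by
    obtain ⟨u, hu'⟩ := hu
    have h1 : ContinuousAt (Ring.inverse : EV m → EV m) (fderiv ℝ f a : EV m) := by
      rw [← hu']
      exact NormedRing.inverse_continuousAt u
    exact ContinuousAt.comp (f := fun x => (fderiv ℝ f x : EV m)) h1 hc
  have h2 : ContinuousAt (fun p : V m × V m =>
      Ring.inverse (fderiv ℝ f p.1 : EV m) * (fderiv ℝ f p.2 : EV m) - 1) (a, a) := by
    have e1 : ContinuousAt (fun p : V m × V m => Ring.inverse (fderiv ℝ f p.1 : EV m)) (a, a) :=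
      ContinuousAt.comp (f := fun p : V m × V m => p.1) (x := (a, a)) hi continuousAt_fst
    have e2 : ContinuousAt (fun p : V m × V m => (fderiv ℝ f p.2 : EV m)) (a, a) :=
      ContinuousAt.comp (f := fun p : V m × V m => p.2) (x := (a, a)) hc continuousAt_snd
    exact (e1.mul e2).sub continuousAt_const
  have h3 : ∀ᶠ p in 𝓝 (a, a), ‖Ring.inverse (fderiv ℝ f (p : V m × V m).1 : EV m) *
      (fderiv ℝ f p.2 : EV m) - 1‖ < 1 / 2 := by
    have h4 := h2.norm
    refine h4.eventually_lt_const ?_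
    show ‖Ring.inverse (fderiv ℝ f a : EV m) * (fderiv ℝ f a : EV m) - 1‖ < 1 / 2
    rw [Ring.inverse_mul_cancel _ hu, sub_self, norm_zero]
    norm_num
  rw [nhds_prod_eq] at h3
  obtain ⟨S, hS, T, hT, hST⟩ := Filter.eventually_prod_iff.1 h3
  obtain ⟨ε1, h5, h6⟩ := nhds_basis_closedBall.eventually_iff.1 hS
  obtain ⟨ε2, h7, h8⟩ := nhds_basis_closedBall.eventually_iff.1 hT
  refine ⟨min ε1 ε2, lt_min h5 h7, fun x hx y hy => ?_⟩
  exact (hST (h6 (closedBall_subset_closedBall (min_le_left _ _) hx))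
    (h8 (closedBall_subset_closedBall (min_le_right _ _) hy))).le

theorem dif_id : Dif (id : V m → V m) :=
  ⟨contDiff_id, fun x => by rw [fderiv_id]; exact isUnit_one, fun _ _ => rfl⟩

theorem iso_id_of_near {h : V m → V m} (hd : Dif h)
    (hn : ∀ x, ‖(fderiv ℝ h x : EV m) - 1‖ < 1) : Iso h id := by
  refine Iso.straight hd dif_id fun t ht x => ?_
  have e : (1 - t) • (fderiv ℝ h x : EV m) + t • fderiv ℝ (id : V m → V m) x =
      (1 - (1 - t)) • (1 : EV m) + (1 - t) • (fderiv ℝ h x : EV m) := by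
    rw [fderiv_id, sub_sub_cancel, add_comm]
    rfl
  rw [e]
  refine isUnit_seg isUnit_one ?_ ⟨by linarith [ht.2], by linarith [ht.1]⟩
  rw [Ring.inverse_one, one_mul]
  exact hn x

end RepIdAux

open RepIdAux

theorem rep_id (m : ℕ) (hm : 2 ≤ m) : ∃ δ₀ : ℝ, 0 < δ₀ ∧ ∀ (f : V m → V m) (a : V m) (R : ℝ),
    0 < R → Imm (closedBall a (2 * R)) f →
    (∀ R' : ℝ, 0 < R' → R' ≤ R → Flat δ₀ (ann a R') f) → Iso (rep f a R) id := by
  obtain ⟨δ₁, C, hδ₁, hC, hcd⟩ := core_dif m hm
  obtain ⟨δ₂, hδ₂, hrm⟩ := rep_move m hm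
  refine ⟨min (min δ₁ δ₂) (1 / (2 * (C + 1))), by positivity, fun f a R hR hI hF => ?_⟩
  obtain ⟨δ, hδ⟩ : ∃ δ, δ = min (min δ₁ δ₂) (1 / (2 * (C + 1))) := ⟨_, rfl⟩
  rw [← hδ] at hF
  have hδ0 : 0 < δ := by rw [hδ]; positivity
  have hδ1 : δ ≤ δ₁ := by rw [hδ]; exact (min_le_left _ _).trans (min_le_left _ _)
  have hδ2 : δ ≤ δ₂ := by rw [hδ]; exact (min_le_left _ _).trans (min_le_right _ _)
  have hδ3 : C * δ < 1 := by
    have h1 : δ ≤ 1 / (2 * (C + 1)) := by rw [hδ]; exact min_le_right _ _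
    have h2 : C * δ ≤ C * (1 / (2 * (C + 1))) := mul_le_mul_of_nonneg_left h1 hC.le
    have h3 : C * (1 / (2 * (C + 1))) < 1 := by
      rw [mul_one_div, div_lt_one (by positivity)]
      linarith
    linarith
  obtain ⟨hsa, hua⟩ := hI a (mem_closedBall_self (by positivity))
  obtain ⟨ε, hε, hsm⟩ := small_scale hsa hua
  obtain ⟨ρ, hρ⟩ : ∃ ρ, ρ = min R (ε / 2) := ⟨_, rfl⟩
  have hρ0 : 0 < ρ := by rw [hρ]; positivity
  have hρR : ρ ≤ R := by rw [hρ]; exact min_le_left _ _
  have hρε : 2 * ρ ≤ ε := by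
    have : ρ ≤ ε / 2 := by rw [hρ]; exact min_le_right _ _
    linarith
  have hIρ : Imm (closedBall a (2 * ρ)) f := fun x hx =>
    hI x (closedBall_subset_closedBall (by linarith) hx)
  have step1 : Iso (rep f a R) (rep f a ρ) := by
    refine hrm f a a R ρ hR hρ0 fun t ht => ?_
    have e : (1 - t) • a + t • a = a := by module
    have h1 : 0 < (1 - t) * R + t * ρ := by
      obtain ⟨h0, h1⟩ := ht
      rcases eq_or_lt_of_le h0 with h | h
      · rw [← h]; simpa using hR
      · have h2 : 0 ≤ (1 - t) * R := mul_nonneg (by linarith) hR.le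
        have h3 := mul_pos h hρ0
        linarith
    have h2 : (1 - t) * R + t * ρ ≤ R := by
      have := mul_le_mul_of_nonneg_left hρR ht.1
      linarith
    rw [e]
    refine ⟨fun x hx => hI x (closedBall_subset_closedBall (by linarith) hx), ?_⟩
    exact (hF _ h1 h2).mono hδ2 (subset_refl _)
  refine step1.trans ?_
  obtain ⟨h4, h5⟩ := hcd (fun v => f (a + (2 * ρ) • v)) δ hδ0.le hδ1
    (imm_comp (by positivity) hIρ) (flat_ann_comp hρ0 hIρ (hF ρ hρ0 hρR))
  refine iso_id_of_near h4 fun x => ?_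
  rcases lt_or_ge ‖x‖ (1 / 2) with hx | hx
  · have hw : w0 m ∈ closedBall (0 : V m) 1 := by
      rw [mem_closedBall, dist_zero_right]
      exact clx_norm_w0_le.trans (by norm_num)
    have hx1 : x ∈ closedBall (0 : V m) 1 := by
      rw [mem_closedBall, dist_zero_right]; linarith
    have m1 := add_smul_mem (a := a) (s := 2 * ρ) (by positivity) hx1
    have m0 := add_smul_mem (a := a) (s := 2 * ρ) (by positivity) hw
    have h6 := fderiv_rep_inner (f := f) (a := a) hρ0 hx
      ((hIρ _ m1).1.differentiableAt (by simp)) ((hIρ _ m0).1.differentiableAt (by simp))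
      (hIρ _ m0).2
    rw [h6]
    refine lt_of_le_of_lt (hsm _ (closedBall_subset_closedBall hρε m0) _
      (closedBall_subset_closedBall hρε m1)) (by norm_num)
  · exact lt_of_le_of_lt (h5 x hx) hδ3

end Pool.Agent.Lib.P28f
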