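import Pool.Agent.Lib.P28f.Defs

set_option autoImplicit false

/-!
# Concentration points along an ultrafilter

PROOF SKETCH. `ult` is an ultrafilter: for every property `P` of `j`, either `∀ᶠ j in ult, P j` or `∀ᶠ j in ult, ¬ P j` (`Ultrafilter.eventually_not`). Finite intersections of eventual
properties are eventual, an eventual property holds for some `j` (indeed for infinitely many: `ult` is the hyperfilter, `ult ≤ cofinite`).
`bad_finite`: if `Bad c μ` contained more than `E / c` points choose a small `r` with disjoint `closedBall a r ⊆ ball 0 1` around `L > E / c` of them; for some `j` all of them have mass `> c`,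
total mass `> L c > E`, a contradiction (`measureReal` of a finite disjoint union).
`bad_subset`: if `‖a‖ > 1/16` a small closed ball around `a` lies in `ball 0 1 \ closedBall 0 (1/16)` and has mass `≤ c/4 < c`.
`good_cover`: for `x ∈ K`, `x ∉ Bad`, there is an `r_x > 0` with `∀ᶠ j, (μ j).real (closedBall x r_x) ≤ c`, shrink it so that `closedBall x r_x ⊆ ball 0 1`; cover `K` by finitely many
`ball x (r_x / 2)`, `r = min r_x / 2` (for `K = ∅` take `r = 1`).
`good_scale`: put `s_k = s₀ / 16^k`; the sets `ball a s_k \ closedBall a (s_k / 16)` are disjoint; if for `k < N`, `N > 4 E / c`, none is eventually of mass `≤ c/4` then for some `j` all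
have mass `> c/4`, total `> E`, a contradiction.
`pick`: otherwise one can choose recursively `s 0, s 1, ...` with `P (s k)` and `¬ rel (s l) (s k)` for `l < k` (each time the intersection of finitely many eventual sets is not empty),
contradicting `hfin` (use `symm` to order the two indices).
-/

open MeasureTheory Set Metric
open scoped ContDiff Topology

namespace Pool.Agent.Lib.P28f

variable {m : ℕ}

private lemma exists_small {t : Finset (V m)} (P : V m → ℝ → Prop)
    (h : ∀ x ∈ t, ∀ᶠ r in 𝓝[>] (0 : ℝ), P x r) : ∃ r : ℝ, 0 < r ∧ ∀ x ∈ t, P x r := by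
  have h1 : ∀ᶠ r in 𝓝[>] (0 : ℝ), ∀ x ∈ t, P x r := (Filter.eventually_all_finset t).2 h
  obtain ⟨r, hr, hr0⟩ := (h1.and self_mem_nhdsWithin).exists
  exact ⟨r, hr0, hr⟩

private lemma ev_lt {ρ : ℝ} (hρ : 0 < ρ) {P : ℝ → Prop} (h : ∀ r, 0 < r → r < ρ → P r) :
    ∀ᶠ r in 𝓝[>] (0 : ℝ), P r := by
  filter_upwards [Ioo_mem_nhdsGT hρ] with r hr
  exact h r hr.1 hr.2

private lemma ev_sub {x : V m} (hx : x ∈ ball (0 : V m) 1) :
    ∀ᶠ r in 𝓝[>] (0 : ℝ), closedBall x r ⊆ ball (0 : V m) 1 := by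
  have h1 : dist x 0 < 1 := hx
  apply ev_lt (ρ := 1 - dist x 0) (by linarith)
  intro r _ hr
  apply closedBall_subset_ball'
  linarith

private lemma card_le {c E : ℝ} {μ : ℕ → Measure (V m)}
    (hfin : ∀ j, IsFiniteMeasure (μ j)) (hE : ∀ j, (μ j).real (ball 0 1) ≤ E)
    (t : Finset (V m)) (ht : (t : Set (V m)) ⊆ Bad c μ) : (t.card : ℝ) * c ≤ E := by
  obtain ⟨r, hr, hr2⟩ := exists_small (t := t)
    (fun x r => closedBall x r ⊆ ball (0 : V m) 1 ∧ ∀ y ∈ t, y ≠ x →
      Disjoint (closedBall x r) (closedBall y r)) (by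
    intro x hx
    refine (ev_sub (ht hx).1).and ((Filter.eventually_all_finset t).2 ?_)
    intro y _
    by_cases hyx : y = x
    · exact Filter.Eventually.of_forall fun r h => absurd hyx h
    · have h1 : 0 < dist x y := dist_pos.2 (fun h => hyx h.symm)
      apply ev_lt (ρ := dist x y / 2) (by positivity)
      intro r _ hr _
      apply closedBall_disjoint_closedBall
      linarith)
  have h1 : ∀ᶠ j in (ult : Filter ℕ), ∀ a ∈ t, c < (μ j).real (closedBall a r) :=
    (Filter.eventually_all_finset t).2 fun a ha => (ht ha).2 r hr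
  obtain ⟨j, hj⟩ := h1.exists
  have := hfin j
  calc (t.card : ℝ) * c = ∑ a ∈ t, c := by simp
    _ ≤ ∑ a ∈ t, (μ j).real (closedBall a r) := Finset.sum_le_sum fun a ha => (hj a ha).le
    _ = (μ j).real (⋃ a ∈ t, closedBall a r) := by
        rw [measureReal_biUnion_finset]
        · intro x hx y hy hxy
          exact (hr2 x hx).2 y hy hxy.symm
        · intro x _
          exact measurableSet_closedBall
    _ ≤ (μ j).real (ball 0 1) := by
        exact measureReal_mono (Set.iUnion₂_subset fun a ha => (hr2 a ha).1)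
    _ ≤ E := hE j

theorem bad_finite {c E : ℝ} (hc : 0 < c) {μ : ℕ → Measure (V m)}
    (hfin : ∀ j, IsFiniteMeasure (μ j)) (hE : ∀ j, (μ j).real (ball 0 1) ≤ E) :
    (Bad c μ).Finite := by
  by_contra hinf
  obtain ⟨N, hN⟩ := exists_nat_gt (E / c)
  obtain ⟨t, ht, hcard⟩ := Set.Infinite.exists_subset_card_eq hinf N
  have h1 := card_le hfin hE t ht
  rw [hcard] at h1
  rw [div_lt_iff₀ hc] at hN
  linarith

theorem bad_subset {c : ℝ} (hc : 0 < c) {μ : ℕ → Measure (V m)}
    (hfin : ∀ j, IsFiniteMeasure (μ j))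
    (hcol : ∀ j, (μ j).real (ball 0 1 \ closedBall 0 (1 / 16)) ≤ c / 4) :
    Bad c μ ⊆ closedBall 0 (1 / 16) := by
  intro a ha
  by_contra hna
  have ho : IsOpen (ball (0 : V m) 1 \ closedBall 0 (1 / 16)) :=
    isOpen_ball.sdiff isClosed_closedBall
  obtain ⟨r, hr, hr2⟩ := nhds_basis_closedBall.mem_iff.1 (ho.mem_nhds ⟨ha.1, hna⟩)
  obtain ⟨j, hj⟩ := (ha.2 r hr).exists
  have := hfin j
  have h1 : (μ j).real (closedBall a r) ≤ (μ j).real (ball 0 1 \ closedBall 0 (1 / 16)) :=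
    measureReal_mono hr2
  have h2 := hcol j
  linarith

theorem good_cover {c : ℝ} {μ : ℕ → Measure (V m)} (hfin : ∀ j, IsFiniteMeasure (μ j))
    {K : Set (V m)} (hK : IsCompact K) (hK1 : K ⊆ ball 0 1) (hKB : Disjoint K (Bad c μ)) :
    ∃ r : ℝ, 0 < r ∧ (∀ x ∈ K, closedBall x r ⊆ ball 0 1) ∧
      ∀ᶠ j in (ult : Filter ℕ), ∀ x ∈ K, (μ j).real (closedBall x r) ≤ c := by
  have h1 : ∀ x ∈ K, ∃ ρ : ℝ, 0 < ρ ∧ closedBall x ρ ⊆ ball (0 : V m) 1 ∧
      ∀ᶠ j in (ult : Filter ℕ), (μ j).real (closedBall x ρ) ≤ c := by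
    intro x hx
    have hxB : x ∉ Bad c μ := Set.disjoint_left.1 hKB hx
    have h2 : ∃ r : ℝ, 0 < r ∧ ¬ ∀ᶠ j in (ult : Filter ℕ), c < (μ j).real (closedBall x r) := by
      by_contra hcon
      push Not at hcon
      exact hxB ⟨hK1 hx, hcon⟩
    obtain ⟨r, hr, hr2⟩ := h2
    rw [← Ultrafilter.eventually_not] at hr2
    obtain ⟨ρ, ⟨hρ1, hρ2⟩, hρ0⟩ := (((ev_sub (hK1 hx)).and
      (ev_lt (P := fun s => s < r) hr fun s _ h => h)).and self_mem_nhdsWithin).exists
    refine ⟨ρ, hρ0, hρ1, ?_⟩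
    filter_upwards [hr2] with j hj
    have := hfin j
    have h3 : (μ j).real (closedBall x ρ) ≤ (μ j).real (closedBall x r) :=
      measureReal_mono (closedBall_subset_closedBall hρ2.le)
    exact h3.trans (not_lt.1 hj)
  choose! ρ hρ0 hρ1 hρ2 using h1
  obtain ⟨t, htK, htc⟩ := hK.elim_nhds_subcover (fun x => ball x (ρ x / 2)) (fun x hx =>
    ball_mem_nhds x (half_pos (hρ0 x hx)))
  obtain ⟨r, hr, hr2⟩ := exists_small (t := t) (fun x r => r < ρ x / 2) (fun x hx =>
    ev_lt (half_pos (hρ0 x (htK x hx))) fun s _ h => h)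
  have h2 : ∀ y ∈ K, ∃ x ∈ t, closedBall y r ⊆ closedBall x (ρ x) := by
    intro y hy
    obtain ⟨x, hx⟩ := Set.mem_iUnion.1 (htc hy)
    obtain ⟨hxt, hyx⟩ := Set.mem_iUnion.1 hx
    refine ⟨x, hxt, ?_⟩
    apply closedBall_subset_closedBall'
    have h3 := hr2 x hxt
    have h4 : dist y x < ρ x / 2 := hyx
    linarith
  refine ⟨r, hr, ?_, ?_⟩
  · intro y hy
    obtain ⟨x, hx, hyx⟩ := h2 y hy
    exact hyx.trans (hρ1 x (htK x hx))
  · have h3 : ∀ᶠ j in (ult : Filter ℕ), ∀ x ∈ t, (μ j).real (closedBall x (ρ x)) ≤ c :=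
      (Filter.eventually_all_finset t).2 fun x hx => hρ2 x (htK x hx)
    filter_upwards [h3] with j hj y hy
    obtain ⟨x, hx, hyx⟩ := h2 y hy
    have := hfin j
    exact (measureReal_mono hyx).trans (hj x hx)

theorem good_scale {c E : ℝ} (hc : 0 < c) {μ : ℕ → Measure (V m)}
    (hfin : ∀ j, IsFiniteMeasure (μ j)) (hE : ∀ j, (μ j).real (ball 0 1) ≤ E) {a : V m} {s₀ : ℝ}
    (hs₀ : 0 < s₀) (hb : closedBall a s₀ ⊆ ball 0 1) :
    ∃ s : ℝ, 0 < s ∧ s ≤ s₀ ∧
      ∀ᶠ j in (ult : Filter ℕ), (μ j).real (ball a s \ closedBall a (s / 16)) ≤ c / 4 := by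
  by_contra hcon
  push Not at hcon
  have h1 : ∀ k : ℕ, ∀ᶠ j in (ult : Filter ℕ),
      c / 4 < (μ j).real (ball a (s₀ / 16 ^ k) \ closedBall a (s₀ / 16 ^ k / 16)) := by
    intro k
    exact hcon (s₀ / 16 ^ k) (by positivity)
      (div_le_self hs₀.le (one_le_pow₀ (by norm_num)))
  obtain ⟨N, hN⟩ := exists_nat_gt (E / (c / 4))
  have h4 : ∀ᶠ j in (ult : Filter ℕ), ∀ k ∈ Finset.range N,
      c / 4 < (μ j).real (ball a (s₀ / 16 ^ k) \ closedBall a (s₀ / 16 ^ k / 16)) :=
    (Filter.eventually_all_finset _).2 fun k _ => h1 k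
  obtain ⟨j, hj⟩ := h4.exists
  have := hfin j
  have hdis : ∀ k l : ℕ, k < l →
      Disjoint (ball a (s₀ / 16 ^ k) \ closedBall a (s₀ / 16 ^ k / 16))
        (ball a (s₀ / 16 ^ l) \ closedBall a (s₀ / 16 ^ l / 16)) := by
    intro k l hkl
    rw [Set.disjoint_left]
    rintro x ⟨-, hx1⟩ ⟨hx2, -⟩
    apply hx1
    have h5 : s₀ / 16 ^ l ≤ s₀ / 16 ^ k / 16 := by
      rw [div_div, ← pow_succ]
      exact div_le_div_of_nonneg_left hs₀.le (by positivity)
        (pow_le_pow_right₀ (by norm_num) hkl)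
    exact ball_subset_closedBall (ball_subset_ball h5 hx2)
  have h6 : (N : ℝ) * (c / 4) ≤ E := by
    calc (N : ℝ) * (c / 4) = ∑ k ∈ Finset.range N, c / 4 := by simp
      _ ≤ ∑ k ∈ Finset.range N,
          (μ j).real (ball a (s₀ / 16 ^ k) \ closedBall a (s₀ / 16 ^ k / 16)) :=
          Finset.sum_le_sum fun k hk => (hj k hk).le
      _ = (μ j).real (⋃ k ∈ Finset.range N,
          ball a (s₀ / 16 ^ k) \ closedBall a (s₀ / 16 ^ k / 16)) := by
          rw [measureReal_biUnion_finset]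
          · intro k _ l _ hkl
            rcases lt_or_gt_of_ne hkl with h | h
            · exact hdis k l h
            · exact (hdis l k h).symm
          · intro k _
            exact measurableSet_ball.diff measurableSet_closedBall
      _ ≤ (μ j).real (ball 0 1) := by
          refine measureReal_mono (Set.iUnion₂_subset ?_)
          intro k _
          refine Set.sdiff_subset.trans (Subset.trans ?_ hb)
          refine ball_subset_closedBall.trans (closedBall_subset_closedBall ?_)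
          exact div_le_self hs₀.le (one_le_pow₀ (by norm_num))
      _ ≤ E := hE j
  rw [div_lt_iff₀ (by positivity)] at hN
  linarith

theorem pick {P : ℕ → Prop} (hP : ∀ᶠ j in (ult : Filter ℕ), P j) {rel : ℕ → ℕ → Prop}
    (hsymm : ∀ i j, rel i j → rel j i)
    (hfin : ∀ s : ℕ → ℕ, (∀ k, P (s k)) → ∃ k l, k ≠ l ∧ rel (s k) (s l)) :
    ∃ i, P i ∧ ∀ᶠ j in (ult : Filter ℕ), P j ∧ rel i j := by
  by_contra hcon
  have h1 : ∀ i, P i → ∀ᶠ j in (ult : Filter ℕ), ¬ (P j ∧ rel i j) := by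
    intro i hi
    rw [Ultrafilter.eventually_not]
    intro h
    exact hcon ⟨i, hi, h⟩
  obtain ⟨s, hs1, hs2⟩ := exists_seq_of_forall_finset_exists P (fun i j => ¬ rel i j) (by
    intro t ht
    have h2 : ∀ᶠ j in (ult : Filter ℕ), ∀ i ∈ t, ¬ (P j ∧ rel i j) :=
      (Filter.eventually_all_finset t).2 fun i hi => h1 i (ht i hi)
    obtain ⟨j, hj1, hj2⟩ := (hP.and h2).exists
    exact ⟨j, hj1, fun i hi hr => hj2 i hi ⟨hj1, hr⟩⟩)
  obtain ⟨k, l, hkl, hr⟩ := hfin s hs1
  rcases lt_or_gt_of_ne hkl with h | h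
  · exact hs2 k l h hr
  · exact hs2 l k h (hsymm _ _ hr)

theorem exists_ne_of_eventually {P : ℕ → Prop} (hP : ∀ᶠ j in (ult : Filter ℕ), P j) :
    ∃ i j, i ≠ j ∧ P i ∧ P j := by
  obtain ⟨i, hi⟩ := hP.exists
  have h1 : ∀ᶠ j in (ult : Filter ℕ), j ≠ i := by
    have h2 : ({i}ᶜ : Set ℕ) ∈ (Filter.cofinite : Filter ℕ) :=
      (Set.finite_singleton i).compl_mem_cofinite
    exact Filter.hyperfilter_le_cofinite h2
  obtain ⟨j, hj1, hj2⟩ := (hP.and h1).exists
  exact ⟨i, j, hj2.symm, hi, hj1⟩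

end Pool.Agent.Lib.P28f
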